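import Pool.Agent.H754Z.TA.Str

set_option autoImplicit false

namespace Pool.Agent.H754Z.TA

open MeasureTheory Filter Topology Pointwise

universe u v

namespace P6a

lemma pow_le {G : Type u} [Group G] {ν : G → ℝ} (h : IsLen ν) (g : G) (n : ℕ) :
    ν (g ^ n) ≤ n * ν g := by
  induction n with
  | zero => simp [h.one]
  | succ n ih =>
    rw [pow_succ]
    have := h.mul (g ^ n) g
    push_cast
    linarith

end P6a

theorem IsGN.conj_le {G : Type u} [Group G] [TopologicalSpace G] {ν : G → ℝ} {C : ℝ}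
    (h : IsGN ν C) (g y : G) (hy : ν y ≤ 1 / C) (hg : ν g ≤ 1 / C) :
    ν (y⁻¹ * g * y) ≤ 2 * ν g := by
  have hC : 0 < C := by linarith [h.one_le]
  have e : y⁻¹ * g * y = g * (g⁻¹ * y⁻¹ * g * y) := by group
  have h1 := h.mul g (g⁻¹ * y⁻¹ * g * y)
  have h2 := h.comm g y hg hy
  have h3 : C * ν y ≤ 1 := by rwa [le_div_iff₀ hC, mul_comm] at hy
  have h4 := h.nonneg g
  rw [e]
  nlinarith

theorem IsGN.pow_lower {G : Type u} [Group G] [TopologicalSpace G] {ν : G → ℝ} {C : ℝ}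
    (h : IsGN ν C) (g k : G) (n : ℕ) (hg : n * ν g ≤ 1 / (4 * C ^ 2))
    (hk : n * ν k ≤ 1 / (4 * C ^ 2)) :
    n * ν (g⁻¹ * k) ≤ 2 * C * ν ((g ^ n)⁻¹ * k ^ n) := by
  have hC1 := h.one_le
  have hC : 0 < C := by linarith
  rcases Nat.eq_zero_or_pos n with rfl | hn
  · simp [h.one]
  set z : G := g⁻¹ * k with hz
  set ε : ℝ := 1 / (4 * C ^ 2) with hε
  have hε0 : 0 < ε := by positivity
  have hε1 : 2 * ε ≤ 1 / C := by
    rw [hε, le_div_iff₀ hC]
    have : 2 * (1 / (4 * C ^ 2)) * C = 1 / (2 * C) := by field_simp; ring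
    rw [this, div_le_one (by positivity)]; linarith
  have hε2 : C * ε ≤ 1 / 4 := by
    have : C * ε = 1 / (4 * C) := by rw [hε]; field_simp
    rw [this]
    exact one_div_le_one_div_of_le (by norm_num) (by linarith)
  have hε3 : C * (2 * (C * ε)) = 1 / 2 := by rw [hε]; field_simp; ring
  have hn1 : (1 : ℝ) ≤ n := by exact_mod_cast hn
  have hz0 := h.nonneg z
  have hzn : n * ν z ≤ 2 * ε := by
    have h1 := h.mul g⁻¹ k
    rw [h.inv] at h1
    have := mul_le_mul_of_nonneg_left h1 (by positivity : (0 : ℝ) ≤ n)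
    linarith
  have hz1 : ν z ≤ 2 * ε := by nlinarith
  have key : ∀ j : ℕ, j ≤ n → ν ((z ^ j)⁻¹ * ((g ^ j)⁻¹ * k ^ j)) ≤ j * (2 * (C * ε) * ν z) := by
    intro j
    induction j with
    | zero => intro _; simp [h.one]
    | succ j ih =>
      intro hj
      have hjn : (j : ℝ) ≤ n := by exact_mod_cast (by omega : j ≤ n)
      have hgj : ν (g ^ j) ≤ ε := by
        have h1 := P6a.pow_le h.toIsLen g j
        have h2 := mul_le_mul_of_nonneg_right hjn (h.nonneg g)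
        linarith
      have hzj : ν (z ^ j) ≤ 2 * ε := by
        have h1 := P6a.pow_le h.toIsLen z j
        have h2 := mul_le_mul_of_nonneg_right hjn hz0
        linarith
      have e : (z ^ (j + 1))⁻¹ * ((g ^ (j + 1))⁻¹ * k ^ (j + 1)) =
          ((z ^ j)⁻¹ * (z⁻¹ * (g ^ j)⁻¹ * z * g ^ j) * z ^ j) *
            ((z ^ j)⁻¹ * ((g ^ j)⁻¹ * k ^ j)) := by
        rw [pow_succ' z, pow_succ' g, pow_succ' k]
        generalize z ^ j = a
        generalize g ^ j = b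
        generalize k ^ j = c
        rw [hz]; group
      have h1 := h.comm z (g ^ j) (by linarith) (by linarith)
      have h2 : C * ν z * ν (g ^ j) ≤ C * ε * ν z := by
        have := mul_le_mul_of_nonneg_left hgj (by positivity : 0 ≤ C * ν z)
        linarith
      have h3 : C * ε * ν z ≤ 1 / C := by nlinarith
      have h4 := h.conj_le (z⁻¹ * (g ^ j)⁻¹ * z * g ^ j) (z ^ j) (by linarith) (by linarith)
      have h5 := h.mul ((z ^ j)⁻¹ * (z⁻¹ * (g ^ j)⁻¹ * z * g ^ j) * z ^ j)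
        ((z ^ j)⁻¹ * ((g ^ j)⁻¹ * k ^ j))
      have h6 := ih (by omega)
      rw [e]
      push_cast
      linarith
  have h1 := key n le_rfl
  have h2 := h.escape z n (by linarith)
  have e : z ^ n = ((g ^ n)⁻¹ * k ^ n) * ((z ^ n)⁻¹ * ((g ^ n)⁻¹ * k ^ n))⁻¹ := by group
  have h3 := h.mul ((g ^ n)⁻¹ * k ^ n) ((z ^ n)⁻¹ * ((g ^ n)⁻¹ * k ^ n))⁻¹
  rw [← e, h.inv] at h3
  have h4 : C * (n * (2 * (C * ε) * ν z)) = n * ν z / 2 := by
    calc C * (n * (2 * (C * ε) * ν z)) = C * (2 * (C * ε)) * (n * ν z) := by ring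
      _ = _ := by rw [hε3]; ring
  have h5 := mul_le_mul_of_nonneg_left (h3.trans (add_le_add le_rfl h1)) hC.le
  rw [mul_add, h4] at h5
  linarith

namespace P6a

lemma doubling {G : Type u} [Group G] [TopologicalSpace G] [IsTopologicalGroup G]
    [MeasurableSpace G] [BorelSpace G] (μ : Measure G)
    [μ.IsHaarMeasure] {ν : G → ℝ} {C : ℝ} (h : IsGN ν C) :
    ∃ N : ℕ, ∀ ρ : ℝ, 0 < ρ → 2 * ρ ≤ 1 / (4 * C ^ 2) →
      μ {x | ν x ≤ 2 * ρ} ≤ N * μ {x | ν x ≤ ρ} := by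
  classical
  have hC1 := h.one_le
  have hC : 0 < C := by linarith
  set s : ℝ := 1 / (4 * C ^ 2) with hs
  have hs0 : 0 < s := by positivity
  have hsC : s ≤ 1 / C := one_div_le_one_div_of_le hC (by nlinarith)
  have hK : IsCompact {x | ν x ≤ s} :=
    h.cpt.of_isClosed_subset (isClosed_le h.cont continuous_const) fun x hx => le_trans hx hsC
  obtain ⟨T, hT⟩ := hK.elim_finite_subcover (fun a : G => {y | ν (a⁻¹ * y) < s / (16 * C)})
    (fun a => isOpen_lt (h.cont.comp (continuous_const.mul continuous_id)) continuous_const)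
    (fun x _ => Set.mem_iUnion.2 ⟨x, by
      simp only [Set.mem_ofPred_eq, inv_mul_cancel, h.one]; positivity⟩)
  refine ⟨T.card, fun ρ hρ hρs => ?_⟩
  set n : ℕ := ⌊s / (2 * ρ)⌋₊ with hn
  have hq : 1 ≤ s / (2 * ρ) := by rw [le_div_iff₀ (by positivity)]; linarith
  have hn1 : (n : ℝ) * (2 * ρ) ≤ s := by
    have := Nat.floor_le (by positivity : 0 ≤ s / (2 * ρ))
    rwa [le_div_iff₀ (by positivity)] at this
  have hn2 : s ≤ n * (4 * ρ) := by
    have h1 : s / (2 * ρ) < n + 1 := Nat.lt_floor_add_one _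
    have h2 : (1 : ℝ) ≤ n := by
      have : 1 ≤ n := (Nat.one_le_floor_iff _).2 hq
      exact_mod_cast this
    rw [div_lt_iff₀ (by positivity)] at h1
    nlinarith
  have hn0 : (0 : ℝ) < n := by
    by_contra hc
    have : (n : ℝ) * (4 * ρ) ≤ 0 := mul_nonpos_of_nonpos_of_nonneg (not_lt.1 hc) (by positivity)
    linarith
  let S : G → Set G := fun a => {x | ν x ≤ 2 * ρ ∧ ν (a⁻¹ * x ^ n) < s / (16 * C)}
  have hsm : ∀ x, ν x ≤ 2 * ρ → n * ν x ≤ s := fun x hx =>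
    (mul_le_mul_of_nonneg_left hx hn0.le).trans hn1
  have hcov : {x | ν x ≤ 2 * ρ} ⊆ ⋃ a ∈ T, S a := by
    intro x hx
    have h1 : x ^ n ∈ {x | ν x ≤ s} := (pow_le h.toIsLen x n).trans (hsm x hx)
    obtain ⟨a, ha, hxa⟩ := Set.mem_iUnion₂.1 (hT h1)
    exact Set.mem_iUnion₂.2 ⟨a, ha, hx, hxa⟩
  have hS : ∀ a, μ (S a) ≤ μ {x | ν x ≤ ρ} := by
    intro a
    rcases (S a).eq_empty_or_nonempty with he | ⟨y, hy⟩
    · simp [he]
    rw [← measure_preimage_mul μ y⁻¹ {x | ν x ≤ ρ}]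
    refine measure_mono fun x hx => ?_
    have h1 := h.pow_lower y x n (hsm y hy.1) (hsm x hx.1)
    have e : (y ^ n)⁻¹ * x ^ n = (a⁻¹ * y ^ n)⁻¹ * (a⁻¹ * x ^ n) := by group
    have h2 := h.mul (a⁻¹ * y ^ n)⁻¹ (a⁻¹ * x ^ n)
    rw [← e, h.inv] at h2
    have h3 : ν ((y ^ n)⁻¹ * x ^ n) ≤ 2 * (s / (16 * C)) := by linarith [hy.2, hx.2]
    have h4 : 2 * C * (2 * (s / (16 * C))) = s / 4 := by field_simp; ring
    have h5 := mul_le_mul_of_nonneg_left h3 (by positivity : 0 ≤ 2 * C)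
    have h6 : n * ν (y⁻¹ * x) ≤ n * ρ := by linarith
    exact le_of_mul_le_mul_left h6 hn0
  calc μ {x | ν x ≤ 2 * ρ} ≤ μ (⋃ a ∈ T, S a) := measure_mono hcov
    _ ≤ ∑ a ∈ T, μ (S a) := measure_biUnion_finset_le _ _
    _ ≤ ∑ _a ∈ T, μ {x | ν x ≤ ρ} := Finset.sum_le_sum fun a _ => hS a
    _ = _ := by simp

end P6a

theorem IsGN.ball_lower {G : Type u} [Group G] [TopologicalSpace G] [IsTopologicalGroup G]
    [LocallyCompactSpace G] [T2Space G] [MeasurableSpace G] [BorelSpace G] (μ : Measure G)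
    [μ.IsHaarMeasure] {ν : G → ℝ} {C : ℝ} (h : IsGN ν C) (r : ℝ) (hr : 0 < r) (hrC : r ≤ 1 / C) :
    ∃ c l : ℝ, 0 < c ∧ 0 < l ∧ ∀ k : ℕ, c * l ^ k ≤ μ.real {x | ν x ≤ r / 2 ^ k} := by
  have hC1 := h.one_le
  have hC : 0 < C := by linarith
  obtain ⟨N, hN⟩ := P6a.doubling μ h
  have hfin : ∀ t, t ≤ r → μ {x | ν x ≤ t} ≠ ⊤ := fun t ht =>
    ((measure_mono fun x (hx : ν x ≤ t) => le_trans hx (ht.trans hrC)).trans_lt
      h.cpt.measure_lt_top).ne
  have hle : ∀ k : ℕ, r / 2 ^ k ≤ r := fun k =>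
    div_le_self hr.le (one_le_pow₀ (by norm_num))
  obtain ⟨k0, hk0⟩ := exists_pow_lt_of_lt_one
    (by positivity : 0 < 1 / (4 * C ^ 2) / r) (by norm_num : (1 / 2 : ℝ) < 1)
  have hk1 : r / 2 ^ k0 ≤ 1 / (4 * C ^ 2) := by
    rw [lt_div_iff₀ hr, one_div_pow] at hk0
    have : r / 2 ^ k0 = 1 / 2 ^ k0 * r := by ring
    linarith
  have hmono : ∀ i j : ℕ, i ≤ j → r / 2 ^ j ≤ r / 2 ^ i := fun i j hij =>
    div_le_div_of_nonneg_left hr.le (by positivity) (pow_le_pow_right₀ (by norm_num) hij)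
  have hpos : 0 < μ.real {x | ν x ≤ r / 2 ^ k0} := by
    refine ENNReal.toReal_pos ?_ (hfin _ (hle k0))
    have ho : IsOpen {x | ν x < r / 2 ^ k0} := isOpen_lt h.cont continuous_const
    have := ho.measure_pos μ ⟨1, by simp only [Set.mem_ofPred_eq, h.one]; positivity⟩
    exact (this.trans_le (measure_mono fun x (hx : ν x < _) => hx.le)).ne'
  have key : ∀ i : ℕ, μ.real {x | ν x ≤ r / 2 ^ k0} * (1 / (N + 1 : ℝ)) ^ i ≤
      μ.real {x | ν x ≤ r / 2 ^ (k0 + i)} := by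
    intro i
    induction i with
    | zero => simp
    | succ i ih =>
      have e : 2 * (r / 2 ^ (k0 + (i + 1))) = r / 2 ^ (k0 + i) := by
        rw [← add_assoc, pow_succ]; field_simp
      have h1 := hN (r / 2 ^ (k0 + (i + 1))) (by positivity)
        (by rw [e]; exact (hmono _ _ (by omega)).trans hk1)
      rw [e] at h1
      have h2 : μ.real {x | ν x ≤ r / 2 ^ (k0 + i)} ≤
          N * μ.real {x | ν x ≤ r / 2 ^ (k0 + (i + 1))} := by
        have := ENNReal.toReal_mono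
          (ENNReal.mul_ne_top (ENNReal.natCast_ne_top N) (hfin _ (hle _))) h1
        simpa [Measure.real] using this
      have h3 : 0 ≤ μ.real {x | ν x ≤ r / 2 ^ (k0 + (i + 1))} := measureReal_nonneg
      rw [pow_succ, ← mul_assoc, mul_one_div, div_le_iff₀ (by positivity)]
      nlinarith
  refine ⟨_, 1 / (N + 1 : ℝ), hpos, by positivity, fun k => (key k).trans ?_⟩
  exact measureReal_mono (fun x (hx : ν x ≤ _) => le_trans hx (hmono _ _ (by omega)))
    (hfin _ (hle k))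

end Pool.Agent.H754Z.TA
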