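import Pool.Agent.H859Z.KakBadA

/-! The exceptional set of times is null. -/

namespace Pool.Agent.H859Z.KakBad

open MeasureTheory Filter Set Pool.Agent.H82Z.Kak

/-- quantitative linear independence -/
def Good {d m : ℕ} (β : Fin m → E d) (κ : ℝ) : Prop :=
  ∀ l : Fin m → ℝ, κ * ‖l‖ ≤ ‖∑ i, l i • β i‖

lemma good_cons {d m : ℕ} (β : Fin m → E d) (κ δ R : ℝ) (hκ0 : 0 ≤ κ) (hκ1 : κ ≤ 1)
    (hδ : 0 < δ) (hδ1 : δ ≤ 1) (hR : 0 ≤ R) (hg : Good β κ) (y : E d) (hy : ‖y‖ ≤ R)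
    (hfar : ∀ s ∈ Submodule.span ℝ (Set.range β), δ ≤ ‖y - s‖) :
    Good (Fin.cons y β : Fin (m + 1) → E d) (κ * (δ / (1 + R))) := by
  intro l
  rw [Fin.sum_univ_succ]
  simp only [Fin.cons_zero, Fin.cons_succ]
  set z : E d := ∑ i, l (Fin.succ i) • β i with hz
  set D : ℝ := ‖l 0 • y + z‖ with hD
  have hD0 : 0 ≤ D := norm_nonneg _
  have hzs : z ∈ Submodule.span ℝ (Set.range β) :=
    Submodule.sum_mem _ fun i _ => Submodule.smul_mem _ _ (Submodule.subset_span ⟨i, rfl⟩)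
  have h0 : |l 0| * δ ≤ D := by
    by_cases h : l 0 = 0
    · simp [h, hD0]
    · have h1 := hfar (-(l 0)⁻¹ • z) (Submodule.smul_mem _ _ hzs)
      have h2 : l 0 • y + z = l 0 • (y - -(l 0)⁻¹ • z) := by
        rw [smul_sub, smul_smul, mul_neg, mul_inv_cancel₀ h]; simp
      rw [hD, h2, norm_smul, Real.norm_eq_abs]
      exact mul_le_mul_of_nonneg_left h1 (abs_nonneg _)
  have h1 : ‖z‖ ≤ D + |l 0| * R := by
    have : z = (l 0 • y + z) - l 0 • y := by abel
    calc ‖z‖ = ‖(l 0 • y + z) - l 0 • y‖ := by rw [← this]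
      _ ≤ D + ‖l 0 • y‖ := norm_sub_le _ _
      _ ≤ _ := by
          rw [norm_smul, Real.norm_eq_abs]
          gcongr
  have h2 := hg fun i => l (Fin.succ i)
  have hq : 0 < δ / (1 + R) := by positivity
  by_cases hκ : κ = 0
  · simp [hκ, hD0]
  have hκp : 0 < κ := lt_of_le_of_ne hκ0 (Ne.symm hκ)
  have hp : 0 < κ * (δ / (1 + R)) := by positivity
  rw [mul_comm, ← le_div_iff₀ hp, pi_norm_le_iff_of_nonneg (by positivity)]
  intro i
  rw [le_div_iff₀ hp, Real.norm_eq_abs]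
  have hq1 : δ / (1 + R) * (1 + R) = δ := by field_simp
  refine Fin.cases ?_ (fun i => ?_) i
  · have h3 : κ * (δ / (1 + R)) ≤ δ := by
      have : δ / (1 + R) ≤ δ := div_le_self hδ.le (by linarith)
      nlinarith
    exact (mul_le_mul_of_nonneg_left h3 (abs_nonneg _)).trans h0
  · have h3 : |l (Fin.succ i)| ≤ ‖fun i => l (Fin.succ i)‖ := by
      have := norm_le_pi_norm (fun i => l (Fin.succ i)) i
      rwa [Real.norm_eq_abs] at this
    have h4 : κ * |l (Fin.succ i)| ≤ D + |l 0| * R :=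
      ((mul_le_mul_of_nonneg_left h3 hκ0).trans h2).trans h1
    have h5 : (D + |l 0| * R) * δ ≤ D * (1 + R) := by
      have := mul_le_mul_of_nonneg_right h0 hR
      nlinarith
    have h6 : (D + |l 0| * R) * (δ / (1 + R)) ≤ D := by
      rw [← mul_div_assoc, div_le_iff₀ (by linarith)]; exact h5
    calc |l (Fin.succ i)| * (κ * (δ / (1 + R))) = κ * |l (Fin.succ i)| * (δ / (1 + R)) := by ring
      _ ≤ (D + |l 0| * R) * (δ / (1 + R)) := mul_le_mul_of_nonneg_right h4 hq.le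
      _ ≤ D := h6

lemma greedy {d : ℕ} (j : ℕ) {σ : Type} (Ω : Finset σ) (β : σ → E d) (δ R : ℝ)
    (hδ : 0 < δ) (hδ1 : δ ≤ 1) (hR : ∀ u ∈ Ω, ‖β u‖ ≤ R) (hR0 : 0 ≤ R)
    (hsep : ∀ u ∈ Ω, ∀ u' ∈ Ω, u ≠ u' → δ ≤ ‖β u - β u'‖)
    (hbig : (4 * (R + 1) * (j + 1) + 3) ^ j * (1 / δ) ^ j < (Ω.card : ℝ)) :
    ∀ m, m ≤ j + 1 → ∃ w : Fin m → σ, (∀ i, w i ∈ Ω) ∧
      Good (fun i => β (w i)) ((δ / 4 / (1 + R)) ^ m) := by
  intro m
  induction m with
  | zero =>
    intro _
    refine ⟨Fin.elim0, fun i => i.elim0, fun l => ?_⟩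
    have : l = 0 := Subsingleton.elim _ _
    simp [this]
  | succ m ih =>
    intro hm
    obtain ⟨w, hw, hg⟩ := ih (by omega)
    have hS : Module.finrank ℝ (Submodule.span ℝ (Set.range fun i => β (w i))) ≤ j := by
      have := finrank_range_le_card (R := ℝ) fun i => β (w i)
      simp only [Fintype.card_fin, Set.finrank] at this
      omega
    have hfar : ∃ u ∈ Ω, ∀ s ∈ Submodule.span ℝ (Set.range fun i => β (w i)),
        δ / 4 ≤ ‖β u - s‖ := by
      by_contra hc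
      push Not at hc
      have := pack j Ω β δ R hδ hδ1 hR hR0 hsep _ hS fun u hu => by
        obtain ⟨s, hs, h⟩ := hc u hu
        exact ⟨s, hs, h.le⟩
      linarith
    obtain ⟨u, hu, hf⟩ := hfar
    have hq1 : δ / 4 / (1 + R) ≤ 1 := by
      rw [div_le_one (by linarith)]; linarith
    have := good_cons (fun i => β (w i)) _ (δ / 4) R (by positivity)
      (pow_le_one₀ (by positivity) hq1) (by positivity) (by linarith) hR0 hg (β u) (hR u hu) hf
    refine ⟨Fin.cons u w, fun i => Fin.cases (by simpa using hu) (fun i => by simpa using hw i) i, ?_⟩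
    have e : (fun i => β ((Fin.cons u w : Fin (m + 1) → σ) i)) =
        (Fin.cons (β u) fun i => β (w i) : Fin (m + 1) → E d) := by
      funext i
      refine Fin.cases ?_ (fun i => ?_) i <;> simp
    rw [e, pow_succ]
    exact this

lemma pencil {d k : ℕ} (α β : Fin k → E d) (κ RA T ε g : ℝ) (hκ : 0 < κ) (hκ1 : κ ≤ 1)
    (hRA : 0 ≤ RA) (hT : 0 ≤ T) (hε : 0 ≤ ε) (hg0 : 0 ≤ g) (hα : ∀ i, ‖α i‖ ≤ RA) (hβ : Good β κ)
    (t : Fin (k + 1) → ℝ) (ht : ∀ s, |t s| ≤ T) (hsep : ∀ s r, s ≠ r → g ≤ |t s - t r|)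
    (l : Fin (k + 1) → Fin k → ℝ) (hl : ∀ s, 1 ≤ ‖l s‖)
    (hlε : ∀ s, ‖∑ i, l s i • (α i + t s • β i)‖ ≤ ε) :
    g ^ k ≤ k * (k + 1) * ε * (k * RA + 3 * T + 1) ^ k / κ ^ (k + 1) := by
  classical
  obtain ⟨c, hc1, ⟨s0, hs0⟩, hc0⟩ := dep (W := Fin k → ℝ) k (by simp) l
  set Λ : ℝ := (k * RA + 3 * T + 1) / κ with hΛ
  have hΛ1 : k * RA / κ + T + 2 * T + 1 ≤ Λ := by
    have h1 : 3 * T + 1 ≤ (3 * T + 1) / κ := le_div_self (by linarith) hκ hκ1
    have h2 : Λ = k * RA / κ + (3 * T + 1) / κ := by rw [hΛ]; ring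
    linarith
  have hRκ : 0 ≤ k * RA / κ := by positivity
  have hA : ∀ x : Fin k → ℝ, ‖∑ i, x i • α i‖ ≤ k * RA * ‖x‖ := by
    intro x
    calc ‖∑ i, x i • α i‖ ≤ ∑ i, ‖x i • α i‖ := norm_sum_le _ _
      _ ≤ ∑ _i : Fin k, ‖x‖ * RA := Finset.sum_le_sum fun i _ => by
          rw [norm_smul]
          exact mul_le_mul (norm_le_pi_norm x i) (hα i) (norm_nonneg _) (norm_nonneg _)
      _ = _ := by simp; ring
  have key : ∀ F : Finset (Fin (k + 1)),
      ‖∑ s, (c s * ∏ r ∈ F, (t s - t r)) • l s‖ ≤ F.card * ((k + 1) * ε / κ) * Λ ^ F.card := by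
    intro F
    induction F using Finset.induction_on with
    | empty => simp [hc0]
    | insert r F hr ih =>
      set e : Fin (k + 1) → ℝ := fun s => c s * ∏ r ∈ F, (t s - t r) with he
      have he1 : ∀ s, |e s| ≤ Λ ^ F.card := by
        intro s
        rw [he]
        simp only [abs_mul, Finset.abs_prod]
        have h1 : ∏ r ∈ F, |t s - t r| ≤ Λ ^ F.card := by
          rw [← Finset.prod_const]
          refine Finset.prod_le_prod (fun _ _ => abs_nonneg _) fun r _ => ?_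
          have := abs_sub (t s) (t r)
          linarith [ht s, ht r]
        calc |c s| * ∏ r ∈ F, |t s - t r| ≤ 1 * Λ ^ F.card :=
              mul_le_mul (hc1 s) h1 (Finset.prod_nonneg fun _ _ => abs_nonneg _) zero_le_one
          _ = _ := one_mul _
      set x : Fin k → ℝ := ∑ s, e s • l s with hx
      set y : Fin k → ℝ := ∑ s, (e s * t s) • l s with hy
      have hxy : ∑ s, (c s * ∏ r' ∈ insert r F, (t s - t r')) • l s = y - t r • x := by
        rw [hx, hy, Finset.smul_sum, ← Finset.sum_sub_distrib]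
        refine Finset.sum_congr rfl fun s _ => ?_
        rw [Finset.prod_insert hr, smul_smul, ← sub_smul, he]
        congr 1; ring
      have hB : ∑ i, y i • β i =
          ∑ s, e s • ∑ i, l s i • (α i + t s • β i) - ∑ i, x i • α i := by
        simp only [hx, hy, Finset.sum_apply, Pi.smul_apply, smul_eq_mul, Finset.sum_smul,
          Finset.smul_sum, smul_add, smul_smul, Finset.sum_add_distrib]
        rw [Finset.sum_comm (f := fun i s => (e s * l s i) • α i), Finset.sum_comm]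
        simp only [add_sub_cancel_left]
        refine Finset.sum_congr rfl fun s _ => Finset.sum_congr rfl fun i _ => ?_
        congr 1; ring
      have hΛ0 : 0 ≤ Λ ^ F.card := pow_nonneg (by linarith) _
      have h1 : ‖∑ s, e s • ∑ i, l s i • (α i + t s • β i)‖ ≤ (k + 1) * ε * Λ ^ F.card := by
        calc _ ≤ ∑ s, ‖e s • ∑ i, l s i • (α i + t s • β i)‖ := norm_sum_le _ _
          _ ≤ ∑ _s : Fin (k + 1), Λ ^ F.card * ε := Finset.sum_le_sum fun s _ => by
              rw [norm_smul, Real.norm_eq_abs]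
              exact mul_le_mul (he1 s) (hlε s) (norm_nonneg _) hΛ0
          _ = _ := by simp; ring
      have h2 : κ * ‖y‖ ≤ (k + 1) * ε * Λ ^ F.card + k * RA * ‖x‖ := by
        refine (hβ y).trans ?_
        rw [hB]
        exact (norm_sub_le _ _).trans (add_le_add h1 (hA x))
      have h3 : ‖y‖ ≤ (k + 1) * ε / κ * Λ ^ F.card + k * RA / κ * ‖x‖ := by
        have : (k + 1) * ε / κ * Λ ^ F.card + k * RA / κ * ‖x‖ =
            ((k + 1) * ε * Λ ^ F.card + k * RA * ‖x‖) / κ := by ring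
        rw [this, le_div_iff₀ hκ]; linarith
      have h4 : ‖y - t r • x‖ ≤ ‖y‖ + T * ‖x‖ := by
        refine (norm_sub_le _ _).trans ?_
        rw [norm_smul, Real.norm_eq_abs]
        gcongr
        exact ht r
      rw [hxy, Finset.card_insert_of_notMem hr]
      have hP : 0 ≤ (k + 1) * ε / κ * Λ ^ F.card := by positivity
      have h5 : (k * RA / κ + T) * ‖x‖ ≤ Λ * (F.card * ((k + 1) * ε / κ) * Λ ^ F.card) :=
        mul_le_mul (by linarith) ih (norm_nonneg _) (by linarith)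
      have h6 : (k + 1) * ε / κ * Λ ^ F.card ≤ Λ * ((k + 1) * ε / κ * Λ ^ F.card) :=
        le_mul_of_one_le_left hP (by linarith)
      push_cast
      rw [pow_succ]
      nlinarith
  have h := key (Finset.univ.erase s0)
  rw [Finset.sum_eq_single s0 (fun s _ hs => by
    rw [Finset.prod_eq_zero (Finset.mem_erase.2 ⟨hs, Finset.mem_univ _⟩) (sub_self _)]; simp)
    (by simp)] at h
  have hcard : (Finset.univ.erase s0).card = k := by simp
  rw [hcard, norm_smul, Real.norm_eq_abs, abs_mul, hs0, one_mul, Finset.abs_prod] at h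
  have h1 : g ^ k ≤ ∏ r ∈ Finset.univ.erase s0, |t s0 - t r| := by
    calc g ^ k = ∏ _r ∈ Finset.univ.erase s0, g := by rw [Finset.prod_const, hcard]
      _ ≤ _ := Finset.prod_le_prod (fun _ _ => hg0) fun r hr =>
          hsep s0 r (Finset.mem_erase.1 hr).1.symm
  have h2 : ∏ r ∈ Finset.univ.erase s0, |t s0 - t r| ≤
      (∏ r ∈ Finset.univ.erase s0, |t s0 - t r|) * ‖l s0‖ :=
    le_mul_of_one_le_right (Finset.prod_nonneg fun _ _ => abs_nonneg _) (hl s0)
  calc g ^ k ≤ _ := (h1.trans h2).trans h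
    _ = _ := by rw [hΛ, div_pow, pow_succ]; field_simp

theorem thm_bad : S_bad := by
  classical
  intro d ι _ a b ρ h0 h1 hsep j
  obtain ⟨Ra, hRa0, hRa⟩ := pt_bound a ρ h0 h1
  obtain ⟨Rb, hRb0, hRb⟩ := pt_bound b ρ h0 h1
  set k : ℕ := j + 1 with hk
  set N : ℝ := (Fintype.card ι : ℝ) ^ (k + 1) with hN
  have hN0 : 0 ≤ N := by positivity
  set γ : ℝ := 1 / (2 * (N + 1)) with hγ
  have hγ0 : 0 < γ := by positivity
  obtain ⟨q', hq'⟩ := exists_pow_lt_of_lt_one (pow_pos hγ0 k) h1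
  refine ⟨k * (k + 1) + q', by positivity, ?_⟩
  set c0 : ℝ := 1 / 4 / (1 + 2 * Rb) with hc0
  have hc00 : 0 < c0 := by positivity
  let Bad : ℕ → (n : ℕ) → (Fin (k + 1) → Fin n → ι) → Set ℝ := fun T n τ =>
    {t | |t| ≤ T ∧ Good (fun i : Fin k => pt b ρ (τ i.succ) - pt b ρ (τ 0))
        ((ρ ^ n / 4 / (1 + 2 * Rb)) ^ k) ∧
      ∃ l : Fin k → ℝ, 1 ≤ ‖l‖ ∧ ‖∑ i, l i • ((pt a ρ (τ i.succ) - pt a ρ (τ 0)) +
        t • (pt b ρ (τ i.succ) - pt b ρ (τ 0)))‖ ≤ k * (d * ρ ^ ((k * (k + 1) + q') * n))}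
  have hvol : ∀ T : ℕ, ∃ C1 : ℝ, 0 ≤ C1 ∧ ∀ n τ,
      volume (Bad T n τ) ≤ ENNReal.ofReal (2 * (C1 * γ ^ n) * k) := by
    intro T
    set C2 : ℝ := k * (k + 1) * (k * d) * (k * (2 * Ra) + 3 * T + 1) ^ k / c0 ^ (k * (k + 1))
      with hC2
    have hC20 : 0 ≤ C2 := by positivity
    refine ⟨C2 + 1, by positivity, fun n τ => ?_⟩
    refine vol_le _ (by positivity) k _ fun t ht hts => ?_
    have hρn : ρ ^ n ≤ 1 := pow_le_one₀ h0.le h1.le
    have hρn0 : 0 < ρ ^ n := by positivity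
    have hq1 : ρ ^ n / 4 / (1 + 2 * Rb) ≤ 1 := by
      rw [div_le_one (by linarith)]; linarith
    choose l hl1 hl2 using fun s => (ht s).2.2
    have h := pencil (fun i : Fin k => pt a ρ (τ i.succ) - pt a ρ (τ 0))
      (fun i : Fin k => pt b ρ (τ i.succ) - pt b ρ (τ 0)) _ (2 * Ra) T _ ((C2 + 1) * γ ^ n)
      (by positivity) (pow_le_one₀ (by positivity) hq1) (by positivity) (by positivity)
      (by positivity) (by positivity)
      (fun i => (norm_sub_le _ _).trans (by linarith [hRa n (τ i.succ), hRa n (τ 0)]))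
      (ht 0).2.1 t (fun s => (ht s).1) hts l hl1 hl2
    have e1 : ρ ^ n / 4 / (1 + 2 * Rb) = ρ ^ n * c0 := by rw [hc0]; ring
    have e2 : (k : ℝ) * (k + 1) * (k * (d * ρ ^ ((k * (k + 1) + q') * n))) *
        (k * (2 * Ra) + 3 * T + 1) ^ k / ((ρ ^ n / 4 / (1 + 2 * Rb)) ^ k) ^ (k + 1) =
        C2 * (ρ ^ q') ^ n := by
      rw [e1, hC2, ← pow_mul, mul_pow, add_mul, pow_add, ← pow_mul ρ q' n,
        ← pow_mul ρ n (k * (k + 1)), mul_comm n (k * (k + 1))]
      field_simp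
    rw [e2, mul_pow] at h
    have h3 : (ρ ^ q') ^ n ≤ (γ ^ n) ^ k := by
      rw [← pow_mul γ n k, mul_comm n k, pow_mul γ k n]
      exact pow_le_pow_left₀ (by positivity) hq'.le n
    have h4 : C2 + 1 ≤ (C2 + 1) ^ k := le_self_pow₀ (by linarith) (by omega)
    have h5 : 0 < (γ ^ n) ^ k := by positivity
    have h6 : C2 * (ρ ^ q') ^ n ≤ C2 * (γ ^ n) ^ k := mul_le_mul_of_nonneg_left h3 hC20
    nlinarith
  have hae : ∀ T : ℕ, ∀ᵐ t : ℝ, ∀ᶠ n in atTop, t ∉ ⋃ τ, Bad T n τ := by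
    intro T
    obtain ⟨C1, hC1, hv⟩ := hvol T
    refine ae_eventually_notMem ?_
    have hle : ∀ n, volume (⋃ τ, Bad T n τ) ≤ ENNReal.ofReal (2 * C1 * k * (1 / 2) ^ n) := by
      intro n
      calc volume (⋃ τ, Bad T n τ) ≤ ∑ τ, volume (Bad T n τ) := measure_iUnion_fintype_le _ _
        _ ≤ ∑ _τ : Fin (k + 1) → Fin n → ι, ENNReal.ofReal (2 * (C1 * γ ^ n) * k) :=
            Finset.sum_le_sum fun τ _ => hv n τ
        _ = ENNReal.ofReal (N ^ n * (2 * (C1 * γ ^ n) * k)) := by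
            have hcard : ((Finset.univ : Finset (Fin (k + 1) → Fin n → ι)).card : ℝ) = N ^ n := by
              simp only [Finset.card_univ, Fintype.card_fun, Fintype.card_fin, hN]
              push_cast
              rw [← pow_mul, ← pow_mul, mul_comm]
            rw [Finset.sum_const, nsmul_eq_mul, ENNReal.ofReal_mul (p := N ^ n) (by positivity),
              ← hcard, ENNReal.ofReal_natCast]
        _ ≤ _ := by
            refine ENNReal.ofReal_le_ofReal ?_
            have h2 : N * γ ≤ 1 / 2 := by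
              rw [hγ, mul_one_div, div_le_div_iff₀ (by positivity) (by positivity)]; linarith
            have h3 : (N * γ) ^ n ≤ (1 / 2) ^ n := pow_le_pow_left₀ (by positivity) h2 n
            calc N ^ n * (2 * (C1 * γ ^ n) * k) = 2 * C1 * k * (N * γ) ^ n := by
                  rw [mul_pow]; ring
              _ ≤ _ := mul_le_mul_of_nonneg_left h3 (by positivity)
    refine ne_top_of_le_ne_top ?_ (ENNReal.tsum_le_tsum hle)
    rw [← ENNReal.ofReal_tsum_of_nonneg (fun n => by positivity)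
      (summable_geometric_two.mul_left _)]
    exact ENNReal.ofReal_ne_top
  filter_upwards [ae_all_iff.2 hae] with t ht
  refine ⟨(4 * (2 * Rb + 1) * (j + 1) + 3) ^ j, ?_⟩
  filter_upwards [ht ⌈|t|⌉₊] with n hn
  intro V hV Ω hΩ
  by_contra hbig
  push Not at hbig
  have hne : Ω.Nonempty := by
    rw [← Finset.card_pos]
    have : (0 : ℝ) < Ω.card := lt_of_le_of_lt (by positivity) hbig
    exact_mod_cast this
  obtain ⟨u0, hu0⟩ := hne
  have hρn : ρ ^ n ≤ 1 := pow_le_one₀ h0.le h1.le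
  obtain ⟨w, hw, hg⟩ := greedy j Ω (fun u => pt b ρ u - pt b ρ u0) (ρ ^ n) (2 * Rb)
    (by positivity) hρn
    (fun u _ => (norm_sub_le _ _).trans (by linarith [hRb n u, hRb n u0])) (by positivity)
    (fun u _ u' _ hne => by
      have := hsep n u u' hne
      simpa using this)
    (by
      have : (1 / ρ ^ n) ^ j = (1 / ρ) ^ (j * n) := by
        rw [mul_comm j n, pow_mul, one_div_pow ρ n]
      rw [this]; exact hbig) k le_rfl
  choose v hv hv' using fun i => hΩ (w i) (hw i) u0 hu0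
  obtain ⟨c, hc1, ⟨i0, hi0⟩, hc⟩ := dep (W := V) j hV fun i => ⟨v i, hv i⟩
  have hc' : ∑ i, c i • v i = 0 := by
    have := congrArg Subtype.val hc
    simpa using this
  refine hn (Set.mem_iUnion.2 ⟨Fin.cons u0 w, Nat.le_ceil _, by simpa using hg, c, ?_, ?_⟩)
  · have := norm_le_pi_norm c i0
    rwa [Real.norm_eq_abs, hi0] at this
  · simp only [Fin.cons_succ, Fin.cons_zero]
    have e : ∑ i, c i • ((pt a ρ (w i) - pt a ρ u0) + t • (pt b ρ (w i) - pt b ρ u0)) =
        ∑ i, c i • ((pt a ρ (w i) + t • pt b ρ (w i)) - (pt a ρ u0 + t • pt b ρ u0) - v i) := by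
      have : ∀ i, c i • ((pt a ρ (w i) + t • pt b ρ (w i)) - (pt a ρ u0 + t • pt b ρ u0) - v i) =
          c i • ((pt a ρ (w i) - pt a ρ u0) + t • (pt b ρ (w i) - pt b ρ u0)) - c i • v i := by
        intro i
        rw [← smul_sub, smul_sub t]
        congr 1; abel
      simp only [this, Finset.sum_sub_distrib, hc', sub_zero]
    rw [e]
    calc _ ≤ ∑ i, ‖c i • ((pt a ρ (w i) + t • pt b ρ (w i)) - (pt a ρ u0 + t • pt b ρ u0) - v i)‖ :=
          norm_sum_le _ _
      _ ≤ ∑ _i : Fin k, 1 * (d * ρ ^ ((k * (k + 1) + q') * n)) := Finset.sum_le_sum fun i _ => by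
          rw [norm_smul, Real.norm_eq_abs]
          exact mul_le_mul (hc1 i) (hv' i) (norm_nonneg _) zero_le_one
      _ = _ := by simp

end Pool.Agent.H859Z.KakBad
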