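import Pool.Agent.H82Z.Kak.St

/-! Lemmas for the exceptional set of times (packing, pencils). -/

namespace Pool.Agent.H859Z.KakBad

open MeasureTheory Filter Set Pool.Agent.H82Z.Kak

lemma pt_bound {ι V : Type} [Fintype ι] [NormedAddCommGroup V] [NormedSpace ℝ V] (c : ι → V)
    (ρ : ℝ) (h0 : 0 < ρ) (h1 : ρ < 1) :
    ∃ R : ℝ, 0 ≤ R ∧ ∀ (n : ℕ) (u : Fin n → ι), ‖pt c ρ u‖ ≤ R := by
  have hM : 0 ≤ ∑ i, ‖c i‖ := Finset.sum_nonneg fun _ _ => norm_nonneg _
  refine ⟨(1 - ρ)⁻¹ * ∑ i, ‖c i‖, mul_nonneg (inv_nonneg.2 (by linarith)) hM, fun n u => ?_⟩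
  have hg : ∑ k : Fin n, ρ ^ (k : ℕ) ≤ (1 - ρ)⁻¹ := by
    rw [Fin.sum_univ_eq_sum_range (fun k => ρ ^ k) n, ← tsum_geometric_of_lt_one h0.le h1]
    exact (summable_geometric_of_lt_one h0.le h1).sum_le_tsum _ fun _ _ => by positivity
  calc ‖pt c ρ u‖ ≤ ∑ k : Fin n, ‖ρ ^ (k : ℕ) • c (u k)‖ := norm_sum_le _ _
    _ ≤ ∑ k : Fin n, ρ ^ (k : ℕ) * ∑ i, ‖c i‖ := by
        refine Finset.sum_le_sum fun k _ => ?_
        rw [norm_smul, Real.norm_of_nonneg (by positivity)]
        exact mul_le_mul_of_nonneg_left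
          (Finset.single_le_sum (f := fun i => ‖c i‖) (fun _ _ => norm_nonneg _)
            (Finset.mem_univ _)) (by positivity)
    _ = (∑ k : Fin n, ρ ^ (k : ℕ)) * ∑ i, ‖c i‖ := by rw [Finset.sum_mul]
    _ ≤ _ := mul_le_mul_of_nonneg_right hg hM

lemma dep {W : Type} [AddCommGroup W] [Module ℝ W] [Module.Finite ℝ W] (m : ℕ)
    (hW : Module.finrank ℝ W ≤ m) (v : Fin (m + 1) → W) :
    ∃ c : Fin (m + 1) → ℝ, (∀ s, |c s| ≤ 1) ∧ (∃ s, |c s| = 1) ∧ ∑ s, c s • v s = 0 := by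
  have hn : ¬ LinearIndependent ℝ v := fun h => by
    have := h.fintype_card_le_finrank
    simp at this
    omega
  obtain ⟨g, hg, i, hi⟩ := Fintype.not_linearIndependent_iff.1 hn
  obtain ⟨s0, -, hs0⟩ := Finset.exists_max_image Finset.univ (fun s => |g s|) ⟨i, Finset.mem_univ _⟩
  have hp : 0 < |g s0| := lt_of_lt_of_le (abs_pos.2 hi) (hs0 i (Finset.mem_univ _))
  refine ⟨fun s => |g s0|⁻¹ * g s, fun s => ?_, ⟨s0, ?_⟩, ?_⟩
  · rw [abs_mul, abs_inv, abs_abs, inv_mul_le_iff₀ hp, mul_one]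
    exact hs0 s (Finset.mem_univ _)
  · rw [abs_mul, abs_inv, abs_abs, inv_mul_cancel₀ hp.ne']
  · simp only [mul_smul]
    rw [← Finset.smul_sum, hg, smul_zero]

lemma vol_le (g : ℝ) (hg : 0 < g) (k : ℕ) : ∀ S : Set ℝ,
    (∀ t : Fin (k + 1) → ℝ, (∀ s, t s ∈ S) → ¬ ∀ s r, s ≠ r → g ≤ |t s - t r|) →
    volume S ≤ ENNReal.ofReal (2 * g * k) := by
  induction k with
  | zero =>
    intro S h
    have : S = ∅ := by
      by_contra hS
      obtain ⟨x, hx⟩ := Set.nonempty_iff_ne_empty.2 hS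
      exact h (fun _ => x) (fun _ => hx) fun s r hsr => absurd (Fin.ext (by have := s.2; have := r.2; omega)) hsr
    simp [this]
  | succ k ih =>
    intro S h
    rcases S.eq_empty_or_nonempty with rfl | ⟨x, hx⟩
    · simp
    have h1 := ih (S \ Metric.ball x g) (by
      intro t ht hsep
      refine h (Fin.cons x t) (fun s => ?_) (fun s r hsr => ?_)
      · refine Fin.cases ?_ (fun s => ?_) s
        · simpa using hx
        · simpa using (ht s).1
      · have hx' : ∀ s, g ≤ |t s - x| := fun s => by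
          have := (ht s).2
          simpa [Real.dist_eq] using this
        revert hsr
        refine Fin.cases ?_ (fun s => ?_) s <;> refine Fin.cases ?_ (fun r => ?_) r
        · simp
        · intro _; simpa [abs_sub_comm] using hx' r
        · intro _; simpa using hx' s
        · intro hsr; simpa using hsep s r fun e => hsr (by rw [e]))
    calc volume S ≤ volume ((S \ Metric.ball x g) ∪ Metric.ball x g) :=
          measure_mono fun y hy => by
            by_cases hb : y ∈ Metric.ball x g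
            · exact Or.inr hb
            · exact Or.inl ⟨hy, hb⟩
      _ ≤ volume (S \ Metric.ball x g) + volume (Metric.ball x g) := measure_union_le _ _
      _ ≤ ENNReal.ofReal (2 * g * k) + ENNReal.ofReal (2 * g) := by
          rw [Real.volume_ball]; gcongr
      _ = ENNReal.ofReal (2 * g * (k + 1 : ℕ)) := by
          rw [← ENNReal.ofReal_add (by positivity) (by positivity)]
          push_cast; ring_nf

lemma pack_euc (m : ℕ) {σ : Type} (Ω : Finset σ) (x : σ → EuclideanSpace ℝ (Fin m)) (δ R : ℝ)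
    (hδ : 0 < δ) (hR : ∀ u ∈ Ω, ‖x u‖ ≤ R) (hR0 : 0 ≤ R)
    (hsep : ∀ u ∈ Ω, ∀ u' ∈ Ω, u ≠ u' → δ ≤ ‖x u - x u'‖) :
    (Ω.card : ℝ) ≤ (2 * (R * (m + 1) / δ) + 3) ^ m := by
  classical
  set h : ℝ := δ / (m + 1) with hh
  have hpos : 0 < h := by positivity
  set N : ℕ := ⌈R / h⌉₊ with hN
  have hmaps : ∀ u ∈ Ω, (fun i => ⌊x u i / h⌋) ∈
      Fintype.piFinset fun _ : Fin m => Finset.Icc (-(N : ℤ)) N := by
    intro u hu
    rw [Fintype.mem_piFinset]
    intro i
    have h1 : |x u i| ≤ R := by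
      have := PiLp.norm_apply_le (x u) i
      rw [Real.norm_eq_abs] at this
      exact this.trans (hR u hu)
    have h2 : R / h ≤ N := Nat.le_ceil _
    have h3 : |x u i / h| ≤ N := by
      rw [abs_div, abs_of_pos hpos]
      exact (div_le_div_of_nonneg_right h1 hpos.le).trans h2
    rw [abs_le] at h3
    rw [Finset.mem_Icc]
    constructor
    · rw [Int.le_floor]; push_cast; exact h3.1
    · have := Int.floor_le (x u i / h)
      have h4 : ((⌊x u i / h⌋ : ℤ) : ℝ) ≤ ((N : ℤ) : ℝ) := by push_cast; linarith [h3.2]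
      exact_mod_cast h4
  have hinj : Set.InjOn (fun u => fun i => ⌊x u i / h⌋) Ω := by
    intro u hu u' hu' e
    by_contra hne
    have h1 := hsep u hu u' hu' hne
    have h2 : ∀ i, |x u i - x u' i| ≤ h := by
      intro i
      have e1 : ⌊x u i / h⌋ = ⌊x u' i / h⌋ := congrFun e i
      have := Int.abs_sub_lt_one_of_floor_eq_floor e1
      rw [← sub_div, abs_div, abs_of_pos hpos, div_lt_one hpos] at this
      exact this.le
    have h3 : ‖x u - x u'‖ < δ := by
      rw [EuclideanSpace.norm_eq, Real.sqrt_lt' hδ]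
      calc ∑ i, ‖(x u - x u') i‖ ^ 2 ≤ ∑ _i : Fin m, h ^ 2 := by
            refine Finset.sum_le_sum fun i _ => ?_
            have : ‖(x u - x u') i‖ ≤ h := by simpa [Real.norm_eq_abs] using h2 i
            exact pow_le_pow_left₀ (norm_nonneg _) this 2
        _ = m * h ^ 2 := by simp
        _ < ((m + 1) * h) ^ 2 := by
            have : (0 : ℝ) ≤ m := Nat.cast_nonneg _
            have h5 : 0 < h ^ 2 := by positivity
            nlinarith [mul_nonneg (mul_nonneg this this) h5.le, mul_nonneg this h5.le]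
        _ = δ ^ 2 := by rw [hh]; field_simp
    linarith
  have hc := Finset.card_le_card_of_injOn _ hmaps hinj
  rw [Fintype.card_piFinset] at hc
  simp only [Int.card_Icc, Finset.prod_const, Finset.card_univ, Fintype.card_fin] at hc
  have h6 : ((N : ℤ) + 1 - -(N : ℤ)).toNat = 2 * N + 1 := by omega
  rw [h6] at hc
  have h7 : (N : ℝ) ≤ R / h + 1 := (Nat.ceil_lt_add_one (by positivity)).le
  have h8 : R / h = R * (m + 1) / δ := by rw [hh]; field_simp
  calc (Ω.card : ℝ) ≤ ((2 * N + 1 : ℕ) : ℝ) ^ m := by exact_mod_cast hc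
    _ ≤ _ := by
        refine pow_le_pow_left₀ (by positivity) ?_ m
        push_cast; rw [← h8]; linarith

lemma pack {d : ℕ} (j : ℕ) {σ : Type} (Ω : Finset σ) (β : σ → E d) (δ R : ℝ)
    (hδ : 0 < δ) (hδ1 : δ ≤ 1) (hR : ∀ u ∈ Ω, ‖β u‖ ≤ R) (hR0 : 0 ≤ R)
    (hsep : ∀ u ∈ Ω, ∀ u' ∈ Ω, u ≠ u' → δ ≤ ‖β u - β u'‖)
    (S : Submodule ℝ (E d)) (hS : Module.finrank ℝ S ≤ j)
    (hnear : ∀ u ∈ Ω, ∃ s ∈ S, ‖β u - s‖ ≤ δ / 4) :
    (Ω.card : ℝ) ≤ (4 * (R + 1) * (j + 1) + 3) ^ j * (1 / δ) ^ j := by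
  classical
  choose! s hs hs' using hnear
  let bs := stdOrthonormalBasis ℝ S
  let y : σ → S := fun u => if h : u ∈ Ω then ⟨s u, hs u h⟩ else 0
  have hy : ∀ u ∈ Ω, (y u : E d) = s u := fun u hu => by simp [y, hu]
  have h := pack_euc (Module.finrank ℝ S) Ω (fun u => bs.repr (y u)) (δ / 2) (R + 1)
    (by positivity) (fun u hu => by
      rw [LinearIsometryEquiv.norm_map, ← Submodule.norm_coe, hy u hu]
      have h1 := hs' u hu
      have h2 := hR u hu
      have h3 : ‖s u‖ ≤ ‖β u‖ + ‖β u - s u‖ := by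
        have := norm_sub_le (β u) (β u - s u)
        simpa using this
      linarith) (by linarith) (fun u hu u' hu' hne => by
      rw [← map_sub, LinearIsometryEquiv.norm_map, ← Submodule.norm_coe, Submodule.coe_sub,
        hy u hu, hy u' hu']
      have h1 := hs' u hu
      have h2 := hs' u' hu'
      have h3 := hsep u hu u' hu' hne
      have h4 : β u - β u' = (s u - s u') + (β u - s u) - (β u' - s u') := by abel
      have h5 : ‖β u - β u'‖ ≤ ‖s u - s u'‖ + ‖β u - s u‖ + ‖β u' - s u'‖ := by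
        rw [h4]
        exact (norm_sub_le _ _).trans (add_le_add (norm_add_le _ _) le_rfl)
      linarith)
  have hm : ((Module.finrank ℝ S : ℕ) : ℝ) ≤ j := by exact_mod_cast hS
  have hb : 2 * ((R + 1) * ((Module.finrank ℝ S : ℕ) + 1) / (δ / 2)) + 3 ≤
      (4 * (R + 1) * (j + 1) + 3) * (1 / δ) := by
    have e : 2 * ((R + 1) * ((Module.finrank ℝ S : ℕ) + 1) / (δ / 2)) =
        4 * (R + 1) * ((Module.finrank ℝ S : ℕ) + 1) * (1 / δ) := by field_simp; ring
    have h1 : 1 ≤ 1 / δ := by rw [le_div_iff₀ hδ]; linarith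
    have h2 : 4 * (R + 1) * ((Module.finrank ℝ S : ℕ) + 1) * (1 / δ) ≤
        4 * (R + 1) * (j + 1) * (1 / δ) := by gcongr
    rw [e]; nlinarith
  have h1 : (1 : ℝ) ≤ 2 * ((R + 1) * ((Module.finrank ℝ S : ℕ) + 1) / (δ / 2)) + 3 := by
    have : 0 ≤ 2 * ((R + 1) * ((Module.finrank ℝ S : ℕ) + 1) / (δ / 2)) := by positivity
    linarith
  rw [← mul_pow]
  exact h.trans ((pow_le_pow_right₀ h1 hS).trans (pow_le_pow_left₀ (by linarith) hb j))

end Pool.Agent.H859Z.KakBad
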