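import Mathlib

set_option autoImplicit false

namespace Pool.Agent.H859Z.Nm

open Set Filter Topology

noncomputable section

def sg (s : Bool) : ℝ := if s then 1 else -1

def fq (c x : ℝ) : ℝ := x ^ 2 + c

/-- Composite inverse branch along a sign word. -/
def G (c : ℝ) : List Bool → ℝ → ℝ
  | [], y => y
  | s :: w, y => sg s * √(G c w y - c)

/-- Two-point expansion along a word. -/
def Tp (c : ℝ) : List Bool → ℝ → ℝ → ℝ
  | [], _, _ => 1
  | _ :: w, y, y' => (√(G c w y - c) + √(G c w y' - c)) * Tp c w y y'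

def sig : List Bool → ℝ
  | [] => 1
  | s :: w => sg s * sig w

theorem sg_sq (s : Bool) : sg s * sg s = 1 := by cases s <;> simp [sg]

theorem abs_sg (s : Bool) : |sg s| = 1 := by cases s <;> simp [sg]

theorem sig_sq : ∀ w, sig w * sig w = 1
  | [] => by simp [sig]
  | s :: w => by
    have h1 := sg_sq s
    have h2 := sig_sq w
    simp only [sig]
    calc sg s * sig w * (sg s * sig w) = (sg s * sg s) * (sig w * sig w) := by ring
      _ = 1 := by rw [h1, h2, one_mul]

theorem sig_cases (w : List Bool) : sig w = 1 ∨ sig w = -1 := mul_self_eq_one_iff.mp (sig_sq w)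

theorem abs_sig (w : List Bool) : |sig w| = 1 := by
  rcases sig_cases w with h | h <;> simp [h]

theorem sig_append : ∀ v w, sig (v ++ w) = sig v * sig w
  | [], w => by simp [sig]
  | s :: v, w => by simp [sig, sig_append v w, mul_assoc]

theorem G_append (c : ℝ) : ∀ (v w : List Bool) (y : ℝ), G c (v ++ w) y = G c v (G c w y)
  | [], _, _ => rfl
  | s :: v, w, y => by simp [G, G_append c v w y]

theorem Tp_append (c : ℝ) : ∀ (v w : List Bool) (y y' : ℝ),
    Tp c (v ++ w) y y' = Tp c v (G c w y) (G c w y') * Tp c w y y'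
  | [], _, _, _ => by simp [Tp]
  | s :: v, w, y, y' => by simp [Tp, G_append, Tp_append c v w y y', mul_assoc]

theorem Tp_nonneg (c : ℝ) : ∀ (w : List Bool) (y y' : ℝ), 0 ≤ Tp c w y y'
  | [], _, _ => zero_le_one
  | _ :: w, y, y' => mul_nonneg (by positivity) (Tp_nonneg c w y y')

theorem Tp_sq (c : ℝ) : ∀ (w : List Bool) (y y' : ℝ), Tp c w y y * Tp c w y' y' ≤ Tp c w y y' ^ 2
  | [], _, _ => by simp [Tp]
  | _ :: w, y, y' => by
    have h := Tp_sq c w y y'
    have h1 := Tp_nonneg c w y y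
    have h2 := Tp_nonneg c w y' y'
    simp only [Tp]
    generalize √(G c w y - c) = a
    generalize √(G c w y' - c) = b
    have h3 : (a + a) * (b + b) ≤ (a + b) ^ 2 := by nlinarith [sq_nonneg (a - b)]
    calc (a + a) * Tp c w y y * ((b + b) * Tp c w y' y')
        = ((a + a) * (b + b)) * (Tp c w y y * Tp c w y' y') := by ring
      _ ≤ (a + b) ^ 2 * (Tp c w y y * Tp c w y' y') :=
        mul_le_mul_of_nonneg_right h3 (mul_nonneg h1 h2)
      _ ≤ (a + b) ^ 2 * Tp c w y y' ^ 2 := mul_le_mul_of_nonneg_left h (sq_nonneg _)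
      _ = _ := by ring

theorem Tp_ge {c m : ℝ} {w : List Bool} {y y' : ℝ} (hm : 0 ≤ m) (h : m ≤ Tp c w y y)
    (h' : m ≤ Tp c w y' y') : m ≤ Tp c w y y' := by
  have h1 := Tp_sq c w y y'
  have h2 : m * m ≤ Tp c w y y * Tp c w y' y' := mul_le_mul h h' hm (hm.trans h)
  exact le_of_sq_le_sq (by nlinarith) (Tp_nonneg _ _ _ _)

theorem Tp_pos {c : ℝ} {w : List Bool} {y y' : ℝ} (h : 0 < Tp c w y y)
    (h' : 0 < Tp c w y' y') : 0 < Tp c w y y' :=
  lt_of_lt_of_le (lt_min h h') (Tp_ge (lt_min h h').le (min_le_left _ _) (min_le_right _ _))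

theorem adm_cons {c : ℝ} {s : Bool} {w : List Bool} {y : ℝ} (h : 0 < Tp c (s :: w) y y) :
    c < G c w y ∧ 0 < Tp c w y y := by
  simp only [Tp] at h
  rcases pos_and_pos_or_neg_and_neg_of_mul_pos h with ⟨h1, h2⟩ | ⟨-, h2⟩
  · refine ⟨?_, h2⟩
    have : 0 < √(G c w y - c) := by linarith
    linarith [Real.sqrt_pos.mp this]
  · exact absurd h2 (not_lt.mpr (Tp_nonneg _ _ _ _))

theorem adm_append {c : ℝ} {v w : List Bool} {y : ℝ} (h : 0 < Tp c (v ++ w) y y) :
    0 < Tp c v (G c w y) (G c w y) ∧ 0 < Tp c w y y := by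
  rw [Tp_append] at h
  rcases pos_and_pos_or_neg_and_neg_of_mul_pos h with h | ⟨-, h2⟩
  · exact h
  · exact absurd h2 (not_lt.mpr (Tp_nonneg _ _ _ _))

theorem G_sub {c : ℝ} : ∀ {w : List Bool} {y y' : ℝ}, 0 < Tp c w y y → 0 < Tp c w y' y' →
    (G c w y - G c w y') * Tp c w y y' = sig w * (y - y')
  | [], _, _, _, _ => by simp [G, Tp, sig]
  | s :: w, y, y', h, h' => by
    obtain ⟨h1, h2⟩ := adm_cons h
    obtain ⟨h1', h2'⟩ := adm_cons h'
    have ih := G_sub h2 h2'
    have e1 := Real.mul_self_sqrt (sub_nonneg.mpr h1.le)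
    have e2 := Real.mul_self_sqrt (sub_nonneg.mpr h1'.le)
    simp only [G, Tp, sig]
    rw [mul_assoc (sg s), ← ih]
    have : G c w y - G c w y' = √(G c w y - c) * √(G c w y - c) -
      √(G c w y' - c) * √(G c w y' - c) := by rw [e1, e2]; ring
    rw [this]; ring

theorem abs_G_sub {c : ℝ} {w : List Bool} {y y' : ℝ} (h : 0 < Tp c w y y) (h' : 0 < Tp c w y' y') :
    |G c w y - G c w y'| * Tp c w y y' = |y - y'| := by
  have := congrArg abs (G_sub h h')
  rwa [abs_mul, abs_mul, abs_sig, one_mul, abs_of_nonneg (Tp_nonneg _ _ _ _)] at this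

theorem fq_G {c : ℝ} {s : Bool} {w : List Bool} {y : ℝ} (h : 0 < Tp c (s :: w) y y) :
    fq c (G c (s :: w) y) = G c w y := by
  obtain ⟨h1, -⟩ := adm_cons h
  have e1 := Real.mul_self_sqrt (sub_nonneg.mpr h1.le)
  have e2 := sg_sq s
  simp only [fq, G]
  calc (sg s * √(G c w y - c)) ^ 2 + c
      = (sg s * sg s) * (√(G c w y - c) * √(G c w y - c)) + c := by ring
    _ = _ := by rw [e1, e2]; ring

theorem iter_G {c : ℝ} : ∀ {v w : List Bool} {y : ℝ}, 0 < Tp c (v ++ w) y y →
    (fq c)^[v.length] (G c (v ++ w) y) = G c w y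
  | [], _, _, _ => rfl
  | s :: v, w, y, h => by
    rw [List.length_cons, Function.iterate_succ_apply, List.cons_append, fq_G (w := v ++ w) h]
    exact iter_G (adm_cons h).2

theorem iter_G' {c : ℝ} {v : List Bool} {y : ℝ} (h : 0 < Tp c v y y) :
    (fq c)^[v.length] (G c v y) = y := by
  have := iter_G (c := c) (v := v) (w := []) (y := y) (by simpa using h)
  simpa [G] using this

theorem Tp_eq_prod {c : ℝ} : ∀ {w : List Bool} {y : ℝ}, 0 < Tp c w y y →
    Tp c w y y = ∏ i ∈ Finset.range w.length, (2 * |(fq c)^[i] (G c w y)|)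
  | [], _, _ => by simp [Tp]
  | s :: w, y, h => by
    rw [List.length_cons, Finset.prod_range_succ']
    simp only [Function.iterate_succ_apply, fq_G h, Function.iterate_zero_apply]
    rw [← Tp_eq_prod (adm_cons h).2]
    simp only [Tp, G, abs_mul, abs_sg, abs_of_nonneg (Real.sqrt_nonneg _)]
    ring

theorem continuous_G {X : Type*} [TopologicalSpace X] {c y : X → ℝ} (hc : Continuous c)
    (hy : Continuous y) : ∀ w : List Bool, Continuous fun x => G (c x) w (y x)
  | [] => hy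
  | s :: w => by
    have := continuous_G hc hy w
    simp only [G]
    fun_prop

theorem continuous_Tp {X : Type*} [TopologicalSpace X] {c y y' : X → ℝ} (hc : Continuous c)
    (hy : Continuous y) (hy' : Continuous y') :
    ∀ w : List Bool, Continuous fun x => Tp (c x) w (y x) (y' x)
  | [] => continuous_const
  | s :: w => by
    have h1 := continuous_G hc hy w
    have h2 := continuous_G hc hy' w
    have h3 := continuous_Tp hc hy hy' w
    simp only [Tp]
    fun_prop

theorem abs_G_le {c : ℝ} (hc : -2 ≤ c) : ∀ (w : List Bool) {y : ℝ}, |y| ≤ 2 → |G c w y| ≤ 2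
  | [], _, h => h
  | s :: w, y, h => by
    have h1 := abs_le.mp (abs_G_le hc w h)
    simp only [G, abs_mul, abs_sg, one_mul, abs_of_nonneg (Real.sqrt_nonneg _)]
    exact Real.sqrt_le_iff.mpr ⟨by norm_num, by linarith [h1.2]⟩

/-- The reference interval. -/
def W : Set ℝ := Icc (-(6 / 5)) (6 / 5)

theorem W_compact : IsCompact W := isCompact_Icc

theorem zero_mem_W : (0 : ℝ) ∈ W := ⟨by norm_num, by norm_num⟩

theorem W_abs {y : ℝ} (h : y ∈ W) : |y| ≤ 2 := abs_le.mpr ⟨by linarith [h.1], by linarith [h.2]⟩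

theorem W_dist {y y' : ℝ} (h : y ∈ W) (h' : y' ∈ W) : |y - y'| ≤ 3 :=
  abs_le.mpr ⟨by linarith [h.1, h'.2], by linarith [h.2, h'.1]⟩

/-- Full branch with expansion at least `m`. -/
def Fl (c : ℝ) (w : List Bool) (m : ℝ) : Prop := ∀ y ∈ W, G c w y ∈ W ∧ m ≤ Tp c w y y

theorem Fl.mono {c m m' : ℝ} {w : List Bool} (h : Fl c w m) (hm : m' ≤ m) : Fl c w m' :=
  fun y hy => ⟨(h y hy).1, hm.trans (h y hy).2⟩

theorem Fl_nil (c : ℝ) : Fl c [] 1 := fun _ hy => ⟨hy, le_rfl⟩

theorem Fl.append {c m m' : ℝ} {v w : List Bool} (h : Fl c v m) (h' : Fl c w m') (hm : 0 ≤ m)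
    (hm' : 0 ≤ m') : Fl c (v ++ w) (m * m') := by
  intro y hy
  obtain ⟨h1, h2⟩ := h' y hy
  obtain ⟨h3, h4⟩ := h _ h1
  rw [G_append, Tp_append]
  exact ⟨h3, mul_le_mul h4 h2 hm' (hm.trans h4)⟩

theorem Fl.append1 {c : ℝ} {v w : List Bool} (h : Fl c v 1) (h' : Fl c w 1) : Fl c (v ++ w) 1 := by
  simpa using h.append h' zero_le_one zero_le_one

theorem Fl.lip {c m : ℝ} {w : List Bool} (h : Fl c w m) (hm : 0 < m) {y y' : ℝ} (hy : y ∈ W)
    (hy' : y' ∈ W) : |G c w y - G c w y'| * m ≤ |y - y'| := by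
  rw [← abs_G_sub (hm.trans_le (h y hy).2) (hm.trans_le (h y' hy').2)]
  exact mul_le_mul_of_nonneg_left (Tp_ge hm.le (h y hy).2 (h y' hy').2) (abs_nonneg _)

def rep (w : List Bool) : ℕ → List Bool
  | 0 => []
  | k + 1 => w ++ rep w k

theorem rep_add (w : List Bool) (j : ℕ) : ∀ k, rep w (k + j) = rep w k ++ rep w j
  | 0 => by simp [rep]
  | k + 1 => by rw [Nat.add_right_comm, rep, rep_add w j k, rep, List.append_assoc]

theorem rep_length (w : List Bool) : ∀ k, (rep w k).length = k * w.length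
  | 0 => by simp [rep]
  | k + 1 => by rw [rep, List.length_append, rep_length w k]; ring

theorem sig_rep_even (w : List Bool) : ∀ k, sig (rep w (2 * k)) = 1
  | 0 => rfl
  | k + 1 => by
    have : 2 * (k + 1) = 2 * k + 1 + 1 := by ring
    rw [this, rep, rep, sig_append, sig_append, sig_rep_even w k, mul_one, sig_sq]

theorem Fl.rep {c m : ℝ} {w : List Bool} (h : Fl c w m) (hm : 0 ≤ m) :
    ∀ k, Fl c (rep w k) (m ^ k)
  | 0 => by simpa [Nm.rep] using Fl_nil c
  | k + 1 => by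
    rw [pow_succ']
    exact h.append (h.rep hm k) hm (pow_nonneg hm k)

theorem G_rep_fix {c : ℝ} {w : List Bool} {y : ℝ} (h : G c w y = y) : ∀ k, G c (rep w k) y = y
  | 0 => rfl
  | k + 1 => by rw [rep, G_append, G_rep_fix h k, h]

open Classical in
/-- The periodic point of a full branch. -/
def q (c : ℝ) (w : List Bool) : ℝ := if h : ∃ y ∈ W, G c w y = y then h.choose else 0

theorem Fl.q_spec {c m : ℝ} {w : List Bool} (h : Fl c w m) : q c w ∈ W ∧ G c w (q c w) = q c w := by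
  have h1 : ∃ y ∈ W, G c w y = y := by
    have hc : Continuous fun y => G c w y := continuous_G continuous_const continuous_id w
    exact exists_mem_Icc_isFixedPt_of_mapsTo hc.continuousOn (by norm_num) (fun y hy => (h y hy).1)
  rw [q, dif_pos h1]
  exact h1.choose_spec

theorem Fl.rep_close {c : ℝ} {w : List Bool} (h : Fl c w 2) (k : ℕ) {y : ℝ} (hy : y ∈ W) :
    |G c (Nm.rep w k) y - q c w| ≤ 3 / 2 ^ k := by
  have h1 := (h.rep zero_le_two k).lip (by positivity) hy h.q_spec.1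
  rw [G_rep_fix h.q_spec.2] at h1
  rw [le_div_iff₀ (by positivity)]
  exact h1.trans (W_dist hy h.q_spec.1)

theorem continuousOn_q {V : Set ℝ} {w : List Bool} (h : ∀ c ∈ V, Fl c w 2) :
    ContinuousOn (fun c => q c w) V := by
  intro c hc
  have h1 : Continuous fun c' => 2 * |G c' w (q c w) - q c w| := by
    have := continuous_G (c := fun c' : ℝ => c') (y := fun _ => q c w) continuous_id
      continuous_const w
    fun_prop
  have h2 : Tendsto (fun c' => 2 * |G c' w (q c w) - q c w|) (𝓝[V] c) (𝓝 0) := by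
    have := (h1.tendsto c).mono_left (nhdsWithin_le_nhds (s := V))
    simpa [(h c hc).q_spec.2] using this
  rw [ContinuousWithinAt, tendsto_iff_norm_sub_tendsto_zero]
  refine squeeze_zero' (Eventually.of_forall fun _ => norm_nonneg _) ?_ h2
  filter_upwards [self_mem_nhdsWithin] with c' hc'
  have h3 := (h c' hc').lip two_pos (h c' hc').q_spec.1 (h c hc).q_spec.1
  rw [(h c' hc').q_spec.2] at h3
  have h4 := abs_sub_le (q c' w) (G c' w (q c w)) (q c w)
  rw [Real.norm_eq_abs]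
  linarith

/-! ### The two basic branches -/

theorem basic {c : ℝ} (hc : c ∈ Icc (-2 : ℝ) (-(19 / 10))) (s : Bool) {y : ℝ} (hy : y ∈ W) :
    3 / 10 ≤ sg s * G c [s, false] y ∧ sg s * G c [s, false] y ≤ 6 / 5 ∧
      2 ≤ Tp c [s, false] y y := by
  obtain ⟨hc1, hc2⟩ := hc
  obtain ⟨hy1, hy2⟩ := hy
  have h1 : 83 / 100 ≤ √(y - c) := Real.le_sqrt_of_sq_le (by linarith)
  have h2 : √(y - c) ≤ 179 / 100 := Real.sqrt_le_iff.mpr ⟨by norm_num, by linarith⟩
  have e : sg false = -1 := rfl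
  simp only [G, Tp, e, ← mul_assoc, sg_sq, one_mul, mul_one]
  generalize √(y - c) = r at h1 h2
  have h3 : 3 / 10 ≤ √(-1 * r - c) := Real.le_sqrt_of_sq_le (by linarith)
  have h4 : √(-1 * r - c) ≤ 6 / 5 := Real.sqrt_le_iff.mpr ⟨by norm_num, by linarith⟩
  refine ⟨h3, h4, ?_⟩
  have h5 : 1 / (2 * r) ≤ √(-1 * r - c) := by
    apply Real.le_sqrt_of_sq_le
    rw [div_pow, div_le_iff₀ (by positivity)]
    nlinarith [mul_nonneg (sub_nonneg.mpr h1) (sub_nonneg.mpr h2), mul_nonneg (mul_nonneg (sub_nonneg.mpr h1) (sub_nonneg.mpr h2)) (sub_nonneg.mpr h1), sq_nonneg r]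
  rw [div_le_iff₀ (by positivity)] at h5
  nlinarith

theorem Fl_basic {c : ℝ} (hc : c ∈ Icc (-2 : ℝ) (-(19 / 10))) (s : Bool) : Fl c [s, false] 2 := by
  intro y hy
  obtain ⟨h1, h2, h3⟩ := basic hc s hy
  refine ⟨?_, h3⟩
  cases s <;> simp only [sg, if_true, Bool.false_eq_true, if_false] at h1 h2 <;>
    constructor <;> linarith

/-- Horseshoe words. -/
def Hs : List Bool → List Bool
  | [] => []
  | s :: v => [s, false] ++ Hs v

theorem Hs_length : ∀ v, (Hs v).length = 2 * v.length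
  | [] => rfl
  | s :: v => by simp [Hs, Hs_length v]; ring

theorem Hs_append : ∀ v v', Hs (v ++ v') = Hs v ++ Hs v'
  | [], _ => rfl
  | s :: v, v' => by simp [Hs, Hs_append v v']

theorem Fl_Hs {c : ℝ} (hc : c ∈ Icc (-2 : ℝ) (-(19 / 10))) : ∀ v, Fl c (Hs v) (2 ^ v.length)
  | [] => by simpa [Hs] using Fl_nil c
  | s :: v => by
    rw [List.length_cons, pow_succ']
    exact (Fl_basic hc s).append (Fl_Hs hc v) zero_le_two (by positivity)

theorem Fl_Hs1 {c : ℝ} (hc : c ∈ Icc (-2 : ℝ) (-(19 / 10))) (v : List Bool) : Fl c (Hs v) 1 :=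
  (Fl_Hs hc v).mono (one_le_pow₀ one_le_two)

end

end Pool.Agent.H859Z.Nm
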