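import Pool.Agent.H859Z.NmA

set_option autoImplicit false

namespace Pool.Agent.H859Z.Nm

open Set Filter Topology

noncomputable section

theorem Tp_le {c : ℝ} (hc : -2 ≤ c) : ∀ (w : List Bool) {y y' : ℝ}, |y| ≤ 2 → |y'| ≤ 2 →
    Tp c w y y' ≤ 4 ^ w.length
  | [], _, _, _, _ => by simp [Tp]
  | s :: w, y, y', h, h' => by
    have h1 := abs_le.mp (abs_G_le hc w h)
    have h2 := abs_le.mp (abs_G_le hc w h')
    have h3 : √(G c w y - c) ≤ 2 := Real.sqrt_le_iff.mpr ⟨by norm_num, by linarith [h1.2]⟩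
    have h4 : √(G c w y' - c) ≤ 2 := Real.sqrt_le_iff.mpr ⟨by norm_num, by linarith [h2.2]⟩
    rw [Tp, List.length_cons, pow_succ']
    exact mul_le_mul (by linarith) (Tp_le hc w h h') (Tp_nonneg _ _ _ _) (by norm_num)

theorem asympt {c : ℝ} (hc : -2 ≤ c) {w : List Bool} (h : Fl c w 2) :
    ∃ (j : ℕ) (C : ℝ), 0 < C ∧ ∀ k, j ≤ k → ∀ y ∈ W, ∀ y' ∈ W,
      (Tp c w (q c w) (q c w) / (11 / 10)) ^ k ≤ C * Tp c (rep w k) y y' ∧
      Tp c (rep w k) y y' ≤ C * (Tp c w (q c w) (q c w) * (11 / 10)) ^ k := by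
  set l := Tp c w (q c w) (q c w) with hl
  have hl2 : 2 ≤ l := (h _ h.q_spec.1).2
  have hcont : Continuous fun p : ℝ × ℝ => Tp c w p.1 p.2 :=
    continuous_Tp continuous_const continuous_fst continuous_snd w
  have hev : ∀ᶠ p : ℝ × ℝ in 𝓝 (q c w, q c w), l / (11 / 10) < Tp c w p.1 p.2 ∧
      Tp c w p.1 p.2 < l * (11 / 10) :=
    (hcont.continuousAt.eventually (lt_mem_nhds (by linarith))).and
      (hcont.continuousAt.eventually (gt_mem_nhds (by linarith)))
  obtain ⟨δ, hδ, hδ'⟩ := Metric.eventually_nhds_iff.mp hev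
  obtain ⟨j, hj⟩ := exists_pow_lt_of_lt_one (show 0 < δ / 3 by positivity)
    (show (1 / 2 : ℝ) < 1 by norm_num)
  refine ⟨j, max ((l / (11 / 10)) ^ j) (4 ^ (rep w j).length), lt_max_of_lt_right (by positivity),
    fun k hk y hy y' hy' => ?_⟩
  induction k, hk using Nat.le_induction with
  | base =>
    have h1 : 1 ≤ Tp c (rep w j) y y' :=
      Tp_ge zero_le_one ((one_le_pow₀ one_le_two).trans (h.rep zero_le_two j y hy).2)
        ((one_le_pow₀ one_le_two).trans (h.rep zero_le_two j y' hy').2)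
    have h2 : 1 ≤ (l * (11 / 10)) ^ j := one_le_pow₀ (by linarith)
    constructor
    · exact (le_max_left _ _).trans (le_mul_of_one_le_right (by positivity) h1)
    · exact ((Tp_le hc _ (W_abs hy) (W_abs hy')).trans (le_max_right _ _)).trans
        (le_mul_of_one_le_right (by positivity) h2)
  | succ k hk ih =>
    have h3 : (3 : ℝ) / 2 ^ k < δ := by
      have : (1 / 2 : ℝ) ^ k ≤ (1 / 2) ^ j := pow_le_pow_of_le_one (by norm_num) (by norm_num) hk
      rw [one_div_pow] at this
      rw [div_eq_mul_one_div]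
      linarith
    have h4 := hδ' (y := (G c (rep w k) y, G c (rep w k) y')) (by
      rw [Prod.dist_eq, max_lt_iff]
      exact ⟨(h.rep_close k hy).trans_lt h3, (h.rep_close k hy').trans_lt h3⟩)
    rw [rep, Tp_append, pow_succ', pow_succ']
    simp only at h4
    generalize Tp c w (G c (rep w k) y) (G c (rep w k) y') = T at h4
    generalize max ((l / (11 / 10)) ^ j) (4 ^ (rep w j).length) = C at ih
    have h5 := Tp_nonneg c (rep w k) y y'
    constructor
    · calc l / (11 / 10) * (l / (11 / 10)) ^ k ≤ T * (C * Tp c (rep w k) y y') :=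
            mul_le_mul h4.1.le ih.1 (by positivity) (by linarith [h4.1])
        _ = _ := by ring
    · calc T * Tp c (rep w k) y y' ≤ l * (11 / 10) * (C * (l * (11 / 10)) ^ k) :=
            mul_le_mul h4.2.le ih.2 h5 (by positivity)
        _ = _ := by ring

/-- The estimates for the new word at a parameter where the critical value lands on the old
periodic orbit. -/
theorem new_word {a chi : ℝ} (ha : -2 ≤ a) {w u t : List Bool} (hw : Fl a w 2)
    (hup : Tp a w (q a w) (q a w) ≤ Real.exp (chi * w.length))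
    (hu : ∀ y ∈ W, 0 < Tp a u y y) (hmis : a = G a u (q a w)) (ht : Fl a t 1)
    (hside : ∀ y ∈ W, 0 < sig u * (G a t y - q a w)) :
    ∀ᶠ k in atTop, ∀ y ∈ W, 2 < Tp a (true :: (u ++ rep w (2 * k) ++ t)) y y ∧
      Tp a (true :: (u ++ rep w (2 * k) ++ t)) y y <
        Real.exp (3 / 4 * chi * (true :: (u ++ rep w (2 * k) ++ t)).length) ∧
      G a (true :: (u ++ rep w (2 * k) ++ t)) y < 3 / 10 := by
  obtain ⟨j, C, hC, hCk⟩ := asympt ha hw
  set l := Tp a w (q a w) (q a w) with hl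
  have hq := hw.q_spec
  have hl2 : 2 ≤ l := (hw _ hq.1).2
  obtain ⟨m, hm, hm'⟩ := W_compact.exists_forall_le'
    (continuous_Tp continuous_const continuous_id continuous_id u).continuousOn hu
  obtain ⟨κ, hκ, hκ'⟩ := W_compact.exists_forall_le'
    (f := fun y => sig u * (G a t y - q a w))
    (continuous_const.mul ((continuous_G continuous_const continuous_id t).sub
      continuous_const)).continuousOn hside
  set E := Real.exp (chi * w.length / 2) with hE
  have hE0 : 0 < E := Real.exp_pos _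
  have hE2 : l ≤ E ^ 2 := by
    rw [hE, ← Real.exp_nat_mul]
    convert hup using 2; push_cast; ring
  have hE3 : 7 / 5 ≤ E := le_of_sq_le_sq (by linarith) hE0.le
  have hchi : 0 ≤ chi := by
    by_contra hneg
    have : chi * w.length / 2 ≤ 0 := by
      have := mul_nonpos_of_nonpos_of_nonneg (not_le.mp hneg).le (Nat.cast_nonneg (α := ℝ) w.length)
      linarith
    have := Real.exp_le_one_iff.mpr this
    linarith
  set U : ℝ := 4 ^ u.length with hU
  set V : ℝ := 4 ^ t.length with hV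
  have hU0 : 0 < U := by positivity
  have hV0 : 0 < V := by positivity
  have e1 : ∀ᶠ k : ℕ in atTop, 4 * (C ^ 3 * U) / (4 * κ * m ^ 2) < (3 / 2 : ℝ) ^ k :=
    (tendsto_pow_atTop_atTop_of_one_lt (by norm_num)).eventually_gt_atTop _
  have e2 : ∀ᶠ k : ℕ in atTop, (1331 / 1400 : ℝ) ^ k < m / (12 * U ^ 2 * C ^ 3 * V ^ 2) :=
    (tendsto_pow_atTop_nhds_zero_of_lt_one (by norm_num) (by norm_num)).eventually
      (gt_mem_nhds (by positivity))
  have e3 : ∀ᶠ k : ℕ in atTop, 3 / (m * (9 / 100)) < (2 : ℝ) ^ k :=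
    (tendsto_pow_atTop_atTop_of_one_lt (by norm_num)).eventually_gt_atTop _
  have t2 : Tendsto (fun k : ℕ => 2 * k) atTop atTop :=
    tendsto_atTop_mono (fun k => by show k ≤ 2 * k; omega) tendsto_id
  filter_upwards [t2.eventually e1, t2.eventually e2, t2.eventually e3,
    t2.eventually (eventually_ge_atTop j)] with k0 h1 h2 h3 h4 y hy
  have hsig := sig_rep_even w k0
  generalize 2 * k0 = k at h1 h2 h3 h4 hsig ⊢
  obtain ⟨hY, hTt⟩ := ht y hy
  have hTt' : Tp a t y y ≤ V := Tp_le ha t (W_abs hy) (W_abs hy)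
  have hD := hκ' y hy
  have hD' : sig u * (G a t y - q a w) ≤ 3 := by
    refine (le_abs_self _).trans ?_
    rw [abs_mul, abs_sig, one_mul]; exact W_dist hY hq.1
  have hrep := hw.rep zero_le_two k
  have hbd : ∀ z ∈ W, ∀ z' ∈ W, m * (l / (11 / 10)) ^ k ≤ C * Tp a (u ++ rep w k) z z' ∧
      Tp a (u ++ rep w k) z z' ≤ U * (C * (l * (11 / 10)) ^ k) ∧
      m * 2 ^ k ≤ Tp a (u ++ rep w k) z z' := by
    intro z hz z' hz'
    obtain ⟨h5, h6⟩ := hCk k h4 z hz z' hz'
    have h7 : m ≤ Tp a u (G a (rep w k) z) (G a (rep w k) z') :=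
      Tp_ge hm.le (hm' _ (hrep z hz).1) (hm' _ (hrep z' hz').1)
    have h8 : Tp a u (G a (rep w k) z) (G a (rep w k) z') ≤ U :=
      Tp_le ha u (W_abs (hrep z hz).1) (W_abs (hrep z' hz').1)
    have h9 : 2 ^ k ≤ Tp a (rep w k) z z' := Tp_ge (by positivity) (hrep z hz).2 (hrep z' hz').2
    rw [Tp_append]
    refine ⟨?_, mul_le_mul h8 h6 (Tp_nonneg _ _ _ _) hU0.le,
      mul_le_mul h7 h9 (by positivity) (hm.le.trans h7)⟩
    calc m * (l / (11 / 10)) ^ k ≤ Tp a u (G a (rep w k) z) (G a (rep w k) z') *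
          (C * Tp a (rep w k) z z') := mul_le_mul h7 h5 (by positivity) (hm.le.trans h7)
      _ = _ := by ring
  obtain ⟨hA1, hA2, hA3⟩ := hbd _ hY _ hY
  obtain ⟨hB1, hB2, hB3⟩ := hbd _ hY _ hq.1
  obtain ⟨-, -, hQ3⟩ := hbd _ hq.1 _ hq.1
  have hm2 : 0 < m * 2 ^ k := by positivity
  have hZ := G_sub (hm2.trans_le hA3) (hm2.trans_le hQ3)
  rw [sig_append, hsig, mul_one, G_append a u (rep w k) (q a w), G_rep_fix hq.2, ← hmis] at hZ
  have hlen : E ^ (3 * k) ≤
      Real.exp (3 / 4 * chi * (true :: (u ++ rep w k ++ t)).length) ^ 2 := by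
    rw [hE, ← Real.exp_nat_mul, ← Real.exp_nat_mul, Real.exp_le_exp]
    have : (k : ℝ) * w.length ≤ (true :: (u ++ rep w k ++ t)).length := by
      simp only [List.length_cons, List.length_append, rep_length]
      push_cast
      have := Nat.cast_nonneg (α := ℝ) u.length
      have := Nat.cast_nonneg (α := ℝ) t.length
      linarith
    have := mul_le_mul_of_nonneg_left this hchi
    push_cast at this ⊢
    linarith only [this]
  have hexp := Real.exp_pos (3 / 4 * chi * (true :: (u ++ rep w k ++ t)).length)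
  generalize Real.exp (3 / 4 * chi * (true :: (u ++ rep w k ++ t)).length) = X at hlen hexp
  have e : sg true = 1 := rfl
  simp only [Tp, G, e, one_mul]
  rw [Tp_append a (u ++ rep w k) t, G_append a (u ++ rep w k) t]
  generalize Tp a (u ++ rep w k) (G a t y) (G a t y) = A at *
  generalize Tp a (u ++ rep w k) (G a t y) (q a w) = B at *
  generalize G a (u ++ rep w k) (G a t y) - a = Z at *
  generalize sig u * (G a t y - q a w) = D at *
  generalize Tp a t y y = T at *
  have hB0 : 0 < B := hm2.trans_le hB3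
  have hA0 : 0 < A := hm2.trans_le hA3
  have hZ0 : 0 < Z := by
    by_contra hneg
    have := mul_nonpos_of_nonpos_of_nonneg (not_lt.mp hneg) hB0.le
    linarith
  have hsq : ((√Z + √Z) * (A * T)) ^ 2 * B = 4 * D * (A * T) ^ 2 := by
    rw [← hZ]
    have := Real.mul_self_sqrt hZ0.le
    calc ((√Z + √Z) * (A * T)) ^ 2 * B = 4 * (√Z * √Z) * B * (A * T) ^ 2 := by ring
      _ = _ := by rw [this]; ring
  have hT0 : 0 ≤ (√Z + √Z) * (A * T) := by positivity
  generalize (√Z + √Z) * (A * T) = R at hsq hT0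
  have hlk : 0 < (l * (11 / 10)) ^ k := by positivity
  have hlk' : 0 < (l / (11 / 10)) ^ k := by positivity
  refine ⟨?_, ?_, ?_⟩
  · by_contra hneg
    have h5 : R ^ 2 ≤ 2 ^ 2 := pow_le_pow_left₀ hT0 (not_lt.mp hneg) 2
    have h6 : R ^ 2 * B ≤ 2 ^ 2 * (U * (C * (l * (11 / 10)) ^ k)) :=
      mul_le_mul h5 hB2 hB0.le (by norm_num)
    have h7 : (m * (l / (11 / 10)) ^ k) ^ 2 ≤ (C * (A * T)) ^ 2 := by
      refine pow_le_pow_left₀ (by positivity) (hA1.trans ?_) 2
      exact mul_le_mul_of_nonneg_left (le_mul_of_one_le_right hA0.le hTt) hC.le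
    have h8 : (3 / 2) ^ k * (l * (11 / 10)) ^ k ≤ ((l / (11 / 10)) ^ k) ^ 2 := by
      rw [← pow_mul, mul_comm k 2, pow_mul, ← mul_pow]
      refine pow_le_pow_left₀ (by positivity) ?_ k
      nlinarith only [hl2]
    rw [div_lt_iff₀ (by positivity)] at h1
    have h9 : 4 * κ * (m * (l / (11 / 10)) ^ k) ^ 2 ≤ 4 * D * (C * (A * T)) ^ 2 :=
      mul_le_mul (by linarith) h7 (by positivity) (by linarith)
    have h10 : 4 * D * (C * (A * T)) ^ 2 = C ^ 2 * (R ^ 2 * B) := by rw [hsq]; ring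
    have h11 : C ^ 2 * (R ^ 2 * B) ≤ C ^ 2 * (2 ^ 2 * (U * (C * (l * (11 / 10)) ^ k))) :=
      mul_le_mul_of_nonneg_left h6 (by positivity)
    have h12 : 4 * κ * m ^ 2 * ((3 / 2) ^ k * (l * (11 / 10)) ^ k) ≤
        4 * κ * m ^ 2 * ((l / (11 / 10)) ^ k) ^ 2 := mul_le_mul_of_nonneg_left h8 (by positivity)
    have h13 := mul_lt_mul_of_pos_right h1 hlk
    linarith only [h9, h10, h11, h12, h13]
  · by_contra hneg
    have h5 : E ^ (3 * k) ≤ R ^ 2 := hlen.trans (pow_le_pow_left₀ hexp.le (not_lt.mp hneg) 2)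
    have h6 : E ^ (3 * k) * (m * (l / (11 / 10)) ^ k) ≤ R ^ 2 * (C * B) :=
      mul_le_mul h5 hB1 (by positivity) (by positivity)
    have h7 : (A * T) ^ 2 ≤ (U * (C * (l * (11 / 10)) ^ k) * V) ^ 2 :=
      pow_le_pow_left₀ (by positivity) (mul_le_mul hA2 hTt' (by linarith) (by positivity)) 2
    have h8 : ((l * (11 / 10)) ^ k) ^ 2 ≤
        (1331 / 1400) ^ k * (E ^ (3 * k) * (l / (11 / 10)) ^ k) := by
      rw [← pow_mul, mul_comm k 2, pow_mul, pow_mul, ← mul_pow, ← mul_pow]
      refine pow_le_pow_left₀ (by positivity) ?_ k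
      have h9 : l * (7 / 5) ≤ E ^ 2 * E := mul_le_mul hE2 hE3 (by norm_num) (by positivity)
      have h10 := mul_le_mul_of_nonneg_right h9 (show 0 ≤ l by linarith)
      linarith only [h10]
    rw [lt_div_iff₀ (by positivity)] at h2
    have h9 : 4 * D * (A * T) ^ 2 ≤ 4 * 3 * (U * (C * (l * (11 / 10)) ^ k) * V) ^ 2 :=
      mul_le_mul (by linarith) h7 (by positivity) (by norm_num)
    have h10 : R ^ 2 * (C * B) = C * (4 * D * (A * T) ^ 2) := by rw [← hsq]; ring
    have h11 := mul_le_mul_of_nonneg_left h9 hC.le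
    have h12 := mul_le_mul_of_nonneg_left h8
      (show 0 ≤ 12 * U ^ 2 * C ^ 3 * V ^ 2 by positivity)
    have h13 := mul_lt_mul_of_pos_right h2
      (show 0 < E ^ (3 * k) * (l / (11 / 10)) ^ k by positivity)
    linarith only [h6, h10, h11, h12, h13]
  · rw [Real.sqrt_lt' (by norm_num)]
    rw [div_lt_iff₀ (by positivity)] at h3
    by_contra hneg
    have h5 := mul_le_mul (not_lt.mp hneg) hB3 hm2.le hZ0.le
    linarith only [h5, hZ, hD', h3]

/-- Only finitely many parameters satisfy a given critical relation. -/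
theorem finite_rel (r p : ℕ) (hp : 0 < p) :
    {c : ℝ | (fq c)^[r + p] c = (fq c)^[r] c}.Finite := by
  let P : ℕ → Polynomial ℝ := fun n => (fun Q => Q ^ 2 + Polynomial.X)^[n] Polynomial.X
  have hP : ∀ n, (P n).natDegree = 2 ^ n ∧ ∀ c, (P n).eval c = (fq c)^[n] c := by
    intro n
    induction n with
    | zero => simp [P]
    | succ n ih =>
      have e : P (n + 1) = P n ^ 2 + Polynomial.X := Function.iterate_succ_apply' _ _ _
      rw [e]
      constructor
      · have h1 : (P n ^ 2).natDegree = 2 ^ (n + 1) := by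
          rw [Polynomial.natDegree_pow, ih.1]; ring
        rw [Polynomial.natDegree_add_eq_left_of_natDegree_lt, h1]
        rw [h1, Polynomial.natDegree_X]
        exact Nat.one_lt_two_pow (by omega)
      · intro c
        rw [Function.iterate_succ_apply']
        simp [ih.2 c, fq]
  have hne : P (r + p) - P r ≠ 0 := by
    intro h
    have h1 := congrArg Polynomial.natDegree (sub_eq_zero.mp h)
    rw [(hP _).1, (hP _).1] at h1
    have := Nat.pow_right_injective le_rfl h1
    omega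
  refine (Polynomial.finite_setOfPred_isRoot hne).subset fun c hc => ?_
  simp only [mem_ofPred_eq, Polynomial.IsRoot, Polynomial.eval_sub, (hP _).2] at hc ⊢
  rw [hc, sub_self]

end

end Pool.Agent.H859Z.Nm
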