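import Pool.Agent.H859Z.NmB

set_option autoImplicit false

namespace Pool.Agent.H859Z.Nm

open Set Filter Topology

noncomputable section

structure Stage where
  lo : ℝ
  hi : ℝ
  a : ℝ
  chi : ℝ
  w : List Bool
  u : List Bool
  e : ℕ
  hlo : -2 ≤ lo
  hhi : hi ≤ -(19 / 10)
  hlt : lo < hi
  ha : a ∈ Icc lo hi
  hw : w.length = 2 ^ e
  hu : Odd u.length
  hfl : ∀ c ∈ Icc lo hi, Fl c w 2
  hup : ∀ c ∈ Icc lo hi, ∀ y ∈ W, Tp c w y y ≤ Real.exp (chi * w.length)
  hsep : ∀ c ∈ Icc lo hi, ∀ y ∈ W, ∀ z ∈ W,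
    G c (Hs [false]) y < G c w z ∧ G c w z < G c (Hs [true, false]) y
  hadm : ∀ c ∈ Icc lo hi, ∀ y ∈ W, 0 < Tp c u y y
  hmis : a = G a u (q a w)

theorem continuousOn_Gq {V : Set ℝ} {w : List Bool} (h : ∀ c ∈ V, Fl c w 2) (u : List Bool) :
    ContinuousOn (fun c => G c u (q c w)) V :=
  (continuous_G continuous_fst continuous_snd u).comp_continuousOn
    (continuousOn_id.prodMk (continuousOn_q h))

theorem Stage.sub (S : Stage) : Icc S.lo S.hi ⊆ Icc (-2 : ℝ) (-(19 / 10)) :=
  Icc_subset_Icc S.hlo S.hhi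

theorem Stage.side (S : Stage) {σ : ℝ} (hσ : σ = 1 ∨ σ = -1) :
    ∃ ρ : List Bool, ∀ c ∈ Icc S.lo S.hi, ∀ y ∈ W, 0 < σ * (G c (Hs ρ) y - q c S.w) := by
  rcases hσ with rfl | rfl
  · refine ⟨[true, false], fun c hc y hy => ?_⟩
    have h := (S.hfl c hc).q_spec
    have := (S.hsep c hc y hy _ h.1).2
    rw [h.2] at this
    linarith
  · refine ⟨[false], fun c hc y hy => ?_⟩
    have h := (S.hfl c hc).q_spec
    have := (S.hsep c hc y hy _ h.1).1
    rw [h.2] at this
    linarith

theorem L_neg {c : ℝ} (hc : c ∈ Icc (-2 : ℝ) (-(19 / 10))) {y : ℝ} (hy : y ∈ W) :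
    G c (Hs [false]) y ≤ -(3 / 10) := by
  have := (basic hc false hy).1
  simp only [sg, Bool.false_eq_true, if_false] at this
  show G c [false, false] y ≤ _
  linarith

theorem T_pos {c : ℝ} (hc : c ∈ Icc (-2 : ℝ) (-(19 / 10))) (v : List Bool) {y : ℝ} (hy : y ∈ W) :
    3 / 10 ≤ G c (Hs (true :: v)) y := by
  have := (basic hc true (Fl_Hs hc v y hy).1).1
  simp only [sg, if_true, one_mul] at this
  rw [Hs, G_append]
  exact this

def stage0 : Stage := by
  have hfl : ∀ c ∈ Icc (-2 : ℝ) (-(19 / 10)), Fl c (Hs [true, true]) 2 := fun c hc =>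
    (Fl_Hs hc _).mono (by norm_num)
  have hex : ∃ a ∈ Icc (-2 : ℝ) (-(19 / 10)),
      a - G a [false, true, true] (q a (Hs [true, true])) = 0 := by
    have hc : ContinuousOn (fun a => a - G a [false, true, true] (q a (Hs [true, true])))
        (Icc (-2 : ℝ) (-(19 / 10))) := by
      exact continuousOn_id.sub (continuousOn_Gq hfl _)
    refine intermediate_value_Icc (by norm_num) hc ⟨?_, ?_⟩
    · have h1 := (hfl (-2) ⟨by norm_num, by norm_num⟩).q_spec.1
      have := abs_le.mp (abs_G_le le_rfl [false, true, true] (W_abs h1))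
      linarith [this.1]
    · have h1 := (hfl (-(19 / 10)) ⟨by norm_num, by norm_num⟩).q_spec
      have h2 := T_pos (c := -(19 / 10)) ⟨by norm_num, by norm_num⟩ [true] h1.1
      rw [h1.2] at h2
      generalize q (-(19 / 10)) (Hs [true, true]) = x at h2
      simp only [G, sg, if_true, Bool.false_eq_true, if_false, one_mul]
      have h3 : 14 / 10 ≤ √(x - -(19 / 10)) := Real.le_sqrt_of_sq_le (by linarith)
      have h4 : 18 / 10 ≤ √(√(x - -(19 / 10)) - -(19 / 10)) := Real.le_sqrt_of_sq_le (by linarith)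
      have h5 : 19 / 10 ≤ √(√(√(x - -(19 / 10)) - -(19 / 10)) - -(19 / 10)) :=
        Real.le_sqrt_of_sq_le (by linarith)
      linarith
  exact
  { lo := -2
    hi := -(19 / 10)
    a := hex.choose
    chi := Real.log 4
    w := Hs [true, true]
    u := [false, true, true]
    e := 2
    hlo := le_rfl
    hhi := le_rfl
    hlt := by norm_num
    ha := hex.choose_spec.1
    hw := rfl
    hu := by decide
    hfl := hfl
    hup := fun c hc y hy => by
      rw [mul_comm, Real.exp_nat_mul, Real.exp_log (by norm_num)]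
      exact Tp_le hc.1 _ (W_abs hy) (W_abs hy)
    hsep := fun c hc y hy z hz => by
      have h1 := L_neg hc hy
      have h2 := T_pos hc [true] hz
      refine ⟨by linarith, ?_⟩
      have h3 := T_pos hc [] hz
      have h4 := (Fl_Hs hc [true] z hz).1
      have h5 := (Fl_Hs hc [false] y hy).1
      have h6 := G_sub (two_pos.trans_le (Fl_basic hc true _ h4).2)
        (two_pos.trans_le (Fl_basic hc true _ h5).2)
      have h7 := Tp_pos (two_pos.trans_le (Fl_basic hc true _ h4).2)
        (two_pos.trans_le (Fl_basic hc true _ h5).2)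
      have h8 : sig [true, false] = -1 := by simp [sig, sg]
      rw [h8] at h6
      rw [Hs, G_append, Hs.eq_2 true [false], G_append]
      by_contra hneg
      have := mul_nonneg (sub_nonneg.mpr (not_lt.mp hneg)) h7.le
      linarith
    hadm := fun c hc y hy => by
      have h1 : 0 < √(y - c) := Real.sqrt_pos.mpr (by linarith [hy.1, hc.2])
      have h2 : 0 < √(√(y - c) - c) := Real.sqrt_pos.mpr (by linarith [hc.2])
      have h3 : 0 < √(√(√(y - c) - c) - c) := Real.sqrt_pos.mpr (by linarith [hc.2])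
      simp only [Tp, G, sg, if_true, one_mul]
      positivity
    hmis := sub_eq_zero.mp hex.choose_spec.2 }

theorem Stage.step (S : Stage) (v : List Bool) (M : ℕ) :
    ∃ (S' : Stage) (k : ℕ) (ρ pad : List Bool), Icc S'.lo S'.hi ⊆ Icc S.lo S.hi ∧
      S'.chi = 3 / 4 * S.chi ∧
      S'.w = true :: (S.u ++ rep S.w k ++ Hs (ρ ++ v ++ pad)) ∧ M ≤ k ∧
      (1 + S.u.length + (Hs (ρ ++ v ++ pad)).length + M * S.w.length) * M ≤ S'.w.length := by
  obtain ⟨ρ, hρ⟩ := S.side (sig_cases S.u)
  obtain ⟨d, hd⟩ := S.hu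
  set L := d + 1 + ρ.length + v.length with hL
  set pad := List.replicate (2 ^ S.e * L - L) false with hpad
  set t := Hs (ρ ++ v ++ pad) with ht
  have hp : 0 < 2 ^ S.e := by positivity
  have htl : 1 + S.u.length + t.length = 2 * (2 ^ S.e * L) := by
    have : L ≤ 2 ^ S.e * L := Nat.le_mul_of_pos_left _ hp
    simp only [ht, Hs_length, List.length_append, hpad, List.length_replicate]
    omega
  have haI := S.sub S.ha
  have hside : ∀ y ∈ W, 0 < sig S.u * (G S.a t y - q S.a S.w) := by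
    intro y hy
    rw [ht, List.append_assoc, Hs_append, G_append]
    exact hρ _ S.ha _ (Fl_Hs haI _ y hy).1
  have hev := new_word haI.1 (S.hfl _ S.ha) (S.hup _ S.ha _ (S.hfl _ S.ha).q_spec.1)
    (S.hadm _ S.ha) S.hmis (Fl_Hs1 haI _) hside
  obtain ⟨k0, hk0⟩ := eventually_atTop.mp hev
  obtain ⟨j, hj⟩ : ∃ j : ℕ, L + (k0 + M + (1 + S.u.length + t.length + M * S.w.length) * M)
      < 2 ^ j := ⟨_, Nat.lt_two_pow_self⟩
  obtain ⟨κ, hκ⟩ : ∃ κ, 2 ^ j = L + κ := ⟨2 ^ j - L, by omega⟩
  have hk1 := hk0 κ (by omega)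
  set w' := true :: (S.u ++ rep S.w (2 * κ) ++ t) with hw'
  have hw'l : w'.length = 2 ^ (S.e + 1 + j) := by
    have : w'.length = (1 + S.u.length + t.length) + 2 * κ * 2 ^ S.e := by
      simp only [hw', List.length_cons, List.length_append, rep_length, S.hw]; ring
    rw [this, htl, pow_add, pow_add, hκ]; ring
  -- the conditions persist near the parameter
  have hnb : ∀ᶠ c in 𝓝 S.a, ∀ y ∈ W, 2 < Tp c w' y y ∧
      Tp c w' y y < Real.exp (3 / 4 * S.chi * w'.length) ∧ G c w' y < 3 / 10 := by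
    refine W_compact.eventually_forall_of_forall_eventually fun y hy => ?_
    have h1 : Continuous fun z : ℝ × ℝ => Tp z.1 w' z.2 z.2 :=
      continuous_Tp continuous_fst continuous_snd continuous_snd w'
    have h2 : Continuous fun z : ℝ × ℝ => G z.1 w' z.2 :=
      continuous_G continuous_fst continuous_snd w'
    obtain ⟨h3, h4, h5⟩ := hk1 y hy
    exact (h1.continuousAt.eventually (lt_mem_nhds h3)).and
      ((h1.continuousAt.eventually (gt_mem_nhds h4)).and
        (h2.continuousAt.eventually (gt_mem_nhds h5)))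
  obtain ⟨δ, hδ, hδ'⟩ := Metric.eventually_nhds_iff.mp hnb
  set lo' := max S.lo (S.a - δ / 2) with hlo'
  set hi' := min S.hi (S.a + δ / 2) with hhi'
  have hsub : Icc lo' hi' ⊆ Icc S.lo S.hi := Icc_subset_Icc (le_max_left _ _) (min_le_left _ _)
  have hlt : lo' < hi' := by
    have := S.ha.1
    have := S.ha.2
    have := S.hlt
    rw [max_lt_iff, lt_min_iff, lt_min_iff]
    refine ⟨⟨?_, ?_⟩, ?_, ?_⟩ <;> linarith
  have ha' : S.a ∈ Icc lo' hi' :=
    ⟨max_le S.ha.1 (by linarith), le_min S.ha.2 (by linarith)⟩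
  have hV : ∀ c ∈ Icc lo' hi', ∀ y ∈ W, 2 < Tp c w' y y ∧
      Tp c w' y y < Real.exp (3 / 4 * S.chi * w'.length) ∧ G c w' y < 3 / 10 := by
    intro c hc
    apply hδ'
    have h1 := (le_max_right _ _).trans hc.1
    have h2 := hc.2.trans (min_le_right _ _)
    rw [Real.dist_eq, abs_lt]
    constructor <;> linarith
  have hG0 : ∀ c y, 0 ≤ G c w' y := fun c y => by
    simp only [hw', G, sg, if_true, one_mul]; exact Real.sqrt_nonneg _
  have hfl' : ∀ c ∈ Icc lo' hi', Fl c w' 2 := fun c hc y hy =>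
    ⟨⟨by linarith [hG0 c y], by linarith [(hV c hc y hy).2.2]⟩, (hV c hc y hy).1.le⟩
  -- a parameter where the old relation fails
  obtain ⟨b, hb, hb'⟩ : ∃ b ∈ Icc lo' hi', b - G b S.u (q b S.w) ≠ 0 := by
    by_contra hall
    push Not at hall
    refine (Icc_infinite hlt) ((finite_rel S.u.length S.w.length (by rw [S.hw]; exact hp)).subset
      fun c hc => ?_)
    have h1 := (S.hfl c (hsub hc)).q_spec
    have h2 : (fq c)^[S.u.length] c = q c S.w := by
      conv_lhs => rw [sub_eq_zero.mp (hall c hc)]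
      conv_lhs => congr; rw [← sub_eq_zero.mp (hall c hc)]
      exact iter_G' (S.hadm c (hsub hc) _ h1.1)
    have h3 : (fq c)^[S.w.length] (q c S.w) = q c S.w := by
      conv_lhs => rw [← h1.2]
      exact iter_G' (two_pos.trans_le (S.hfl c (hsub hc) _ h1.1).2)
    show (fq c)^[S.u.length + S.w.length] c = (fq c)^[S.u.length] c
    rw [add_comm, Function.iterate_add_apply, h2, h3]
  obtain ⟨s, hs, hs'⟩ : ∃ s : ℝ, (s = 1 ∨ s = -1) ∧ 0 < s * (b - G b S.u (q b S.w)) := by
    rcases lt_or_gt_of_ne hb' with h | h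
    · exact ⟨-1, Or.inr rfl, by linarith⟩
    · exact ⟨1, Or.inl rfl, by linarith⟩
  obtain ⟨ρ', hρ'⟩ := S.side (σ := s * sig S.u) (by
    rcases hs with rfl | rfl <;> rcases sig_cases S.u with h | h <;> simp [h])
  have hY : ∀ c ∈ Icc lo' hi', G c (Hs ρ') (q c w') ∈ W := fun c hc =>
    (Fl_Hs (S.sub (hsub hc)) ρ' _ (hfl' c hc).q_spec.1).1
  obtain ⟨i, hi⟩ : ∃ i, 0 < s * (b - G b S.u (G b (rep S.w (2 * i)) (G b (Hs ρ') (q b w')))) := by
    have h1 : Tendsto (fun i => G b (rep S.w (2 * i)) (G b (Hs ρ') (q b w'))) atTop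
        (𝓝 (q b S.w)) := by
      rw [tendsto_iff_norm_sub_tendsto_zero]
      refine squeeze_zero (fun _ => norm_nonneg _)
        (fun i => (S.hfl b (hsub hb)).rep_close _ (hY b hb)) ?_
      have t2 : Tendsto (fun k : ℕ => 2 * k) atTop atTop :=
        tendsto_atTop_mono (fun k => by show k ≤ 2 * k; omega) tendsto_id
      exact tendsto_const_nhds.div_atTop
        ((tendsto_pow_atTop_atTop_of_one_lt one_lt_two).comp t2)
    have h2 : Continuous fun y => s * (b - G b S.u y) :=
      continuous_const.mul (continuous_const.sub (continuous_G continuous_const continuous_id _))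
    exact (((h2.tendsto _).comp h1).eventually (lt_mem_nhds hs')).exists
  have hadm1 : ∀ c ∈ Icc lo' hi', ∀ y ∈ W, 0 < Tp c (S.u ++ rep S.w (2 * i)) y y := by
    intro c hc y hy
    have := (S.hfl c (hsub hc)).rep zero_le_two (2 * i) y hy
    rw [Tp_append]
    exact mul_pos (S.hadm c (hsub hc) _ this.1) (lt_of_lt_of_le (by positivity) this.2)
  set u' := S.u ++ rep S.w (2 * i) ++ Hs ρ' with hu'
  have hneg : s * (S.a - G S.a u' (q S.a w')) ≤ 0 := by
    have h0 := (S.hfl _ S.ha).q_spec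
    have h1 := G_sub (hadm1 _ ha' _ (hY _ ha')) (hadm1 _ ha' _ h0.1)
    have h2 := Tp_pos (hadm1 _ ha' _ (hY _ ha')) (hadm1 _ ha' _ h0.1)
    rw [sig_append, sig_rep_even, mul_one, G_append S.a S.u _ (q S.a S.w), G_rep_fix h0.2,
      ← S.hmis] at h1
    have h3 := hρ' _ S.ha _ (hfl' _ ha').q_spec.1
    rw [mul_assoc, ← h1] at h3
    rw [hu', G_append]
    by_contra h4
    have := mul_pos (not_le.mp h4) h2
    linarith
  have hcont : ContinuousOn (fun c => s * (c - G c u' (q c w'))) (Icc lo' hi') := by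
    exact continuousOn_const.mul (continuousOn_id.sub (continuousOn_Gq hfl' _))
  obtain ⟨a', ha'', hz⟩ : ∃ a' ∈ Icc lo' hi', s * (a' - G a' u' (q a' w')) = 0 := by
    refine isPreconnected_Icc.intermediate_value ha' hb hcont ⟨hneg, ?_⟩
    simp only [hu', G_append]
    exact hi.le
  refine ⟨{ lo := lo'
            hi := hi'
            a := a'
            chi := 3 / 4 * S.chi
            w := w'
            u := u'
            e := S.e + 1 + j
            hlo := S.hlo.trans (le_max_left _ _)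
            hhi := (min_le_left _ _).trans S.hhi
            hlt := hlt
            ha := ha''
            hw := hw'l
            hu := ?_
            hfl := hfl'
            hup := fun c hc y hy => (hV c hc y hy).2.1.le
            hsep := fun c hc y hy z hz => ?_
            hadm := fun c hc y hy => ?_
            hmis := ?_ }, 2 * κ, ρ, pad, hsub, rfl, rfl, by omega, ?_⟩
  · refine ⟨d + i * S.w.length + ρ'.length, ?_⟩
    simp only [hu', List.length_append, rep_length, Hs_length, hd]; ring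
  · have h1 := L_neg (S.sub (hsub hc)) hy
    have h2 := T_pos (S.sub (hsub hc)) [false] hy
    have h3 := hG0 c z
    have h4 := (hV c hc z hz).2.2
    constructor <;> linarith
  · have := Fl_Hs1 (S.sub (hsub hc)) ρ' y hy
    rw [hu', Tp_append]
    exact mul_pos (hadm1 c hc _ this.1) (one_pos.trans_le this.2)
  · have hs0 : s ≠ 0 := by rcases hs with rfl | rfl <;> norm_num
    exact sub_eq_zero.mp ((mul_eq_zero.mp hz).resolve_left hs0)
  · show _ ≤ w'.length
    have h1 : 2 ^ j ≤ 2 ^ (S.e + 1 + j) := Nat.pow_le_pow_right two_pos (by omega)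
    rw [hw'l, ← ht]
    omega

/-- The nested construction. -/
theorem exists_words (v : ℕ → List Bool) :
    ∃ c ∈ Icc (-2 : ℝ) (-(19 / 10)), ∃ (w u ρ pad : ℕ → List Bool) (e k : ℕ → ℕ),
      ∀ n, (w n).length = 2 ^ e n ∧ Fl c (w n) 2 ∧
        (∀ y ∈ W, Tp c (w n) y y ≤ Real.exp ((3 / 4) ^ n * Real.log 4 * (w n).length)) ∧
        w (n + 1) = true :: (u n ++ rep (w n) (k n) ++ Hs (ρ n ++ v n ++ pad n)) ∧
        2 ^ (n + 2) * 16 ^ (w n).length ≤ k n ∧
        (1 + (u n).length + (Hs (ρ n ++ v n ++ pad n)).length +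
          2 ^ (n + 2) * 16 ^ (w n).length * (w n).length) * (2 ^ (n + 2) * 16 ^ (w n).length)
          ≤ (w (n + 1)).length := by
  choose nx k ρ pad h using fun (S : Stage) (n : ℕ) =>
    S.step (v n) (2 ^ (n + 2) * 16 ^ S.w.length)
  let S : ℕ → Stage := fun n => Nat.rec stage0 (fun n S => nx S n) n
  have hS : ∀ n, S (n + 1) = nx (S n) n := fun n => rfl
  obtain ⟨c, hc⟩ := IsCompact.nonempty_iInter_of_sequence_nonempty_isCompact_isClosed
    (fun n => Icc (S n).lo (S n).hi) (fun n => (h (S n) n).1)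
    (fun n => ⟨_, (S n).ha⟩) isCompact_Icc (fun n => isClosed_Icc)
  rw [mem_iInter] at hc
  have hchi : ∀ n, (S n).chi = (3 / 4) ^ n * Real.log 4 := by
    intro n
    induction n with
    | zero => rw [pow_zero, one_mul]; rfl
    | succ n ih => rw [hS, (h (S n) n).2.1, ih]; ring
  refine ⟨c, (S 0).sub (hc 0), fun n => (S n).w, fun n => (S n).u, fun n => ρ (S n) n,
    fun n => pad (S n) n, fun n => (S n).e, fun n => k (S n) n, fun n => ?_⟩
  refine ⟨(S n).hw, (S n).hfl c (hc n), ?_, (h (S n) n).2.2.1, (h (S n) n).2.2.2.1,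
    (h (S n) n).2.2.2.2⟩
  rw [← hchi]
  exact (S n).hup c (hc n)

end

end Pool.Agent.H859Z.Nm
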