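import Mathlib

set_option autoImplicit false

namespace Pool.Agent.H859Z.Nm

open Set Filter Topology MeasureTheory

/-- The dyadic odometer with its finite factors. -/
theorem exists_odometer : ∃ (Ω : Type) (_ : MeasurableSpace Ω) (P : Measure Ω)
    (_ : IsProbabilityMeasure P) (T : Ω → Ω) (I : ℕ → Ω → ℕ), Ergodic T P ∧
    (∀ e, Measurable (I e)) ∧ (∀ e ω, I e ω < 2 ^ e) ∧
    (∀ e ω, I e (T ω) = (I e ω + 1) % 2 ^ e) ∧
    (∀ e e' ω, e ≤ e' → I e ω = I e' ω % 2 ^ e) ∧
    (∀ e i, i < 2 ^ e → P.real {ω | I e ω = i} = 1 / 2 ^ e) := by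
  borelize ℤ_[2]
  let P : Measure ℤ_[2] := Measure.addHaarMeasure ⊤
  have hP : IsProbabilityMeasure P := ⟨by
    have := Measure.addHaarMeasure_self (G := ℤ_[2]) (K₀ := ⊤)
    simpa using this⟩
  have hfib : ∀ (e : ℕ) (a : ZMod (2 ^ e)),
      MeasurableSet {ω : ℤ_[2] | PadicInt.toZModPow e ω = a} := by
    intro e a
    have : {ω : ℤ_[2] | PadicInt.toZModPow e ω = a} =
        {ω : ℤ_[2] | ‖ω - (a.val : ℤ_[2])‖ ≤ ((2 : ℕ) : ℝ) ^ (-e : ℤ)} := by
      ext ω
      simp only [mem_ofPred_eq]
      rw [PadicInt.norm_le_pow_iff_mem_span_pow, ← PadicInt.ker_toZModPow, RingHom.mem_ker, map_sub,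
        map_natCast, ZMod.natCast_zmod_val, sub_eq_zero]
    rw [this]
    exact (isClosed_le (by fun_prop) continuous_const).measurableSet
  have hval : ∀ (e i : ℕ), i < 2 ^ e → {ω : ℤ_[2] | (PadicInt.toZModPow e ω).val = i} =
      {ω : ℤ_[2] | PadicInt.toZModPow e ω = (i : ZMod (2 ^ e))} := by
    intro e i hi
    ext ω
    simp only [mem_ofPred_eq]
    constructor
    · rintro rfl; simp
    · intro h; rw [h, ZMod.val_cast_of_lt hi]
  refine ⟨ℤ_[2], inferInstance, P, hP, fun ω => 1 + ω, fun e ω => (PadicInt.toZModPow e ω).val,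
    ?_, ?_, ?_, ?_, ?_, ?_⟩
  · refine ergodic_add_left_of_denseRange_zsmul ?_ P
    simpa using PadicInt.denseRange_intCast (p := 2)
  · intro e
    refine measurable_to_countable' fun i => ?_
    by_cases hi : i < 2 ^ e
    · have := hval e i hi
      rw [show (fun ω : ℤ_[2] => (PadicInt.toZModPow e ω).val) ⁻¹' {i} =
        {ω : ℤ_[2] | (PadicInt.toZModPow e ω).val = i} from rfl, this]
      exact hfib e _
    · have : (fun ω : ℤ_[2] => (PadicInt.toZModPow e ω).val) ⁻¹' {i} = ∅ := by
        ext ω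
        simp only [mem_preimage, mem_singleton_iff, mem_empty_iff_false, iff_false]
        rintro rfl
        exact hi (ZMod.val_lt _)
      rw [this]; exact MeasurableSet.empty
  · intro e ω; exact ZMod.val_lt _
  · intro e ω
    simp only [map_add, map_one]
    rw [add_comm, ZMod.val_add, ZMod.val_one_eq_one_mod]
    simp
  · intro e e' ω h
    simp only
    rw [← PadicInt.cast_toZModPow e e' h, ZMod.cast_eq_val, ZMod.val_natCast]
  · intro e i hi
    have h1 : ∀ a : ZMod (2 ^ e), P.real {ω : ℤ_[2] | PadicInt.toZModPow e ω = a} =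
        P.real {ω : ℤ_[2] | PadicInt.toZModPow e ω = 0} := by
      intro a
      have := measure_preimage_add P (a.val : ℤ_[2]) {ω : ℤ_[2] | PadicInt.toZModPow e ω = a}
      rw [Measure.real, ← this, Measure.real]
      congr 2
      ext ω
      simp
    have h2 : ∑ a : ZMod (2 ^ e), P.real {ω : ℤ_[2] | PadicInt.toZModPow e ω = a} = 1 := by
      rw [← measureReal_biUnion_finset]
      · rw [← probReal_univ (μ := P)]
        congr 1
        ext ω; simp
      · intro a _ b _ hab
        exact Set.disjoint_left.mpr fun ω h1 h2 => hab (h1.symm.trans h2)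
      · intro a _; exact hfib e a
    simp only [h1, Finset.sum_const, Finset.card_univ, ZMod.card, nsmul_eq_mul] at h2
    show P.real {ω : ℤ_[2] | (PadicInt.toZModPow e ω).val = i} = _
    rw [hval e i hi, h1, eq_div_iff (by positivity), mul_comm]
    exact_mod_cast h2

section Uniform
variable {Ω : Type} [MeasurableSpace Ω] {P : Measure Ω} [IsProbabilityMeasure P]
  {J : Ω → ℕ} {p : ℕ}

theorem integrable_comp_idx (hJ : Measurable J) (hp : ∀ ω, J ω < p) (F : ℕ → ℝ) :
    Integrable (fun ω => F (J ω)) P := by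
  refine Integrable.of_bound ((measurable_from_top.comp hJ).aestronglyMeasurable)
    (∑ i ∈ Finset.range p, |F i|) (Eventually.of_forall fun ω => ?_)
  exact Finset.single_le_sum (f := fun i => |F i|) (fun i _ => abs_nonneg _)
    (Finset.mem_range.mpr (hp ω))

theorem integral_comp_idx (hJ : Measurable J) (hp : ∀ ω, J ω < p)
    (hu : ∀ i, i < p → P.real {ω | J ω = i} = 1 / p) (F : ℕ → ℝ) :
    ∫ ω, F (J ω) ∂P = (∑ i ∈ Finset.range p, F i) / p := by
  have h1 : (fun ω => F (J ω)) =
      fun ω => ∑ i ∈ Finset.range p, {ω | J ω = i}.indicator (fun _ => F i) ω := by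
    funext ω
    rw [Finset.sum_eq_single (J ω)]
    · simp
    · intro i _ hi
      exact indicator_of_notMem (fun h => hi (Eq.symm h)) _
    · intro h; exact absurd (Finset.mem_range.mpr (hp ω)) h
  have hm : ∀ i, MeasurableSet {ω | J ω = i} := fun i => hJ (measurableSet_singleton i)
  rw [h1, integral_finsetSum _ fun i _ => (integrable_const _).indicator (hm i),
    Finset.sum_div]
  refine Finset.sum_congr rfl fun i hi => ?_
  rw [integral_indicator_const _ (hm i), hu i (Finset.mem_range.mp hi), smul_eq_mul]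
  ring

theorem measure_ge_idx (hJ : Measurable J) (hp : ∀ ω, J ω < p)
    (hu : ∀ i, i < p → P.real {ω | J ω = i} = 1 / p) (g β : ℕ) (h : p ≤ g + β) :
    P.real {ω | g ≤ J ω} ≤ β / p := by
  have hm : MeasurableSet {ω | g ≤ J ω} := hJ measurableSet_Ici
  have h1 := integral_comp_idx hJ hp hu (fun i => if g ≤ i then 1 else 0)
  have h2 : (fun ω => if g ≤ J ω then (1 : ℝ) else 0) = {ω | g ≤ J ω}.indicator 1 := by
    funext ω; simp [indicator]
  rw [h2, integral_indicator_one hm] at h1
  rw [h1]
  refine div_le_div_of_nonneg_right ?_ (Nat.cast_nonneg _)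
  rw [Finset.sum_boole]
  have : (Finset.range p).filter (fun i => g ≤ i) ⊆ Finset.Ico g (g + β) := by
    intro i hi
    simp only [Finset.mem_filter, Finset.mem_range, Finset.mem_Ico] at hi ⊢
    omega
  have := Finset.card_le_card this
  rw [Nat.card_Ico, Nat.add_sub_cancel_left] at this
  exact_mod_cast this

end Uniform

end Pool.Agent.H859Z.Nm
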