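import Mathlib

set_option autoImplicit false

namespace Pool.Agent.H859Z.Nm

open Filter Topology MeasureTheory

/-- The chordal (spherical) distance between two finite points of the Riemann sphere. -/
noncomputable def chord (z w : ℂ) : ℝ := 2 * ‖z - w‖ / (√(1 + ‖z‖ ^ 2) * √(1 + ‖w‖ ^ 2))

/-- The finite part of the Fatou set of a polynomial map `f`: the points having a neighbourhood at
every point of which the iterates of `f` are equicontinuous for the chordal distance. -/
def fatou (f : ℂ → ℂ) : Set ℂ :=
  {z | ∃ U ∈ 𝓝 z, ∀ w ∈ U, ∀ ε > 0, ∃ δ > 0, ∀ w', ‖w' - w‖ < δ →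
    ∀ n : ℕ, chord (f^[n] w') (f^[n] w) < ε}

/-- The Julia set of a polynomial map `f` (the point at infinity is in the Fatou set). -/
def julia (f : ℂ → ℂ) : Set ℂ := (fatou f)ᶜ

/-- The norm of the derivative for the spherical metric. -/
noncomputable def sphDeriv (f : ℂ → ℂ) (z : ℂ) : ℝ :=
  ‖deriv f z‖ * (1 + ‖z‖ ^ 2) / (1 + ‖f z‖ ^ 2)

/-- A neutral measure: an invariant ergodic Borel probability measure without atoms, supported in
the Julia set, whose Lyapunov exponent exists and vanishes. -/
structure IsNeutral (f : ℂ → ℂ) (μ : Measure ℂ) : Prop where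
  prob : IsProbabilityMeasure μ
  ergodic : Ergodic f μ
  nonatomic : ∀ z, μ {z} = 0
  support_subset : μ.support ⊆ julia f
  integrable : Integrable (fun z => Real.log (sphDeriv f z)) μ
  exponent : ∫ z, Real.log (sphDeriv f z) ∂μ = 0

end Pool.Agent.H859Z.Nm
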