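import Pool.Agent.H859Z.NmC

set_option autoImplicit false

namespace Pool.Agent.H859Z.Nm

open Set Filter Topology

theorem Fl.per {c : ℝ} {w : List Bool} (h : Fl c w 2) :
    Function.IsPeriodicPt (fq c) w.length (q c w) := by
  show (fq c)^[w.length] (q c w) = q c w
  conv_lhs => rw [← h.q_spec.2]
  exact iter_G' (two_pos.trans_le (h _ h.q_spec.1).2)

theorem iter_take {c : ℝ} {w : List Bool} {y : ℝ} (h : 0 < Tp c w y y) {r : ℕ}
    (hr : r ≤ w.length) : (fq c)^[r] (G c w y) = G c (w.drop r) y := by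
  have := iter_G (c := c) (v := w.take r) (w := w.drop r) (y := y) (by simpa using h)
  rwa [List.take_append_drop, List.length_take, min_eq_left hr] at this

theorem fwd_lip {c : ℝ} (hc : -2 ≤ c) {w : List Bool} {y y' : ℝ} (h : 0 < Tp c w y y)
    (h' : 0 < Tp c w y' y') (hy : |y| ≤ 2) (hy' : |y'| ≤ 2) {r : ℕ} (hr : r ≤ w.length) :
    |(fq c)^[r] (G c w y) - (fq c)^[r] (G c w y')| ≤ 4 ^ w.length * |G c w y - G c w y'| := by
  rw [iter_take h hr, iter_take h' hr]
  rw [← List.take_append_drop r w] at h h'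
  have h1 := abs_G_sub (adm_append h).1 (adm_append h').1
  rw [← G_append, ← G_append, List.take_append_drop] at h1
  rw [← h1, mul_comm]
  refine mul_le_mul_of_nonneg_right ((Tp_le hc _ (abs_G_le hc _ hy) (abs_G_le hc _ hy')).trans ?_)
    (abs_nonneg _)
  exact pow_le_pow_right₀ (by norm_num) (by simp)

theorem Fl.length_pos {c : ℝ} {w : List Bool} (h : Fl c w 2) : 0 < w.length := by
  rcases w with _ | ⟨s, w⟩
  · have := (h 0 zero_mem_W).2
    simp [Tp] at this
  · simp

theorem Fl.orb_le {c : ℝ} (hc : -2 ≤ c) {w : List Bool} (h : Fl c w 2) (i : ℕ) :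
    |(fq c)^[i] (q c w)| ≤ 2 := by
  rw [← h.per.iterate_mod_apply, ← h.q_spec.2,
    iter_take (two_pos.trans_le (h _ h.q_spec.1).2) (Nat.mod_lt _ h.length_pos).le]
  exact abs_G_le hc _ (W_abs h.q_spec.1)

theorem Fl.prod_orb {c : ℝ} {w : List Bool} (h : Fl c w 2) :
    Tp c w (q c w) (q c w) = ∏ i ∈ Finset.range w.length, (2 * |(fq c)^[i] (q c w)|) := by
  rw [Tp_eq_prod (two_pos.trans_le (h _ h.q_spec.1).2), h.q_spec.2]

theorem Fl.orb_ge {c : ℝ} (hc : -2 ≤ c) {w : List Bool} (h : Fl c w 2) (i : ℕ) :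
    1 / 4 ^ w.length ≤ |(fq c)^[i] (q c w)| := by
  rw [← h.per.iterate_mod_apply]
  have hi : i % w.length ∈ Finset.range w.length := Finset.mem_range.mpr (Nat.mod_lt _ h.length_pos)
  have h1 := (h _ h.q_spec.1).2
  rw [h.prod_orb, ← Finset.mul_prod_erase _ _ hi] at h1
  have h2 : ∏ j ∈ (Finset.range w.length).erase (i % w.length), (2 * |(fq c)^[j] (q c w)|) ≤
      4 ^ w.length := by
    calc _ ≤ ∏ _j ∈ (Finset.range w.length).erase (i % w.length), (4 : ℝ) :=
          Finset.prod_le_prod (fun j _ => by positivity) fun j _ => by linarith [h.orb_le hc j]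
      _ ≤ _ := by
          rw [Finset.prod_const]
          refine pow_le_pow_right₀ (by norm_num) ?_
          exact Finset.card_erase_le.trans (by simp)
  have h3 := mul_le_mul_of_nonneg_left h2
    (show 0 ≤ 2 * |(fq c)^[i % w.length] (q c w)| by positivity)
  rw [div_le_iff₀ (by positivity)]
  linarith

theorem Fl.sum_log {c : ℝ} (hc : -2 ≤ c) {w : List Bool} (h : Fl c w 2) :
    ∑ i ∈ Finset.range w.length, Real.log (2 * |(fq c)^[i] (q c w)|) =
      Real.log (Tp c w (q c w) (q c w)) := by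
  rw [h.prod_orb, Real.log_prod]
  intro i _
  have := lt_of_lt_of_le (by positivity) (h.orb_ge hc i)
  positivity

theorem three_mul_le (M : ℕ) (h : 4 ≤ M) : 3 * M ≤ 2 ^ M := by
  induction M, h using Nat.le_induction with
  | base => norm_num
  | succ M hM ih => rw [pow_succ]; omega

theorem shadow {c : ℝ} (hc : -2 ≤ c) {w w' u t : List Bool} {k M : ℕ} (h : Fl c w 2)
    (h' : Fl c w' 2) (ht : Fl c t 1) (hw' : w' = true :: (u ++ rep w k ++ t)) (hM : 4 ≤ M)
    {i : ℕ} (hi : i < (k - M) * w.length) :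
    |(fq c)^[i + (1 + u.length)] (q c w') - (fq c)^[i] (q c w)| ≤ 4 ^ w.length / M := by
  have hp := h.length_pos
  have hb : i / w.length < k - M := (Nat.div_lt_iff_lt_mul hp).mpr hi
  obtain ⟨j, hj⟩ : ∃ j, k = i / w.length + (j + 1) := ⟨k - i / w.length - 1, by omega⟩
  have hj' : M ≤ j + 1 := by
    generalize i / w.length = b at hb hj
    omega
  have hq := h'.q_spec
  have hY := (ht _ hq.1).1
  have e1 : w' = (true :: (u ++ rep w (i / w.length))) ++ (rep w (j + 1) ++ t) := by
    rw [hw', hj, rep_add]; simp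
  have h1 : (fq c)^[(true :: (u ++ rep w (i / w.length))).length] (q c w') =
      G c (rep w (j + 1) ++ t) (q c w') := by
    have := iter_G (c := c) (v := true :: (u ++ rep w (i / w.length))) (w := rep w (j + 1) ++ t)
      (y := q c w') (by rw [← e1]; exact two_pos.trans_le (h' _ hq.1).2)
    rwa [← e1, hq.2] at this
  have e2 : i + (1 + u.length) = i % w.length + (true :: (u ++ rep w (i / w.length))).length := by
    simp only [List.length_cons, List.length_append, rep_length]
    have := Nat.mod_add_div' i w.length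
    omega
  have h2 := h.rep_close (j + 1) hY
  rw [e2, Function.iterate_add_apply, h1, G_append, ← h.per.iterate_mod_apply i]
  rw [rep, G_append] at h2 ⊢
  have hZ := (h.rep zero_le_two j _ hY).1
  have h3 := fwd_lip hc (two_pos.trans_le (h _ hZ).2) (two_pos.trans_le (h _ h.q_spec.1).2)
    (W_abs hZ) (W_abs h.q_spec.1) (Nat.mod_lt i hp).le
  rw [h.q_spec.2] at h3
  refine h3.trans ?_
  rw [div_eq_mul_one_div]
  refine mul_le_mul_of_nonneg_left (h2.trans ?_) (by positivity)
  have hM0 : (0 : ℝ) < M := by exact_mod_cast (by omega : 0 < M)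
  rw [div_le_div_iff₀ (by positivity) hM0, one_mul]
  have h4 : 3 * M ≤ 2 ^ (j + 1) :=
    (three_mul_le M hM).trans (Nat.pow_le_pow_right two_pos hj')
  exact_mod_cast h4

theorem visit {c : ℝ} (hc : c ∈ Icc (-2 : ℝ) (-(19 / 10))) {w' a ρ v pad : List Bool}
    (h' : Fl c w' 2) (hw' : w' = true :: (a ++ Hs (ρ ++ v ++ pad))) :
    ∃ i < w'.length, ∃ y ∈ W, (fq c)^[i] (q c w') = G c (Hs v) y := by
  have hq := h'.q_spec
  have e1 : w' = (true :: (a ++ Hs ρ)) ++ (Hs v ++ Hs pad) := by
    rw [hw', Hs_append, Hs_append]; simp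
  have := iter_G (c := c) (v := true :: (a ++ Hs ρ)) (w := Hs v ++ Hs pad)
      (y := q c w') (by rw [← e1]; exact two_pos.trans_le (h' _ hq.1).2)
  rw [← e1, hq.2, G_append, ← h'.per.iterate_mod_apply] at this
  exact ⟨_, Nat.mod_lt _ h'.length_pos, _, (Fl_Hs hc pad _ hq.1).1, this⟩

theorem log_close {a b ρ η : ℝ} (hρ : 0 < ρ) (ha : ρ ≤ |a|) (hη : η ≤ 1 / 2)
    (h : |b - a| ≤ η * ρ) : |Real.log (2 * |b|) - Real.log (2 * |a|)| ≤ 2 * η := by
  have ha0 : 0 < |a| := hρ.trans_le ha
  have hη0 : 0 ≤ η := by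
    by_contra hneg
    have := mul_neg_of_neg_of_pos (not_le.mp hneg) hρ
    linarith [abs_nonneg (b - a)]
  have h1 : η * ρ ≤ η * |a| := mul_le_mul_of_nonneg_left ha hη0
  have h2 := abs_le.mp ((abs_abs_sub_abs_le_abs_sub b a).trans (h.trans h1))
  have h3 : η * |a| ≤ 1 / 2 * |a| := mul_le_mul_of_nonneg_right hη ha0.le
  have hb0 : 0 < |b| := by linarith [h2.1]
  rw [abs_le]
  constructor
  · have h4 := Real.log_le_sub_one_of_pos (show 0 < (2 * |a|) / (2 * |b|) by positivity)
    rw [Real.log_div (by positivity) (by positivity)] at h4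
    have h5 : 2 * |a| / (2 * |b|) ≤ 1 + 2 * η := by
      rw [div_le_iff₀ (by positivity)]
      nlinarith [h2.1, mul_le_mul_of_nonneg_left h3 hη0]
    linarith
  · have h4 := Real.log_le_sub_one_of_pos (show 0 < (2 * |b|) / (2 * |a|) by positivity)
    rw [Real.log_div (by positivity) (by positivity)] at h4
    have h5 : 2 * |b| / (2 * |a|) ≤ 1 + 2 * η := by
      rw [div_le_iff₀ (by positivity)]
      nlinarith [h2.2, mul_nonneg hη0 ha0.le]
    linarith

theorem tail_conv {a : ℕ → ℝ} {n : ℕ} {C : ℝ} (hC : 0 ≤ C)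
    (h : ∀ m, n ≤ m → |a (m + 1) - a m| ≤ C / 2 ^ (m + 1)) :
    ∃ l, Tendsto a atTop (𝓝 l) ∧ |a n - l| ≤ C ∧ Summable fun m => a (m + 1) - a m := by
  have h1 : ∀ j, dist (a (j + n)) (a (j + 1 + n)) ≤ C / 2 / 2 ^ j := by
    intro j
    rw [dist_comm, Real.dist_eq, Nat.add_right_comm]
    refine (h _ (Nat.le_add_left _ _)).trans ?_
    rw [div_div, ← pow_succ']
    exact div_le_div_of_nonneg_left hC (by positivity) (pow_le_pow_right₀ one_le_two (by omega))
  obtain ⟨l, hl⟩ := cauchySeq_tendsto_of_complete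
    (cauchySeq_of_le_geometric_two (f := fun j => a (j + n)) h1)
  refine ⟨l, (tendsto_add_atTop_iff_nat n).mp hl, ?_, ?_⟩
  · have := dist_le_of_le_geometric_two_of_tendsto₀ (f := fun j => a (j + n)) h1 hl
    simpa [Real.dist_eq] using this
  · rw [← summable_nat_add_iff n]
    refine Summable.of_norm_bounded (summable_geometric_two' C) fun j => ?_
    have := h1 j
    rwa [dist_comm, dist_eq_norm, Nat.add_right_comm] at this

end Pool.Agent.H859Z.Nm
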