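import Pool.Agent.H859Z.NmE
import Pool.Agent.H859Z.NmD

set_option autoImplicit false

namespace Pool.Agent.H859Z.Nm

open Set Filter Topology MeasureTheory

theorem limit_thm {Ω : Type} [MeasurableSpace Ω] (P : Measure Ω) [IsProbabilityMeasure P]
    (X : ℕ → Ω → ℝ) (B : ℕ → Set Ω) (r χ K : ℕ → ℝ)
    (hX : ∀ n, Measurable (X n))
    (hφ : ∀ n, Integrable (fun ω => Real.log (2 * |X n ω|)) P)
    (h0 : ∀ n ω, X n ω ≠ 0) (hr : Antitone r) (hr0 : ∀ n, 0 < r n)
    (hB : ∀ n, MeasurableSet (B n)) (hB' : ∀ n, P.real (B n) ≤ r n / 2 ^ (n + 2))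
    (hclose : ∀ n ω, ω ∉ B n → |X (n + 1) ω - X n ω| ≤ r n / 2 ^ (n + 1) ∧
      |Real.log (2 * |X (n + 1) ω|) - Real.log (2 * |X n ω|)| ≤ 1 / 2 ^ (n + 1))
    (hbad : ∀ n ω, Real.log (2 * |X (n + 1) ω|) - Real.log (2 * |X n ω|) ≤ K n)
    (hK0 : ∀ n, 0 ≤ K n) (hK : ∀ n, K n * r n ≤ 2)
    (hint : ∀ n, 0 < ∫ ω, Real.log (2 * |X n ω|) ∂P ∧ ∫ ω, Real.log (2 * |X n ω|) ∂P ≤ χ n)
    (hχ : Summable χ) :
    ∃ x : Ω → ℝ, Measurable x ∧ (∀ᵐ ω ∂P, Tendsto (fun n => X n ω) atTop (𝓝 (x ω))) ∧
      Integrable (fun ω => Real.log (2 * |x ω|)) P ∧ ∫ ω, Real.log (2 * |x ω|) ∂P = 0 ∧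
      ∀ n (S : Set Ω), r n ≤ P.real S → 0 < P {ω | ω ∈ S ∧ |X n ω - x ω| ≤ r n} := by
  let x : Ω → ℝ := fun ω => limUnder atTop (fun n => X n ω)
  have hxm : Measurable x :=
    (StronglyMeasurable.limUnder fun n => (hX n).stronglyMeasurable).measurable
  have hU : ∀ n, P.real (⋃ j, B (j + n)) ≤ r n / 2 ^ (n + 1) := by
    intro n
    have h1 : ∀ j, P (B (j + n)) ≤ ENNReal.ofReal (r n / 2 ^ (n + 1) / 2 / 2 ^ j) := by
      intro j
      rw [← ofReal_measureReal]
      refine ENNReal.ofReal_le_ofReal ((hB' _).trans ?_)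
      rw [div_div, div_div, show (2 : ℝ) ^ (n + 1) * (2 * 2 ^ j) = 2 ^ (j + n + 2) by ring]
      exact div_le_div_of_nonneg_right (hr (Nat.le_add_left _ _)) (by positivity)
    have h2 := (measure_iUnion_le (μ := P) fun j => B (j + n)).trans (ENNReal.tsum_le_tsum h1)
    have := hr0 n
    rw [← ENNReal.ofReal_tsum_of_nonneg (fun j => by positivity) (summable_geometric_two' _),
      tsum_geometric_two'] at h2
    exact ENNReal.toReal_le_of_le_ofReal (by positivity) h2
  have hgood : ∀ n ω, ω ∉ ⋃ j, B (j + n) → Tendsto (fun n => X n ω) atTop (𝓝 (x ω)) ∧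
      |X n ω - x ω| ≤ r n ∧
      ∑' m, (Real.log (2 * |X (m + 1) ω|) - Real.log (2 * |X m ω|)) =
        Real.log (2 * |x ω|) - Real.log (2 * |X 0 ω|) := by
    intro n ω hω
    have h1 : ∀ m, n ≤ m → ω ∉ B m := fun m hm h => hω (mem_iUnion.mpr ⟨m - n, by
      rwa [Nat.sub_add_cancel hm]⟩)
    obtain ⟨l, hl1, hl2, -⟩ := tail_conv (a := fun m => X m ω) (n := n) (hr0 n).le fun m hm =>
      (hclose m ω (h1 m hm)).1.trans (div_le_div_of_nonneg_right (hr hm) (by positivity))
    obtain ⟨l', hl1', -, hl3⟩ := tail_conv (a := fun m => Real.log (2 * |X m ω|)) (n := n)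
      zero_le_one fun m hm => (hclose m ω (h1 m hm)).2
    have e : x ω = l := hl1.limUnder_eq
    rw [e]
    refine ⟨hl1, hl2, ?_⟩
    have h2 : Tendsto (fun m => 2 * |X m ω|) atTop (𝓝 (2 * |l|)) := hl1.abs.const_mul 2
    have h3 : Tendsto (fun m => 2 * |X m ω|) atTop (𝓝 (Real.exp l')) := by
      refine (Real.continuous_exp.tendsto _ |>.comp hl1').congr fun m => ?_
      have := abs_pos.mpr (h0 m ω)
      exact Real.exp_log (by positivity)
    rw [tendsto_nhds_unique h2 h3, Real.log_exp]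
    refine tendsto_nhds_unique hl3.hasSum.tendsto_sum_nat ?_
    simp only [Finset.sum_range_sub (fun m => Real.log (2 * |X m ω|))]
    exact hl1'.sub_const _
  have hae : ∀ᵐ ω ∂P, ∃ n, ω ∉ ⋃ j, B (j + n) := by
    rw [ae_iff]
    have h1 : ∀ n, P.real {ω | ¬∃ n, ω ∉ ⋃ j, B (j + n)} ≤ r 0 / 2 / 2 ^ n := by
      intro n
      refine (measureReal_mono (μ := P) (s₂ := ⋃ j, B (j + n)) (fun ω hω => ?_) (measure_ne_top _ _)).trans ((hU n).trans ?_)
      · by_contra h; exact hω ⟨n, h⟩
      · rw [div_div, ← pow_succ']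
        exact div_le_div_of_nonneg_right (hr (Nat.zero_le _)) (by positivity)
    have h2 := ge_of_tendsto' (summable_geometric_two' (r 0)).tendsto_atTop_zero h1
    exact (measureReal_eq_zero_iff (measure_ne_top _ _)).mp (le_antisymm h2 measureReal_nonneg)
  have hFi : ∀ m, Integrable
      (fun ω => Real.log (2 * |X (m + 1) ω|) - Real.log (2 * |X m ω|)) P :=
    fun m => (hφ (m + 1)).sub (hφ m)
  have hsum : Summable fun m =>
      ∫ ω, ‖Real.log (2 * |X (m + 1) ω|) - Real.log (2 * |X m ω|)‖ ∂P := by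
    refine Summable.of_nonneg_of_le (fun m => integral_nonneg fun _ => norm_nonneg _)
      (fun m => ?_) (hχ.add (summable_geometric_two' 4))
    have h1 : ∀ ω, ‖Real.log (2 * |X (m + 1) ω|) - Real.log (2 * |X m ω|)‖ ≤
        (Real.log (2 * |X m ω|) - Real.log (2 * |X (m + 1) ω|)) + 1 / 2 ^ m +
          (B m).indicator (fun _ => 2 * K m) ω := by
      intro ω
      rw [Real.norm_eq_abs]
      have hp : (0 : ℝ) < 1 / 2 ^ m := by positivity
      by_cases hω : ω ∈ B m
      · rw [indicator_of_mem hω, abs_le]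
        constructor <;> linarith [hbad m ω, hK0 m]
      · rw [indicator_of_notMem hω]
        have h2 := (hclose m ω hω).2
        have h3 := abs_le.mp h2
        have h4 : (1 : ℝ) / 2 ^ m = 2 * (1 / 2 ^ (m + 1)) := by rw [pow_succ]; field_simp
        linarith [h3.2]
    have h5 : Integrable ((B m).indicator (fun _ => 2 * K m)) P :=
      (integrable_const _).indicator (hB m)
    have h6 : Integrable
      (fun ω => Real.log (2 * |X m ω|) - Real.log (2 * |X (m + 1) ω|)) P :=
      (hφ m).sub (hφ (m + 1))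
    have h7 : Integrable
      (fun ω => Real.log (2 * |X m ω|) - Real.log (2 * |X (m + 1) ω|) + 1 / 2 ^ m) P :=
      h6.add (integrable_const _)
    refine (integral_mono (hFi m).norm (h7.add h5) h1).trans ?_
    simp only [Pi.add_apply]
    rw [integral_add h7 h5, integral_add h6 (integrable_const _), integral_sub (hφ m) (hφ (m + 1)),
      integral_indicator_const _ (hB m), integral_const, probReal_univ, smul_eq_mul, smul_eq_mul]
    have h8 : P.real (B m) * (2 * K m) ≤ r m / 2 ^ (m + 2) * (2 * K m) :=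
      mul_le_mul_of_nonneg_right (hB' m) (by linarith [hK0 m])
    have h9 : r m / 2 ^ (m + 2) * (2 * K m) ≤ 1 / 2 ^ m := by
      rw [div_mul_eq_mul_div, div_le_div_iff₀ (by positivity) (by positivity), pow_add]
      have : (0 : ℝ) < 2 ^ m := by positivity
      nlinarith [hK m]
    have h10 : (4 : ℝ) / 2 / 2 ^ m = 2 * (1 / 2 ^ m) := by ring
    linarith [(hint m).2, (hint (m + 1)).1]
  have hHas := hasSum_integral_of_summable_integral_norm hFi hsum
  have hlim : Tendsto (fun n => ∫ ω, Real.log (2 * |X n ω|) ∂P) atTop (𝓝 0) :=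
    squeeze_zero (fun n => (hint n).1.le) (fun n => (hint n).2) hχ.tendsto_atTop_zero
  have hval : ∫ ω, (Real.log (2 * |x ω|) - Real.log (2 * |X 0 ω|)) ∂P =
      0 - ∫ ω, Real.log (2 * |X 0 ω|) ∂P := by
    rw [← integral_congr_ae (hae.mono fun ω ⟨n, hn⟩ => (hgood n ω hn).2.2)]
    refine tendsto_nhds_unique hHas.tendsto_sum_nat ?_
    simp only [fun m => integral_sub (hφ (m + 1)) (hφ m),
      Finset.sum_range_sub (fun m => ∫ ω, Real.log (2 * |X m ω|) ∂P)]
    exact hlim.sub_const _
  have hI : Integrable (fun ω => Real.log (2 * |x ω|) - Real.log (2 * |X 0 ω|)) P :=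
    Integrable.of_integral_ne_zero (by rw [hval]; linarith [(hint 0).1])
  have hI' : Integrable (fun ω => Real.log (2 * |x ω|)) P := by
    refine (hI.add (hφ 0)).congr (Eventually.of_forall fun ω => ?_)
    simp
  refine ⟨x, hxm, hae.mono fun ω ⟨n, hn⟩ => (hgood n ω hn).1, hI', ?_, fun n S hS => ?_⟩
  · rw [integral_sub hI' (hφ 0)] at hval
    linarith
  · rw [pos_iff_ne_zero]
    intro hz
    have h1 : S ⊆ {ω | ω ∈ S ∧ |X n ω - x ω| ≤ r n} ∪ ⋃ j, B (j + n) := by
      intro ω hω
      by_cases h : ω ∈ ⋃ j, B (j + n)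
      · exact Or.inr h
      · exact Or.inl ⟨hω, (hgood n ω h).2.1⟩
    have h2 := (measureReal_mono h1).trans (measureReal_union_le (μ := P) _ _)
    rw [Measure.real, Measure.real, hz] at h2
    have h3 := hU n
    have h4 : r n / 2 ^ (n + 1) < r n := div_lt_self (hr0 n) (one_lt_pow₀ one_lt_two (by omega))
    simp only [ENNReal.toReal_zero, zero_add] at h2
    rw [Measure.real] at hS
    linarith

/-- Points of the periodic orbits of full branches. -/
def Rep (c : ℝ) : Set ℝ := {y | ∃ w i, Fl c w 2 ∧ y = (fq c)^[i] (q c w)}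

theorem exists_real : ∃ c ∈ Icc (-2 : ℝ) (-(19 / 10)), ∃ (Ω : Type) (_ : MeasurableSpace Ω)
    (P : Measure Ω) (_ : IsProbabilityMeasure P) (T : Ω → Ω) (x : Ω → ℝ), Ergodic T P ∧
    Measurable x ∧ (∀ᵐ ω ∂P, x (T ω) = fq c (x ω)) ∧ (∀ᵐ ω ∂P, x ω ∈ closure (Rep c)) ∧
    Integrable (fun ω => Real.log (2 * |x ω|)) P ∧ ∫ ω, Real.log (2 * |x ω|) ∂P = 0 ∧
    ∀ (v : List Bool), ∀ y ∈ W, 0 < P {ω | |x ω - G c (Hs v) y| ≤ 4 / 2 ^ v.length} := by
  obtain ⟨v, hv⟩ := exists_surjective_nat (List Bool)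
  obtain ⟨c, hc, w, u, ρ, pad, e, k, hw⟩ := exists_words v
  obtain ⟨Ω, _, P, _, T, I, hT, hIm, hIlt, hIT, hIc, hIu⟩ := exists_odometer
  have hlen : ∀ n, (w n).length = 2 ^ e n := fun n => (hw n).1
  have hfl : ∀ n, Fl c (w n) 2 := fun n => (hw n).2.1
  have hM : ∀ n, 4 ≤ 2 ^ (n + 2) * 16 ^ (w n).length := fun n => by
    have h1 : 0 < 2 ^ n * 16 ^ (w n).length := by positivity
    rw [pow_add]; nlinarith
  have hlen' : ∀ n, (w (n + 1)).length = 1 + (u n).length + (Hs (ρ n ++ v n ++ pad n)).length +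
      k n * (w n).length := fun n => by
    rw [(hw n).2.2.2.1]
    simp only [List.length_cons, List.length_append, rep_length]; ring
  have hmono : Monotone fun n => (w n).length := monotone_nat_of_le_succ fun n => by
    have h1 := (hw n).2.2.2.2.1
    have h2 := hM n
    have h3 : (w n).length ≤ k n * (w n).length := Nat.le_mul_of_pos_left _ (by omega)
    rw [hlen']; omega
  have he : ∀ n, e n ≤ e (n + 1) := fun n => by
    have := hmono (Nat.le_succ n)
    simp only [hlen] at this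
    exact (Nat.pow_le_pow_iff_right one_lt_two).mp this
  have hIiter : ∀ (m d : ℕ) ω, I m (T^[d] ω) = (I m ω + d) % 2 ^ m := by
    intro m d ω
    induction d with
    | zero => simp [Nat.mod_eq_of_lt (hIlt m ω)]
    | succ d ih => rw [Function.iterate_succ_apply', hIT, ih, Nat.mod_add_mod, add_assoc]
  let s : ℕ → ℕ := fun n => ∑ m ∈ Finset.range n, (1 + (u m).length)
  have hu : ∀ m d i, i < 2 ^ m → P.real {ω | I m (T^[d] ω) = i} = ((1 : ℝ) / (2 ^ m : ℕ)) := by
    intro m d i hi
    have := (hT.toMeasurePreserving.iterate d).measureReal_preimage (s := {ω | I m ω = i})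
      (hIm m (measurableSet_singleton i)).nullMeasurableSet
    push_cast
    rw [← hIu m i hi, ← this]; rfl
  have hJm : ∀ m d, Measurable fun ω => I m (T^[d] ω) := fun m d =>
    (hIm m).comp (hT.toMeasurePreserving.iterate d).measurable
  let X : ℕ → Ω → ℝ := fun n ω => (fq c)^[I (e n) (T^[s n] ω)] (q c (w n))
  have hX1 : ∀ n ω, X n ω = (fq c)^[I (e (n + 1)) (T^[s n] ω)] (q c (w n)) := by
    intro n ω
    simp only [X]
    rw [hIc _ _ _ (he n), ← hlen, (hfl n).per.iterate_mod_apply]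
  have hX2 : ∀ n ω, X (n + 1) ω =
      (fq c)^[I (e (n + 1)) (T^[s n] ω) + (1 + (u n).length)] (q c (w (n + 1))) := by
    intro n ω
    simp only [X, s]
    rw [Finset.sum_range_succ, add_comm _ (1 + (u n).length), Function.iterate_add_apply, hIiter, ← hlen,
      (hfl (n + 1)).per.iterate_mod_apply]
  have hXT : ∀ n ω, X n (T ω) = fq c (X n ω) := by
    intro n ω
    simp only [X]
    rw [← Function.iterate_succ_apply, Function.iterate_succ_apply', hIT, ← hlen,
      (hfl n).per.iterate_mod_apply, Function.iterate_succ_apply']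
  have hge : ∀ n ω, 1 / 4 ^ (w n).length ≤ |X n ω| := fun n ω => (hfl n).orb_ge hc.1 _
  have hle : ∀ n ω, |X n ω| ≤ 2 := fun n ω => (hfl n).orb_le hc.1 _
  have hpos : ∀ n ω, 0 < |X n ω| := fun n ω => lt_of_lt_of_le (by positivity) (hge n ω)
  have hl4 : 0 < Real.log 4 := Real.log_pos (by norm_num)
  obtain ⟨x, hxm, hxt, hxi, hx0, hxs⟩ := limit_thm P X
    (fun n => {ω | (k n - 2 ^ (n + 2) * 16 ^ (w n).length) * (w n).length ≤
      I (e (n + 1)) (T^[s n] ω)})
    (fun n => 1 / 4 ^ (w n).length) (fun n => (3 / 4) ^ n * Real.log 4)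
    (fun n => ((w n).length + 1) * Real.log 4)
    (fun n => measurable_from_top.comp (hJm (e n) (s n)) (g := fun i => (fq c)^[i] (q c (w n))))
    (fun n => integrable_comp_idx (hJm (e n) (s n)) (fun ω => hIlt _ _)
      (fun i => Real.log (2 * |(fq c)^[i] (q c (w n))|)))
    (fun n ω => abs_pos.mp (hpos n ω))
    (fun n m h => one_div_le_one_div_of_le (by positivity)
      (pow_le_pow_right₀ (by norm_num) (hmono h)))
    (fun n => by positivity)
    (fun n => hJm (e (n + 1)) (s n) measurableSet_Ici)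
    (fun n => by
      have h1 := (hw n).2.2.2.2.1
      have h2 := (hw n).2.2.2.2.2
      have h3 := hlen' n
      have h4 := hM n
      have h6 : ((2 ^ (n + 2) * 16 ^ (w n).length : ℕ) : ℝ) = 2 ^ (n + 2) * 16 ^ (w n).length := by
        push_cast; rfl
      generalize 2 ^ (n + 2) * 16 ^ (w n).length = M at h1 h2 h4 h6 ⊢
      have h5 := measure_ge_idx (hJm (e (n + 1)) (s n)) (fun ω => hIlt _ _) (hu (e (n + 1)) (s n))
        ((k n - M) * (w n).length)
        (1 + (u n).length + (Hs (ρ n ++ v n ++ pad n)).length + M * (w n).length) (by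
          rw [← hlen, h3]
          obtain ⟨j, hj⟩ := Nat.exists_eq_add_of_le h1
          rw [hj, Nat.add_sub_cancel_left, add_mul]; omega)
      refine h5.trans ?_
      rw [← hlen]
      have h7 : (0 : ℝ) < (w (n + 1)).length := by exact_mod_cast (hfl (n + 1)).length_pos
      have h8 : (4 : ℝ) ^ (w n).length ≤ 16 ^ (w n).length :=
        pow_le_pow_left₀ (by norm_num) (by norm_num) _
      rw [div_div, div_le_div_iff₀ h7 (by positivity), one_mul]
      refine le_trans ?_ (Nat.cast_le.mpr h2)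
      rw [Nat.cast_mul]
      refine mul_le_mul_of_nonneg_left ?_ (Nat.cast_nonneg _)
      rw [h6, mul_comm]
      exact mul_le_mul_of_nonneg_left h8 (by positivity))
    (fun n ω hω => by
      have h1 := shadow hc.1 (hfl n) (hfl (n + 1)) (Fl_Hs1 hc _) (hw n).2.2.2.1 (hM n)
        (not_le.mp hω)
      rw [← hX1, ← hX2] at h1
      have h2 : (4 : ℝ) ^ (w n).length / ((2 ^ (n + 2) * 16 ^ (w n).length : ℕ) : ℝ) =
          1 / 2 ^ (n + 2) * (1 / 4 ^ (w n).length) := by
        push_cast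
        rw [show (16 : ℝ) = 4 * 4 by norm_num, mul_pow]
        field_simp
      rw [h2] at h1
      constructor
      · refine h1.trans ?_
        rw [div_eq_mul_one_div (1 / 4 ^ (w n).length), mul_comm]
        exact mul_le_mul_of_nonneg_left (one_div_le_one_div_of_le (by positivity)
          (pow_le_pow_right₀ one_le_two (by omega))) (by positivity)
      · refine (log_close (by positivity) (hge n ω) (one_div_le_one_div_of_le two_pos ?_) h1).trans
          (le_of_eq ?_)
        · exact le_self_pow₀ one_le_two (by omega)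
        · rw [pow_succ _ (n + 1)]; field_simp)
    (fun n ω => by
      have h1 : Real.log (2 * |X (n + 1) ω|) ≤ Real.log 4 :=
        Real.log_le_log (by linarith [hpos (n + 1) ω]) (by linarith [hle (n + 1) ω])
      have h2 : Real.log (1 / 4 ^ (w n).length) ≤ Real.log (2 * |X n ω|) :=
        Real.log_le_log (by positivity) (by linarith [hge n ω, hpos n ω])
      rw [one_div, Real.log_inv, Real.log_pow] at h2
      linarith)
    (fun n => by positivity)
    (fun n => by
      have h1 : (((w n).length + 1 : ℕ) : ℝ) ≤ ((4 ^ (w n).length : ℕ) : ℝ) :=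
        Nat.cast_le.mpr (Nat.lt_pow_self (by norm_num))
      push_cast at h1
      have h2 : Real.log 4 ≤ 2 := by
        rw [show (4 : ℝ) = 2 ^ 2 by norm_num, Real.log_pow]
        have := Real.log_two_lt_d9
        push_cast; linarith
      rw [mul_one_div, div_le_iff₀ (by positivity), mul_comm (2 : ℝ)]
      exact mul_le_mul h1 h2 hl4.le (by positivity))
    (fun n => by
      have h1 := integral_comp_idx (hJm (e n) (s n)) (fun ω => hIlt _ _) (hu (e n) (s n))
        (fun i => Real.log (2 * |(fq c)^[i] (q c (w n))|))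
      rw [← hlen, (hfl n).sum_log hc.1] at h1
      have h2 := (hfl n _ (hfl n).q_spec.1).2
      have h3 := (hw n).2.2.1 _ (hfl n).q_spec.1
      have h7 : (0 : ℝ) < (w n).length := by exact_mod_cast (hfl n).length_pos
      simp only [X]
      rw [h1]
      exact ⟨div_pos (Real.log_pos (by linarith)) h7,
        (div_le_iff₀ h7).mpr ((Real.log_le_iff_le_exp (by linarith)).mpr h3)⟩)
    ((summable_geometric_of_lt_one (by norm_num) (by norm_num)).mul_right _)
  refine ⟨c, hc, Ω, inferInstance, P, inferInstance, T, x, hT, hxm, ?_, ?_, hxi, hx0, ?_⟩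
  · filter_upwards [hxt, hT.toMeasurePreserving.quasiMeasurePreserving.ae hxt] with ω h1 h2
    simp only [hXT] at h2
    have h3 : Continuous (fq c) := by unfold fq; fun_prop
    exact tendsto_nhds_unique h2 ((h3.tendsto _).comp h1)
  · filter_upwards [hxt] with ω h1
    exact mem_closure_of_tendsto h1 (Eventually.of_forall fun n => ⟨w n, _, hfl n, rfl⟩)
  · intro v0 y hy
    obtain ⟨n, rfl⟩ := hv v0
    obtain ⟨i, hi, y0, hy0, h1⟩ := visit hc (hfl (n + 1)) (hw n).2.2.2.1
    have h2 := hxs (n + 1) {ω | I (e (n + 1)) (T^[s (n + 1)] ω) = i} (by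
      rw [hu _ _ _ (by rw [← hlen]; exact hi), ← hlen]
      have h7 : (0 : ℝ) < (w (n + 1)).length := by exact_mod_cast (hfl (n + 1)).length_pos
      refine one_div_le_one_div_of_le h7 ?_
      exact_mod_cast (Nat.lt_pow_self (by norm_num : 1 < 4)).le)
    refine h2.trans_le (measure_mono fun ω hω => ?_)
    obtain ⟨h3, h4⟩ := hω
    simp only [mem_ofPred_eq] at h3 ⊢
    simp only [X, h3, h1] at h4
    have h5 := (Fl_Hs hc (v n)).lip (by positivity) hy0 hy
    have h6 : |G c (Hs (v n)) y0 - G c (Hs (v n)) y| ≤ 3 / 2 ^ (v n).length := by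
      rw [le_div_iff₀ (by positivity)]
      exact h5.trans (W_dist hy0 hy)
    have h7 : (1 : ℝ) / 4 ^ (w (n + 1)).length ≤ 1 / 2 ^ (v n).length := by
      refine one_div_le_one_div_of_le (by positivity) ?_
      refine (pow_le_pow_left₀ (by norm_num) (by norm_num : (2 : ℝ) ≤ 4) _).trans
        (pow_le_pow_right₀ (by norm_num) ?_)
      rw [hlen', Hs_length]
      simp only [List.length_append]; omega
    have h8 := abs_sub_le (x ω) (G c (Hs (v n)) y0) (G c (Hs (v n)) y)
    rw [abs_sub_comm] at h4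
    have h9 : (4 : ℝ) / 2 ^ (v n).length = 1 / 2 ^ (v n).length + 3 / 2 ^ (v n).length := by ring
    linarith

end Pool.Agent.H859Z.Nm
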