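import Pool.Agent.H859Z.NmF
import Pool.Agent.H859Z.NmDefs

set_option autoImplicit false

namespace Pool.Agent.H859Z.Nm

open Set Filter Topology MeasureTheory

/-- The complex quadratic map with real parameter. -/
noncomputable def F (c : ℝ) : ℂ → ℂ := fun z => z ^ 2 + c

theorem F_real (c x : ℝ) : F c x = (fq c x : ℝ) := by simp [F, fq]

theorem F_iter (c x : ℝ) : ∀ n, (F c)^[n] x = ((fq c)^[n] x : ℝ)
  | 0 => rfl
  | n + 1 => by rw [Function.iterate_succ_apply', Function.iterate_succ_apply', F_iter c x n, F_real]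

theorem F_cont (c : ℝ) : Continuous (F c) := by unfold F; fun_prop

theorem isClosed_julia (f : ℂ → ℂ) : IsClosed (julia f) := by
  rw [julia, isClosed_compl_iff, isOpen_iff_mem_nhds]
  rintro z ⟨U, hU, h⟩
  filter_upwards [eventually_mem_nhds_iff.mpr hU] with z' hz'
  exact ⟨U, hz', h⟩

theorem chord_ge {a b : ℝ} (ha : a ∈ W) (hb : b ∈ W) (h : 1 ≤ |a - b|) :
    1 / 2 ≤ chord a b := by
  have h1 : ∀ y ∈ W, √(1 + ‖(y : ℂ)‖ ^ 2) ≤ 2 := by
    intro y hy
    rw [Complex.norm_real, Real.norm_eq_abs, sq_abs]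
    exact Real.sqrt_le_iff.mpr ⟨by norm_num, by nlinarith [hy.1, hy.2]⟩
  rw [chord, ← Complex.ofReal_sub, Complex.norm_real (a - b), Real.norm_eq_abs,
    le_div_iff₀ (by positivity)]
  have := mul_le_mul (h1 a ha) (h1 b hb) (by positivity) (by norm_num)
  linarith

theorem rep_julia {c : ℝ} (hc : -2 ≤ c) {y : ℝ} (hy : y ∈ Rep c) : (y : ℂ) ∈ julia (F c) := by
  obtain ⟨w, i, hw, rfl⟩ := hy
  rintro ⟨U, hU, h⟩
  obtain ⟨δ, hδ, h1⟩ := h _ (mem_of_mem_nhds hU) (1 / 2) (by norm_num)
  have hq := hw.q_spec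
  obtain ⟨z, hz, hzq⟩ : ∃ z ∈ W, 1 ≤ |z - q c w| := by
    by_cases h0 : 0 ≤ q c w
    · exact ⟨-1, ⟨by norm_num, by norm_num⟩, le_abs.mpr (Or.inr (by linarith))⟩
    · exact ⟨1, ⟨by norm_num, by norm_num⟩, le_abs.mpr (Or.inl (by linarith))⟩
  obtain ⟨j, hj⟩ := pow_unbounded_of_one_lt (4 ^ w.length * 3 / δ) (one_lt_two (α := ℝ))
  rw [← hw.per.iterate_mod_apply] at h1
  have hi := Nat.mod_lt i hw.length_pos
  generalize i % w.length = r at h1 hi
  have hZ := hw.rep zero_le_two j z hz
  have h2 := fwd_lip hc (two_pos.trans_le (hw _ hZ.1).2) (two_pos.trans_le (hw _ hq.1).2)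
    (W_abs hZ.1) (W_abs hq.1) hi.le
  rw [hq.2, ← G_append] at h2
  have h3 := hw.rep_close (j + 1) hz
  rw [rep] at h3
  have h4 := h1 (((fq c)^[r] (G c (w ++ rep w j) z) : ℝ) : ℂ) (by
    rw [← Complex.ofReal_sub, Complex.norm_real, Real.norm_eq_abs]
    refine (h2.trans (mul_le_mul_of_nonneg_left h3 (by positivity))).trans_lt ?_
    rw [div_lt_iff₀ hδ] at hj
    rw [← mul_div_assoc, div_lt_iff₀ (by positivity), pow_succ]
    have : (0 : ℝ) < 2 ^ j * δ := by positivity
    nlinarith) ((j + 1) * w.length - r)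
  have hr : r ≤ (j + 1) * w.length := by nlinarith
  rw [F_iter, F_iter, ← Function.iterate_add_apply, ← Function.iterate_add_apply,
    Nat.sub_add_cancel hr] at h4
  have h5 : (fq c)^[(j + 1) * w.length] (G c (w ++ rep w j) z) = z := by
    rw [← rep_length]
    exact iter_G' (lt_of_lt_of_le (by positivity) (hw.rep zero_le_two (j + 1) z hz).2)
  have h6 : (fq c)^[(j + 1) * w.length] (q c w) = q c w := hw.per.const_mul (j + 1)
  rw [h5, h6] at h4
  exact absurd h4 (not_lt.mpr (chord_ge hz hq.1 hzq))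

theorem Hs_rep (v : List Bool) : ∀ j, Hs (rep v j) = rep (Hs v) j
  | 0 => rfl
  | j + 1 => by rw [rep, rep, Hs_append, Hs_rep v j]

theorem sep_points {c : ℝ} (hc : c ∈ Icc (-2 : ℝ) (-(19 / 10))) :
    ∀ (v v' : List Bool), v.length = v'.length → v ≠ v' → ∀ y ∈ W, ∀ y' ∈ W,
      ∃ i < 2 * v.length, 3 / 5 ≤ |(fq c)^[i] (G c (Hs v) y) - (fq c)^[i] (G c (Hs v') y')|
  | [], [], _, h, _, _, _, _ => absurd rfl h
  | s :: v, s' :: v', hl, h, y, hy, y', hy' => by
    have h1 := Fl_Hs hc v y hy
    have h2 := Fl_Hs hc v' y' hy'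
    by_cases hs : s = s'
    · subst hs
      obtain ⟨i, hi, h3⟩ := sep_points hc v v' (by simpa using hl) (by simpa using h) y hy y' hy'
      refine ⟨i + 2, by simp; omega, ?_⟩
      have e : ∀ (u : List Bool) (x : ℝ), x ∈ W → (fq c)^[2] (G c (Hs (s :: u)) x) = G c (Hs u) x :=
        fun u x hx => iter_G (v := [s, false])
          (lt_of_lt_of_le (by positivity) (Fl_Hs hc (s :: u) x hx).2)
      rwa [Function.iterate_add_apply, Function.iterate_add_apply, e v y hy, e v' y' hy']
    · refine ⟨0, by simp, ?_⟩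
      have h3 := (basic hc s h1.1).1
      have h4 := (basic hc s' h2.1).1
      simp only [Function.iterate_zero_apply, Hs, G_append]
      rw [le_abs]
      cases s <;> cases s' <;>
        simp only [sg, if_true, Bool.false_eq_true, if_false, not_true] at h3 h4 hs
      · right; linarith
      · left; linarith

theorem main : ∃ (c : ℝ) (μ : Measure ℂ), IsNeutral (F c) μ ∧ IsCompact μ.support ∧
    MapsTo (F c) μ.support μ.support ∧ 0 < Dynamics.coverEntropy (F c) μ.support ∧
    μ.support.Infinite ∧ ∃ z ∈ μ.support, (F c)^[2] z = z := by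
  obtain ⟨c, hc, Ω, _, P, _, T, x, hT, hxm, hxT, hxR, hxi, hx0, hxs⟩ := exists_real
  let π : Ω → ℂ := fun ω => (x ω : ℂ)
  have hπ : Measurable π := Complex.measurable_ofReal.comp hxm
  let μ : Measure ℂ := P.map π
  have hμ : IsProbabilityMeasure μ := Measure.isProbabilityMeasure_map hπ.aemeasurable
  have hFm : Measurable (F c) := (F_cont c).measurable
  have hsc : ∀ᵐ ω ∂P, π (T ω) = F c (π ω) := hxT.mono fun ω h => by
    simp only [π, h, F_real]
  have hmp : MeasurePreserving (F c) μ μ := ⟨hFm, by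
    rw [Measure.map_map hFm hπ, ← Measure.map_congr (f := π ∘ T) (g := F c ∘ π) hsc,
      ← Measure.map_map hπ hT.measurable, hT.map_eq]⟩
  have herg : Ergodic (F c) μ := ⟨hmp, ⟨fun s hs hs' => by
    have h1 := hT.quasiErgodic.ae_mem_or_ae_notMem₀ (hπ hs).nullMeasurableSet (by
      filter_upwards [hsc] with ω hω
      show (π (T ω) ∈ s) = (π ω ∈ s)
      rw [hω]
      conv_rhs => rw [← hs']
      rfl)
    rw [eventuallyConst_set]
    rcases h1 with h1 | h1
    · exact Or.inl ((ae_map_iff hπ.aemeasurable hs).mpr h1)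
    · exact Or.inr ((ae_map_iff hπ.aemeasurable hs.compl).mpr h1)⟩⟩
  have hsupp : ∀ t : Set ℂ, IsClosed t → (∀ y ∈ Rep c, (y : ℂ) ∈ t) → μ.support ⊆ t := by
    intro t ht h
    refine Measure.support_subset_of_isClosed ht ?_
    refine (ae_map_iff hπ.aemeasurable ht.measurableSet).mpr (hxR.mono fun ω hω => ?_)
    exact closure_minimal h (ht.preimage Complex.continuous_ofReal) hω
  have hcomp : IsCompact μ.support :=
    (isCompact_closedBall (0 : ℂ) 2).of_isClosed_subset μ.isClosed_support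
      (hsupp _ Metric.isClosed_closedBall (by
        rintro _ ⟨w, i, hw, rfl⟩
        rw [mem_closedBall_zero_iff, Complex.norm_real]
        exact hw.orb_le hc.1 i))
  have hmaps : MapsTo (F c) μ.support μ.support := by
    intro z hz
    rw [Measure.support_eq_forall_isOpen] at hz ⊢
    intro u hu hu'
    rw [← hmp.measure_preimage hu'.measurableSet.nullMeasurableSet]
    exact hz _ hu (hu'.preimage (F_cont c))
  have hper : ∀ v : List Bool, v ≠ [] → ((q c (Hs v) : ℝ) : ℂ) ∈ μ.support := by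
    intro v hv
    have hq := (Fl_Hs hc v).q_spec
    rw [Metric.nhds_basis_closedBall.mem_measureSupport]
    intro ε hε
    obtain ⟨j, hj⟩ := pow_unbounded_of_one_lt (4 / ε) (one_lt_two (α := ℝ))
    have h1 := hxs (rep v j) _ hq.1
    rw [Hs_rep, G_rep_fix hq.2] at h1
    rw [Measure.map_apply hπ Metric.isClosed_closedBall.measurableSet]
    refine h1.trans_le (measure_mono fun ω hω => ?_)
    simp only [mem_preimage, Metric.mem_closedBall, π, Complex.dist_eq, ← Complex.ofReal_sub,
      Complex.norm_real, Real.norm_eq_abs]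
    refine le_trans hω ?_
    have h2 : (2 : ℝ) ^ j ≤ 2 ^ (rep v j).length := by
      refine pow_le_pow_right₀ one_le_two ?_
      rw [rep_length]
      exact Nat.le_mul_of_pos_right _ (List.length_pos_iff.mpr hv)
    rw [div_lt_iff₀ hε] at hj
    rw [div_le_iff₀ (by positivity)]
    nlinarith
  let pt : (n : ℕ) → (Fin (n + 1) → Bool) → ℂ := fun n g => ((q c (Hs (List.ofFn g)) : ℝ) : ℂ)
  have hpt : ∀ n g, pt n g ∈ μ.support := fun n g => hper _ (by simp)
  have hsep : ∀ n g g', g ≠ g' → ∃ i < 2 * (n + 1),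
      3 / 5 ≤ dist ((F c)^[i] (pt n g)) ((F c)^[i] (pt n g')) := by
    intro n g g' hg
    have hq := (Fl_Hs hc (List.ofFn g)).q_spec
    have hq' := (Fl_Hs hc (List.ofFn g')).q_spec
    obtain ⟨i, hi, h⟩ := sep_points hc (List.ofFn g) (List.ofFn g') (by simp)
      (fun h => hg (List.ofFn_injective h)) _ hq.1 _ hq'.1
    rw [hq.2, hq'.2] at h
    refine ⟨i, by simpa using hi, ?_⟩
    simp only [pt, F_iter, Complex.dist_eq, ← Complex.ofReal_sub, Complex.norm_real]
    exact h
  have hinj : ∀ n, Function.Injective (pt n) := by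
    intro n g g' h
    by_contra hg
    obtain ⟨i, -, h1⟩ := hsep n g g' hg
    rw [h, dist_self] at h1
    norm_num at h1
  have hcard : ∀ n, (Finset.univ.image (pt n)).card = 2 ^ (n + 1) := fun n => by
    rw [Finset.card_image_of_injective _ (hinj n)]; simp
  have hinf : μ.support.Infinite := by
    intro hfin
    have h1 := Finset.card_le_card (s := Finset.univ.image (pt hfin.toFinset.card))
      (t := hfin.toFinset) (by
        intro z hz
        obtain ⟨g, -, rfl⟩ := Finset.mem_image.mp hz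
        exact hfin.mem_toFinset.mpr (hpt _ g))
    rw [hcard] at h1
    have := Nat.lt_two_pow_self (n := hfin.toFinset.card + 1)
    omega
  have hent : 0 < Dynamics.coverEntropy (F c) μ.support := by
    refine lt_of_lt_of_le ?_ (Dynamics.netEntropyEntourage_le_coverEntropy (F c) μ.support
      (Metric.dist_mem_uniformity (show (0 : ℝ) < 3 / 10 by norm_num)))
    have h1 : ∀ n, Dynamics.IsDynNetIn (F c) μ.support {p : ℂ × ℂ | dist p.1 p.2 < 3 / 10}
        (2 * (n + 1)) (Finset.univ.image (pt n) : Finset ℂ) := by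
      intro n
      constructor
      · intro z hz
        obtain ⟨g, -, rfl⟩ := Finset.mem_image.mp hz
        exact hpt _ g
      · intro z hz z' hz' hne
        obtain ⟨g, -, rfl⟩ := Finset.mem_image.mp hz
        obtain ⟨g', -, rfl⟩ := Finset.mem_image.mp hz'
        obtain ⟨i, hi, h⟩ := hsep n g g' (fun h => hne (by rw [h]))
        refine Set.disjoint_left.mpr fun a ha ha' => ?_
        have h2 : dist ((F c)^[i] (pt n g)) ((F c)^[i] a) < 3 / 10 :=
          Dynamics.mem_ball_dynEntourage.mp ha i hi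
        have h3 : dist ((F c)^[i] (pt n g')) ((F c)^[i] a) < 3 / 10 :=
          Dynamics.mem_ball_dynEntourage.mp ha' i hi
        have := dist_triangle_right ((F c)^[i] (pt n g)) ((F c)^[i] (pt n g')) ((F c)^[i] a)
        linarith
    refine lt_of_lt_of_le ?_ (ExpGrowth.expGrowthInf_le_expGrowthSup_of_frequently_le
      (u := fun n => (((5 / 4 : NNReal) : ENNReal)) ^ n) ?_)
    · rw [ExpGrowth.expGrowthInf_pow, ENNReal.zero_lt_log_iff]
      exact_mod_cast (by norm_num : (1 : NNReal) < 5 / 4)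
    · refine frequently_atTop.mpr fun n => ⟨2 * (n + 1), by omega, ?_⟩
      have h2 := ENat.toENNReal_mono (h1 n).card_le_netMaxcard
      refine le_trans ?_ h2
      rw [hcard, pow_mul]
      simp only [Nat.cast_pow, Nat.cast_ofNat, ENat.toENNReal_pow, ENat.toENNReal_ofNat]
      refine pow_le_pow_left' ?_ _
      exact_mod_cast (by rw [← NNReal.coe_le_coe]; norm_num : (5 / 4 : NNReal) ^ 2 ≤ 2)
  have hna : ∀ z, μ {z} = 0 := by
    intro z
    by_contra hz
    have h1 : ∀ n, μ {z} ≤ μ {(F c)^[n] z} := fun n => by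
      rw [← (hmp.iterate n).measure_preimage
        (measurableSet_singleton ((F c)^[n] z)).nullMeasurableSet]
      exact measure_mono (by simp)
    have h2 : (range fun n => (F c)^[n] z).Finite := by
      refine (Measure.finite_const_le_meas_of_disjoint_iUnion μ (pos_iff_ne_zero.mpr hz)
        (As := fun a : ℂ => {a}) (fun a => measurableSet_singleton a)
        (fun a b h => by simpa using h) (measure_ne_top _ _)).subset ?_
      rintro _ ⟨n, rfl⟩
      exact h1 n
    have h3 := herg.ae_empty_or_univ_of_ae_le_preimage h2.measurableSet.nullMeasurableSet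
      (LE.le.eventuallyLE (by
        rintro _ ⟨n, rfl⟩
        exact ⟨n + 1, Function.iterate_succ_apply' _ _ _⟩))
    rcases h3 with h3 | h3
    · rw [ae_eq_empty] at h3
      exact hz (measure_mono_null (by rintro _ rfl; exact ⟨0, rfl⟩) h3)
    · rw [ae_eq_univ] at h3
      exact hinf (h2.subset (Measure.support_subset_of_isClosed h2.isClosed h3))
  -- the exponent
  have hg : Continuous fun z : ℂ => Real.log (1 + ‖z‖ ^ 2) :=
    Continuous.log (by fun_prop) fun z => by positivity
  have hgi : Integrable (fun z : ℂ => Real.log (1 + ‖z‖ ^ 2)) μ := by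
    rw [← Measure.restrict_eq_self_of_ae_mem (μ := μ) (s := μ.support) Measure.support_mem_ae]
    exact hg.continuousOn.integrableOn_compact hcomp
  have hgi' : Integrable (fun z : ℂ => Real.log (1 + ‖F c z‖ ^ 2)) μ :=
    (hmp.integrable_comp hg.aestronglyMeasurable).mpr hgi
  have hgI : ∫ z, Real.log (1 + ‖F c z‖ ^ 2) ∂μ = ∫ z, Real.log (1 + ‖z‖ ^ 2) ∂μ := by
    rw [← integral_map hFm.aemeasurable hg.aestronglyMeasurable, hmp.map_eq]
  have hlm : Measurable fun z : ℂ => Real.log (2 * ‖z‖) := by fun_prop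
  have hli : Integrable (fun z : ℂ => Real.log (2 * ‖z‖)) μ := by
    rw [integrable_map_measure hlm.aestronglyMeasurable hπ.aemeasurable]
    simpa [π, Function.comp_def] using hxi
  have hlI : ∫ z, Real.log (2 * ‖z‖) ∂μ = 0 := by
    rw [integral_map hπ.aemeasurable hlm.aestronglyMeasurable]
    simpa [π] using hx0
  have heq : (fun z => Real.log (sphDeriv (F c) z)) =ᵐ[μ] fun z =>
      Real.log (2 * ‖z‖) + Real.log (1 + ‖z‖ ^ 2) - Real.log (1 + ‖F c z‖ ^ 2) := by
    have h0 : ∀ᵐ z ∂μ, z ≠ 0 := by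
      rw [ae_iff]; simpa using hna 0
    filter_upwards [h0] with z hz
    have hd : deriv (F c) z = 2 * z := by
      unfold F; simp
    have hz' : 0 < ‖z‖ := norm_pos_iff.mpr hz
    rw [sphDeriv, hd, norm_mul, Complex.norm_two, Real.log_div (by positivity) (by positivity),
      Real.log_mul (by positivity) (by positivity)]
  refine ⟨c, μ, ⟨hμ, herg, hna, hsupp _ (isClosed_julia _) fun y hy => rep_julia hc.1 hy,
    ((hli.add hgi).sub hgi').congr heq.symm, ?_⟩, hcomp, hmaps, hent, hinf,
    _, hper [true] (by simp), ?_⟩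
  · have hadd : Integrable (fun z : ℂ => Real.log (2 * ‖z‖) + Real.log (1 + ‖z‖ ^ 2)) μ :=
      hli.add hgi
    rw [integral_congr_ae heq, integral_sub hadd hgi', integral_add hli hgi, hlI, hgI]
    ring
  · rw [F_iter]
    exact congrArg _ ((Fl_Hs hc [true]).mono (by norm_num)).per

end Pool.Agent.H859Z.Nm
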