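import Pool.Agent.H859Z.SplNF

set_option autoImplicit false

namespace Pool.Agent.H859Z.Spl

open Equiv

/-- Sign pairing of points: points `2 j` and `2 j + 1` stand for `+ e_j` and `- e_j`. -/
def sg (x y : ℕ) : ℤ := cond (Nat.beq (y / 2) (x / 2)) (cond (Nat.beq y x) 1 (-1)) 0

theorem sg_eq (x y : ℕ) : sg x y = if y / 2 = x / 2 then (if y = x then 1 else -1) else 0 := by
  unfold sg
  by_cases h : y / 2 = x / 2
  · by_cases h' : y = x
    · simp [h']
    · have : Nat.beq y x = false := by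
        rw [← Bool.not_eq_true]; simpa using h'
      simp [h, h', this]
  · have : Nat.beq (y / 2) (x / 2) = false := by
      rw [← Bool.not_eq_true]; simpa using h
    simp [h, this]

def BlockP (off n : ℕ) (f : ℕ → ℕ) : Prop :=
  ∀ k < n, off ≤ f (2 * (off + k)) / 2 ∧ f (2 * (off + k)) / 2 < off + n ∧
    f (2 * (off + k) + 1) / 2 = f (2 * (off + k)) / 2

theorem BlockP.half {off n : ℕ} {f : ℕ → ℕ} (h : BlockP off n f) (y : ℕ) (h1 : off ≤ y / 2)
    (h2 : y / 2 < off + n) : f y / 2 = f (2 * (y / 2)) / 2 ∧ off ≤ f y / 2 ∧ f y / 2 < off + n := by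
  obtain ⟨h3, h4, h5⟩ := h (y / 2 - off) (by omega)
  have e1 : off + (y / 2 - off) = y / 2 := by omega
  rw [e1] at h3 h4 h5
  rcases Nat.mod_two_eq_zero_or_one y with hy | hy
  · have e2 : 2 * (y / 2) = y := by omega
    rw [e2] at h3 h4 ⊢
    exact ⟨rfl, h3, h4⟩
  · have e2 : 2 * (y / 2) + 1 = y := by omega
    rw [e2] at h5
    rw [h5]
    exact ⟨rfl, h3, h4⟩

def blockM (off n : ℕ) : Submonoid (Perm ℕ) where
  carrier := {σ | BlockP off n σ}
  one_mem' := by
    intro k hk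
    simp only [Perm.coe_one, id_eq]
    omega
  mul_mem' := by
    intro σ τ hσ hτ k hk
    obtain ⟨h1, h2, h3⟩ := hτ k hk
    obtain ⟨h4, h5, h6⟩ := BlockP.half hσ _ h1 h2
    obtain ⟨h7, -, -⟩ := BlockP.half hσ (τ (2 * (off + k) + 1)) (by omega) (by omega)
    simp only [Perm.mul_apply]
    refine ⟨h5, h6, ?_⟩
    rw [h7, h4, h3]

def blockMat (off n : ℕ) (f : ℕ → ℕ) : Matrix (Fin n) (Fin n) ℚ :=
  Matrix.of fun j k => (sg (2 * (off + j)) (f (2 * (off + k))) : ℚ)

theorem blockMat_mul {off n : ℕ} {σ τ : Perm ℕ} (hσ : BlockP off n σ) (hτ : BlockP off n τ) :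
    blockMat off n (σ * τ : Perm ℕ) = blockMat off n σ * blockMat off n τ := by
  ext j k
  obtain ⟨h1, h2, -⟩ := hτ k k.2
  simp only [blockMat, Matrix.of_apply, Matrix.mul_apply, Perm.mul_apply]
  generalize τ (2 * (off + k)) = y at h1 h2 ⊢
  let l : Fin n := ⟨y / 2 - off, by omega⟩
  have hl : off + (l : ℕ) = y / 2 := by simp only [l]; omega
  rw [Finset.sum_eq_single l]
  · rw [hl, sg_eq (2 * (y / 2)) y, if_pos (by omega)]
    by_cases hy : y = 2 * (y / 2)
    · rw [if_pos hy, ← hy]; simp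
    · rw [if_neg hy]
      obtain ⟨h4, -, -⟩ := BlockP.half hσ y h1 h2
      have h5 : σ y ≠ σ (2 * (y / 2)) := fun h => hy (σ.injective h)
      rw [sg_eq, sg_eq]
      generalize σ y = a at h4 h5
      generalize σ (2 * (y / 2)) = b at h4 h5
      split_ifs <;> first | simp; done | (exfalso; omega)
  · intro m _ hm
    have : (m : ℕ) ≠ l := fun h => hm (Fin.ext h)
    rw [sg_eq (2 * (off + m)) y, if_neg (by omega)]
    simp
  · simp

theorem blockMat_one (off n : ℕ) : blockMat off n (1 : Perm ℕ) = 1 := by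
  ext j k
  simp only [blockMat, Matrix.of_apply, Perm.coe_one, id_eq, sg_eq, Matrix.one_apply]
  by_cases h : j = k
  · subst h; simp
  · have : (j : ℕ) ≠ k := fun h' => h (Fin.ext h')
    rw [if_neg (by omega), if_neg h]; simp

/-- The signed permutation representation on a block. -/
def blockRep (G : Subgroup (Perm ℕ)) (off n : ℕ) (h : ∀ σ ∈ G, BlockP off n σ) : MRep G where
  n := n
  ρ :=
    { toFun := fun σ => blockMat off n (σ : Perm ℕ)
      map_one' := blockMat_one off n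
      map_mul' := fun σ τ => blockMat_mul (h _ σ.2) (h _ τ.2) }

def tb (f : ℕ → ℕ) (off : ℕ) : ℕ → ℤ
  | 0 => 0
  | k + 1 => sg (2 * (off + k)) (f (2 * (off + k))) + tb f off k

theorem tb_eq (f : ℕ → ℕ) (off : ℕ) : ∀ n, tb f off n =
    ∑ k ∈ Finset.range n, sg (2 * (off + k)) (f (2 * (off + k)))
  | 0 => rfl
  | n + 1 => by rw [tb, tb_eq f off n, Finset.sum_range_succ, add_comm]

@[simp] theorem blockRep_n (G : Subgroup (Perm ℕ)) (off n : ℕ) (h : ∀ σ ∈ G, BlockP off n σ) :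
    (blockRep G off n h).n = n := rfl

@[simp] theorem blockRep_tr (G : Subgroup (Perm ℕ)) (off n : ℕ) (h : ∀ σ ∈ G, BlockP off n σ)
    (σ : G) : (blockRep G off n h).tr σ = (tb (fun i => (σ : Perm ℕ) i) off n : ℚ) := by
  rw [tb_eq, Finset.sum_range]
  push_cast
  rfl

/-! ### The two dimensional representation -/

def mA : Matrix (Fin 2) (Fin 3) ℚ := !![1, 0, 0; 0, 1, 0]
def mB : Matrix (Fin 3) (Fin 2) ℚ := !![1, 0; 0, 1; -1, -1]

def ColOne (M : Matrix (Fin 3) (Fin 3) ℚ) : Prop := ∀ k, M 0 k + M 1 k + M 2 k = 1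

theorem BA_fix {M : Matrix (Fin 3) (Fin 3) ℚ} (h : ColOne M) : mB * (mA * (M * mB)) = M * mB := by
  have h0 := h 0
  have h1 := h 1
  have h2 := h 2
  ext i j
  fin_cases i <;> fin_cases j <;>
    simp only [Matrix.mul_apply, Fin.sum_univ_three, Fin.sum_univ_two] <;> simp [mA, mB] <;> linarith

def stdRep {G : Type} [Group G] (ρ : G →* Matrix (Fin 3) (Fin 3) ℚ) (h : ∀ g, ColOne (ρ g)) :
    MRep G where
  n := 2
  ρ :=
    { toFun := fun g => mA * (ρ g * mB)
      map_one' := by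
        rw [map_one]
        ext i j
        fin_cases i <;> fin_cases j <;> simp [mA, mB, Matrix.mul_apply, Fin.sum_univ_succ]
      map_mul' := fun g k => by
        rw [map_mul, Matrix.mul_assoc mA, Matrix.mul_assoc (ρ g) mB, BA_fix (h k),
          Matrix.mul_assoc] }

@[simp] theorem stdRep_n {G : Type} [Group G] (ρ : G →* Matrix (Fin 3) (Fin 3) ℚ)
    (h : ∀ g, ColOne (ρ g)) : (stdRep ρ h).n = 2 := rfl

theorem stdRep_tr {G : Type} [Group G] (ρ : G →* Matrix (Fin 3) (Fin 3) ℚ)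
    (h : ∀ g, ColOne (ρ g)) (g : G) : (stdRep ρ h).tr g = Matrix.trace (ρ g) - 1 := by
  show Matrix.trace (mA * (ρ g * mB)) = _
  have h2 := h g 2
  simp only [Matrix.trace, Matrix.diag_apply, Matrix.mul_apply, Fin.sum_univ_three, Fin.sum_univ_two]
  simp [mA, mB]
  linarith

def EvenP (f : ℕ → ℕ) : Prop :=
  ∀ y, y = 4 ∨ y = 6 ∨ y = 8 → f y = 4 ∨ f y = 6 ∨ f y = 8

def evenM : Submonoid (Perm ℕ) where
  carrier := {σ | EvenP σ}
  one_mem' := fun _ hy => hy
  mul_mem' := fun hσ hτ y hy => hσ _ (hτ y hy)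

theorem colOne_of_even {f : ℕ → ℕ} (h : EvenP f) : ColOne (blockMat 2 3 f) := by
  intro k
  have hk : 2 * (2 + (k : ℕ)) = 4 ∨ 2 * (2 + (k : ℕ)) = 6 ∨ 2 * (2 + (k : ℕ)) = 8 := by omega
  simp only [blockMat, Matrix.of_apply]
  rcases h _ hk with h | h | h <;> rw [h] <;> simp [sg_eq]

def blockB (off n T : ℕ) : Bool := (List.range n).all fun k =>
  Nat.ble off (look T (2 * (off + k)) / 2) && Nat.blt (look T (2 * (off + k)) / 2) (off + n) &&
    Nat.beq (look T (2 * (off + k) + 1) / 2) (look T (2 * (off + k)) / 2)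

theorem block_of_check (D : List Lvl) (hD : chainB D = true) (off n : ℕ)
    (h : (D.map Lvl.T).all (blockB off n) = true) : ∀ σ ∈ cl (toL D), BlockP off n σ := by
  obtain ⟨h1, h2⟩ := chainB_spec D hD
  refine cl_le_submonoid (blockM off n) _ h1 ?_
  intro b hb
  rw [toL_fst] at hb
  obtain ⟨T, hT, rfl⟩ := List.mem_map.mp hb
  intro k hk
  have h3 := List.all_eq_true.mp (List.all_eq_true.mp h T hT) k (List.mem_range.mpr hk)
  simp only [Bool.and_eq_true, Nat.ble_eq, Nat.blt_eq, Nat.beq_eq] at h3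
  simp only [toPerm_apply (h2 T hT)]
  exact ⟨h3.1.1, h3.1.2, h3.2⟩

def evenB (T : ℕ) : Bool := [4, 6, 8].all fun y => [4, 6, 8].any fun z => Nat.beq (look T y) z

theorem even_of_check (D : List Lvl) (hD : chainB D = true)
    (h : (D.map Lvl.T).all evenB = true) : ∀ σ ∈ cl (toL D), EvenP σ := by
  obtain ⟨h1, h2⟩ := chainB_spec D hD
  refine cl_le_submonoid evenM _ h1 ?_
  intro b hb
  rw [toL_fst] at hb
  obtain ⟨T, hT, rfl⟩ := List.mem_map.mp hb
  intro y hy
  have h3 := List.all_eq_true.mp (List.all_eq_true.mp h T hT) y (by simpa using hy)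
  simp only [toPerm_apply (h2 T hT)]
  simpa using h3

end Pool.Agent.H859Z.Spl
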