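import Pool.Agent.H859Z.SplData

set_option autoImplicit false

namespace Pool.Agent.H859Z.Spl

open Equiv

noncomputable def GG : Subgroup (Perm ℕ) := cl (toL DG)
noncomputable def SS : Subgroup (Perm ℕ) := cl (toL DS)

theorem ne_one_of_reg (D : List Lvl) (hD : chainB D = true)
    (h : allNF D (fun z f => z || decide (Phi f = 0)) = true) :
    ∀ x, (false, x) ∈ NF (toL D) → x ≠ 1 := by
  intro x hx h1
  have h2 := allNF_spec D _ (chainB_spec D hD).2 h _ hx
  subst h1
  have h3 : Phi (fun i => i) = 0 := of_decide_eq_true (by simpa using h2)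
  rw [Phi_one] at h3
  exact absurd h3 (by norm_num)

theorem card_G : Finite GG ∧ Nat.card GG = 1536 :=
  card_cl _ (chainB_spec DG chain_G).1 (ne_one_of_reg DG chain_G reg_G)

theorem card_S : Finite SS ∧ Nat.card SS = 512 :=
  card_cl _ (chainB_spec DS chain_S).1 (ne_one_of_reg DS chain_S reg_S)

instance : Finite GG := card_G.1
instance : Finite SS := card_S.1

theorem Phi_G (σ : GG) (h : σ ≠ 1) : Phi (fun i => (σ : Perm ℕ) i) = 0 := by
  obtain ⟨zx, h1, h2⟩ := List.mem_map.mp ((mem_cl_iff _ (chainB_spec DG chain_G).1 _).mp σ.2)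
  have h3 := allNF_spec DG _ (chainB_spec DG chain_G).2 reg_G _ h1
  obtain ⟨z, x⟩ := zx
  simp only at h2
  subst h2
  cases z
  · simpa using h3
  · exact absurd (Subtype.ext (NF_flag _ _ h1)) h

theorem blk (off n : ℕ) (h : (off, n) ∈ offs) : ∀ σ ∈ GG, BlockP off n σ :=
  block_of_check DG chain_G off n (List.all_eq_true.mp blocks_G _ h)

noncomputable def B (off n : ℕ) (h : (off, n) ∈ offs) : MRep GG := blockRep GG off n (blk off n h)

@[simp] theorem B_n (off n : ℕ) (h : (off, n) ∈ offs) : (B off n h).n = n := rfl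

@[simp] theorem B_tr (off n : ℕ) (h : (off, n) ∈ offs) (σ : GG) :
    (B off n h).tr σ = (tb (fun i => (σ : Perm ℕ) i) off n : ℚ) := blockRep_tr _ _ _ _ _

noncomputable def St : MRep GG := stdRep (B 2 3 (by decide)).ρ
  (fun σ => colOne_of_even (even_of_check DG chain_G even_G σ σ.2))

@[simp] theorem St_n : St.n = 2 := rfl

@[simp] theorem St_tr (σ : GG) : St.tr σ = (tb (fun i => (σ : Perm ℕ) i) 2 3 : ℚ) - 1 := by
  rw [← B_tr 2 3 (by decide)]
  exact stdRep_tr _ _ _

noncomputable def ra : MRep GG := B 0 1 (by decide)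
noncomputable def re : MRep GG := B 1 1 (by decide)

noncomputable def four (A : MRep GG) : List (MRep GG) :=
  [A, A.tens ra, A.tens re, (A.tens ra).tens re]

noncomputable def reps : List (MRep GG) :=
  four (MRep.one GG) ++ four (B 5 3 (by decide)) ++ four (B 8 3 (by decide)) ++
  four (B 11 3 (by decide)) ++ four (B 14 4 (by decide)) ++
  [St, St.tens re, St.tens (B 14 4 (by decide)), (St.tens re).tens (B 14 4 (by decide)),
   B 18 6 (by decide), (B 18 6 (by decide)).tens ra,
   B 24 6 (by decide), (B 24 6 (by decide)).tens ra,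
   B 30 6 (by decide), (B 30 6 (by decide)).tens ra,
   B 36 6 (by decide), (B 36 6 (by decide)).tens ra,
   B 42 6 (by decide), (B 42 6 (by decide)).tens re,
   B 48 12 (by decide), B 60 12 (by decide),
   (B 18 6 (by decide)).tens (B 14 4 (by decide))]

theorem split_G : IsSplit GG := by
  refine split_of_list reps ?_ ?_
  · rw [card_G.2]
    simp [reps, four, ra, re]
  · intro σ hσ
    have h := Phi_G σ hσ
    have h2 : ((Phi (fun i => (σ : Perm ℕ) i) : ℤ) : ℚ) = 0 := by rw [h]; simp
    rw [← h2]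
    simp only [reps, four, ra, re, List.map_append, List.map_cons, List.map_nil, List.sum_append,
      List.sum_cons, List.sum_nil, MRep.tens_n, MRep.tens_tr, MRep.one_n, MRep.one_tr, B_n, B_tr,
      St_n, St_tr, Phi]
    push_cast
    ring

theorem S_le_G : SS ≤ GG := by
  refine Subgroup.closure_mono ?_
  intro x hx
  simp only [Set.mem_ofPred_eq, toL, DS, DG, List.map_cons, List.mem_cons] at hx ⊢
  tauto

noncomputable def xx : Perm ℕ := ([T3, T6].map toPerm).prod

theorem xx_mem : xx ∈ SS := word_mem_cl DS _ (by simp [DS, DP])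

theorem xx_apply (i : ℕ) : xx i = wordF [T3, T6] i :=
  word_apply _ (fun T hT => (chainB_spec DS chain_S).2 T (by
    simp only [List.mem_cons, List.not_mem_nil, or_false] at hT
    rcases hT with rfl | rfl <;> simp [DS, DP])) i

theorem xx_nonreal (y : Perm ℕ) (hy : y ∈ SS) : xx * y * xx ≠ y := by
  intro h
  obtain ⟨zx, h1, h2⟩ := List.mem_map.mp ((mem_cl_iff _ (chainB_spec DS chain_S).1 _).mp hy)
  have h3 := allNF_spec DS _ (chainB_spec DS chain_S).2 nonreal_S _ h1
  rw [h2] at h3
  have h4 : ∀ i, wordF [T3, T6] (y (wordF [T3, T6] i)) = y i := by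
    intro i
    rw [← xx_apply, ← xx_apply]
    exact congrArg (fun σ : Perm ℕ => σ i) h
  simp [h4] at h3

noncomputable def PP : Sylow 2 GG := Sylow.ofCard (SS.subgroupOf GG) (by
  rw [Nat.card_congr (Subgroup.subgroupOfEquivOfLe S_le_G).toEquiv, card_S.2, card_G.2]
  have : (1536 : ℕ) = 2 ^ 9 * 3 := by norm_num
  rw [this, Nat.factorization_mul (by norm_num) (by norm_num), Nat.Prime.factorization_pow Nat.prime_two,
    Nat.Prime.factorization Nat.prime_three]
  simp)

theorem not_split_P : ¬ IsSplit (PP : Subgroup GG) := by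
  intro h
  have hx : (⟨xx, S_le_G xx_mem⟩ : GG) ∈ (PP : Subgroup GG) := xx_mem
  obtain ⟨y, hy⟩ := real_of_split h ⟨_, hx⟩
  exact xx_nonreal y.1.1 y.2 (congrArg (fun a : (PP : Subgroup GG) => a.1.1) hy)

end Pool.Agent.H859Z.Spl
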