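import Pool.Agent.H859Z.Split

set_option autoImplicit false

namespace Pool.Agent.H859Z.Spl

open Equiv

section Abstract
variable {Γ : Type} [Group Γ]

/-- Normal forms `a^e * h`, with a flag telling whether all exponents vanish. -/
def NF : List (Γ × ℕ) → List (Bool × Γ)
  | [] => [(true, 1)]
  | (a, p) :: L => NF L ++ (List.range (p - 1)).flatMap
      (fun e => (NF L).map (fun zh => (false, a ^ (e + 1) * zh.2)))

def cl (L : List (Γ × ℕ)) : Subgroup Γ := Subgroup.closure {x | x ∈ L.map Prod.fst}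

def Chain : List (Γ × ℕ) → Prop
  | [] => True
  | (a, p) :: L => 0 < p ∧ a ^ p ∈ cl L ∧ (∀ b ∈ L.map Prod.fst, a⁻¹ * b * a ∈ cl L) ∧ Chain L

theorem mem_NF_cons {a : Γ} {p : ℕ} {L : List (Γ × ℕ)} (hp : 0 < p) (x : Γ) :
    x ∈ (NF ((a, p) :: L)).map Prod.snd ↔
      ∃ e < p, ∃ h ∈ (NF L).map Prod.snd, x = a ^ e * h := by
  simp only [NF, List.map_append, List.mem_append, List.mem_map, List.mem_flatMap, List.mem_range]
  constructor
  · rintro (⟨zh, h1, rfl⟩ | ⟨_, ⟨e, he, zh, h1, rfl⟩, rfl⟩)
    · exact ⟨0, hp, _, ⟨zh, h1, rfl⟩, by simp⟩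
    · exact ⟨e + 1, by omega, _, ⟨zh, h1, rfl⟩, rfl⟩
  · rintro ⟨e, he, _, ⟨zh, h1, rfl⟩, rfl⟩
    rcases e with _ | e
    · exact Or.inl ⟨zh, h1, by simp⟩
    · exact Or.inr ⟨_, ⟨e, by omega, zh, h1, rfl⟩, rfl⟩

theorem cl_le_cons (ap : Γ × ℕ) (L : List (Γ × ℕ)) : cl L ≤ cl (ap :: L) :=
  Subgroup.closure_mono fun x hx => by
    simp only [List.map_cons, Set.mem_ofPred_eq, List.mem_cons] at hx ⊢
    exact Or.inr hx

theorem mem_cl_iff : ∀ (L : List (Γ × ℕ)), Chain L → ∀ x, x ∈ cl L ↔ x ∈ (NF L).map Prod.snd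
  | [], _, x => by simp [cl, NF]
  | (a, p) :: L, ⟨hp, hpow, hconj, hL⟩, x => by
    have ih := mem_cl_iff L hL
    rw [mem_NF_cons hp]
    simp only [← ih]
    have ha : a ∈ cl ((a, p) :: L) := Subgroup.subset_closure (by simp)
    constructor
    · intro hx
      have hc1 : ∀ h ∈ cl L, a⁻¹ * h * a ∈ cl L := by
        intro h hh
        induction hh using Subgroup.closure_induction with
        | mem b hb => exact hconj b hb
        | one => simp
        | mul x y _ _ hx hy =>
          have : a⁻¹ * (x * y) * a = (a⁻¹ * x * a) * (a⁻¹ * y * a) := by group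
          rw [this]; exact mul_mem hx hy
        | inv x _ hx =>
          have : a⁻¹ * x⁻¹ * a = (a⁻¹ * x * a)⁻¹ := by group
          rw [this]; exact inv_mem hx
      have hc : ∀ (f : ℕ), ∀ h ∈ cl L, (a ^ f)⁻¹ * h * a ^ f ∈ cl L := by
        intro f
        induction f with
        | zero => intro h hh; simpa using hh
        | succ f ihf =>
          intro h hh
          have : (a ^ (f + 1))⁻¹ * h * a ^ (f + 1) = a⁻¹ * ((a ^ f)⁻¹ * h * a ^ f) * a := by group
          rw [this]; exact hc1 _ (ihf h hh)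
      have hred : ∀ (e : ℕ), ∀ h ∈ cl L, ∃ e' < p, ∃ h' ∈ cl L, a ^ e * h = a ^ e' * h' := by
        intro e h hh
        refine ⟨e % p, Nat.mod_lt _ hp, (a ^ p) ^ (e / p) * h, mul_mem (pow_mem hpow _) hh, ?_⟩
        rw [← mul_assoc, ← pow_mul, ← pow_add, Nat.mod_add_div]
      have hmul : ∀ x y : Γ, (∃ e < p, ∃ h ∈ cl L, x = a ^ e * h) →
          (∃ e < p, ∃ h ∈ cl L, y = a ^ e * h) → (∃ e < p, ∃ h ∈ cl L, x * y = a ^ e * h) := by
        rintro _ _ ⟨e, _, h, hh, rfl⟩ ⟨f, _, k, hk, rfl⟩
        have : a ^ e * h * (a ^ f * k) = a ^ (e + f) * (((a ^ f)⁻¹ * h * a ^ f) * k) := by group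
        rw [this]
        exact hred _ _ (mul_mem (hc f h hh) hk)
      induction hx using Subgroup.closure_induction with
      | mem b hb =>
        simp only [List.map_cons, Set.mem_ofPred_eq, List.mem_cons] at hb
        rcases hb with rfl | hb
        · simpa using hred 1 1 (one_mem _)
        · exact ⟨0, hp, b, Subgroup.subset_closure hb, by simp⟩
      | one => exact ⟨0, hp, 1, one_mem _, by simp⟩
      | mul x y _ _ hx hy => exact hmul x y hx hy
      | inv x _ hx =>
        obtain ⟨e, he, h, hh, rfl⟩ := hx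
        have : (a ^ e * h)⁻¹ = h⁻¹ * (a ^ (p - e) * (a ^ p)⁻¹) := by
          obtain ⟨d, rfl⟩ : ∃ d, p = d + e := ⟨p - e, by omega⟩
          rw [Nat.add_sub_cancel]; group
        rw [this]
        exact hmul _ _ ⟨0, hp, h⁻¹, inv_mem hh, by simp⟩ (hred _ _ (inv_mem hpow))
    · rintro ⟨e, _, h, hh, rfl⟩
      exact mul_mem (pow_mem ha _) (cl_le_cons _ _ hh)

theorem NF_flag : ∀ (L : List (Γ × ℕ)) (x : Γ), (true, x) ∈ NF L → x = 1
  | [], x, h => by simpa [NF] using h
  | (a, p) :: L, x, h => by
    simp only [NF, List.mem_append, List.mem_flatMap, List.mem_map] at h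
    rcases h with h | ⟨_, _, _, _, h⟩
    · exact NF_flag L x h
    · simp at h

theorem NF_length : ∀ (L : List (Γ × ℕ)), Chain L → (NF L).length = (L.map Prod.snd).prod
  | [], _ => rfl
  | (a, p) :: L, ⟨hp, _, _, hL⟩ => by
    have ih := NF_length L hL
    simp only [NF, List.length_append, List.length_flatMap, List.length_map, List.map_const',
      List.length_range, List.sum_replicate, smul_eq_mul, List.map_cons, List.prod_cons, ih]
    obtain ⟨q, rfl⟩ : ∃ q, p = q + 1 := ⟨p - 1, by omega⟩
    simp; ring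

theorem NF_nodup : ∀ (L : List (Γ × ℕ)), Chain L → (∀ x, (false, x) ∈ NF L → x ≠ 1) →
    ((NF L).map Prod.snd).Nodup
  | [], _, _ => by simp [NF]
  | (a, p) :: L, ⟨hp, hpow, hconj, hL⟩, h => by
    have ih := NF_nodup L hL (fun x hx => h x (by simp only [NF, List.mem_append]; exact Or.inl hx))
    have key : ∀ e, e < p - 1 → ∀ k ∈ cl L, a ^ (e + 1) * k ≠ 1 := by
      intro e he k hk
      obtain ⟨zh, h1, rfl⟩ := List.mem_map.mp ((mem_cl_iff L hL k).mp hk)
      refine h _ ?_
      simp only [NF, List.mem_append, List.mem_flatMap, List.mem_map, List.mem_range]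
      exact Or.inr ⟨e, he, zh, h1, rfl⟩
    have key2 : ∀ e f, e < f → f < p → ∀ k ∈ (NF L).map Prod.snd, ∀ k' ∈ (NF L).map Prod.snd,
        a ^ e * k ≠ a ^ f * k' := by
      intro e f hef hf k hk k' hk' heq
      obtain ⟨d, rfl⟩ : ∃ d, f = e + (d + 1) := ⟨f - e - 1, by omega⟩
      refine key d (by omega) (k' * k⁻¹)
        (mul_mem ((mem_cl_iff L hL _).mpr hk') (inv_mem ((mem_cl_iff L hL _).mpr hk))) ?_
      rw [pow_add, mul_assoc] at heq
      rw [← mul_assoc, ← mul_left_cancel heq]; simp
    have hmap : ∀ e : ℕ, ((NF L).map (fun zh => ((false, a ^ (e + 1) * zh.2) : Bool × Γ))).map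
        Prod.snd = ((NF L).map Prod.snd).map (fun k => a ^ (e + 1) * k) := by
      intro e; simp [List.map_map, Function.comp_def]
    simp only [NF, List.map_append, List.map_flatMap, hmap]
    rw [List.nodup_append]
    refine ⟨ih, ?_, ?_⟩
    · rw [List.nodup_flatMap]
      refine ⟨fun e _ => ih.map (mul_right_injective _), ?_⟩
      refine List.Pairwise.imp_of_mem ?_ (List.pairwise_lt_range (n := p - 1))
      intro e f _ hf hef
      rw [List.mem_range] at hf
      intro x hx hx'
      obtain ⟨k, hk, rfl⟩ := List.mem_map.mp hx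
      obtain ⟨k', hk', h2⟩ := List.mem_map.mp hx'
      exact key2 (e + 1) (f + 1) (by omega) (by omega) k hk k' hk' h2.symm
    · intro x hx y hy hxy
      obtain ⟨e, he, hy⟩ := List.mem_flatMap.mp hy
      obtain ⟨k', hk', h2⟩ := List.mem_map.mp hy
      rw [List.mem_range] at he
      exact key2 0 (e + 1) (by omega) (by omega) x hx k' hk' (by rw [h2, hxy]; simp)

theorem card_cl (L : List (Γ × ℕ)) (hL : Chain L) (h : ∀ x, (false, x) ∈ NF L → x ≠ 1) :
    Finite (cl L) ∧ Nat.card (cl L) = (L.map Prod.snd).prod := by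
  classical
  have h1 : ((cl L : Subgroup Γ) : Set Γ) = (((NF L).map Prod.snd).toFinset : Set Γ) := by
    ext x; simp only [SetLike.mem_coe, mem_cl_iff L hL, List.coe_toFinset, Set.mem_ofPred_eq]
  constructor
  · show Finite ((cl L : Subgroup Γ) : Set Γ)
    rw [h1]; infer_instance
  · show Nat.card ((cl L : Subgroup Γ) : Set Γ) = _
    rw [h1, Nat.card_coe_set_eq, Set.ncard_coe_finset, List.toFinset_card_of_nodup (NF_nodup L hL h),
      List.length_map, NF_length L hL]

theorem NF_mem_submonoid (M : Submonoid Γ) : ∀ (L : List (Γ × ℕ)),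
    (∀ b ∈ L.map Prod.fst, b ∈ M) → ∀ zx ∈ NF L, zx.2 ∈ M
  | [], _, zx, h => by
    simp only [NF, List.mem_singleton] at h
    subst h; exact one_mem _
  | (a, p) :: L, hb, zx, h => by
    have ih := NF_mem_submonoid M L (fun b h => hb b (by simp only [List.map_cons, List.mem_cons]; exact Or.inr h))
    simp only [NF, List.mem_append, List.mem_flatMap, List.mem_map] at h
    rcases h with h | ⟨e, _, zh, h, rfl⟩
    · exact ih _ h
    · exact mul_mem (pow_mem (hb a (by simp)) _) (ih _ h)

theorem cl_le_submonoid (M : Submonoid Γ) (L : List (Γ × ℕ)) (hL : Chain L)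
    (hb : ∀ b ∈ L.map Prod.fst, b ∈ M) : ∀ x ∈ cl L, x ∈ M := by
  intro x hx
  obtain ⟨zx, h1, rfl⟩ := List.mem_map.mp ((mem_cl_iff L hL x).mp hx)
  exact NF_mem_submonoid M L hb zx h1

end Abstract

/-! ### Tables -/

/-- Table lookup on the first 144 points, identity beyond. -/
def look (T i : ℕ) : ℕ := cond (Nat.blt i 144) ((T >>> (8 * i)) % 256) i

theorem look_ge (T i : ℕ) (h : 144 ≤ i) : look T i = i := by
  have : Nat.blt i 144 = false := by
    rw [← Bool.not_eq_true, Nat.blt_eq]; omega
  simp [look, this]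

open Classical in
noncomputable def toPerm (T : ℕ) : Perm ℕ :=
  if h : Function.Bijective (look T) then Equiv.ofBijective _ h else 1

def wordF : List ℕ → ℕ → ℕ
  | [], i => i
  | T :: w, i => look T (wordF w i)

theorem wordF_ge : ∀ (w : List ℕ) (i : ℕ), 144 ≤ i → wordF w i = i
  | [], _, _ => rfl
  | T :: w, i, h => by rw [wordF, wordF_ge w i h, look_ge _ _ h]

def eqB (w w' : List ℕ) : Bool := (List.range 144).all (fun i => Nat.beq (wordF w i) (wordF w' i))

theorem eqB_spec {w w' : List ℕ} (h : eqB w w' = true) (i : ℕ) : wordF w i = wordF w' i := by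
  by_cases hi : i < 144
  · have := List.all_eq_true.mp h i (List.mem_range.mpr hi)
    simpa using this
  · rw [wordF_ge _ _ (by omega), wordF_ge _ _ (by omega)]

def bijB (T : ℕ) : Bool := eqB (List.replicate 12 T) []

theorem wordF_replicate (T : ℕ) : ∀ (n i : ℕ), wordF (List.replicate n T) i = (look T)^[n] i
  | 0, _ => rfl
  | n + 1, i => by
    rw [List.replicate_succ, wordF, wordF_replicate T n i, Function.iterate_succ_apply']

theorem toPerm_apply {T : ℕ} (h : bijB T = true) (i : ℕ) : toPerm T i = look T i := by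
  have h1 : ∀ i, (look T)^[12] i = i := fun i => by
    rw [← wordF_replicate]; exact eqB_spec h i
  have h2 : Function.Bijective (look T) := by
    rw [Function.bijective_iff_has_inverse]
    refine ⟨(look T)^[11], fun i => ?_, fun i => ?_⟩
    · rw [← Function.iterate_succ_apply]; exact h1 i
    · rw [← Function.iterate_succ_apply' (look T)]; exact h1 i
  simp [toPerm, h2]

theorem word_apply : ∀ (w : List ℕ), (∀ T ∈ w, bijB T = true) →
    ∀ i, (w.map toPerm).prod i = wordF w i
  | [], _, _ => rfl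
  | T :: w, h, i => by
    rw [List.map_cons, List.prod_cons, Perm.mul_apply, word_apply w (fun T' h' => h T' (by simp [h'])),
      toPerm_apply (h T (by simp)), wordF]

theorem word_eq {w w' : List ℕ} (h : eqB w w' = true) (hw : ∀ T ∈ w, bijB T = true)
    (hw' : ∀ T ∈ w', bijB T = true) : (w.map toPerm).prod = (w'.map toPerm).prod := by
  ext i; rw [word_apply w hw, word_apply w' hw', eqB_spec h]

structure Lvl where
  T : ℕ
  p : ℕ
  pw : List ℕ
  cw : List (List ℕ)

def res (Ts : List ℕ) (w : List ℕ) : List ℕ := w.map (fun j => Ts.getD j 0)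

def valid (Ts : List ℕ) (w : List ℕ) : Bool := w.all (fun j => Nat.blt j Ts.length)

def conjB (T : ℕ) (Ts : List ℕ) : List ℕ → List (List ℕ) → Bool
  | [], _ => true
  | _ :: _, [] => false
  | b :: bs, w :: ws => valid Ts w && eqB [b, T] (T :: res Ts w) && conjB T Ts bs ws

def chainB : List Lvl → Bool
  | [] => true
  | d :: D => chainB D && bijB d.T && Nat.blt 0 d.p && valid (D.map Lvl.T) d.pw &&
      eqB (List.replicate d.p d.T) (res (D.map Lvl.T) d.pw) &&
      conjB d.T (D.map Lvl.T) (D.map Lvl.T) d.cw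

noncomputable def toL (D : List Lvl) : List (Perm ℕ × ℕ) := D.map (fun d => (toPerm d.T, d.p))

theorem toL_fst (D : List Lvl) : (toL D).map Prod.fst = (D.map Lvl.T).map toPerm := by
  simp [toL, List.map_map, Function.comp_def]

theorem res_mem {Ts w : List ℕ} (h : valid Ts w = true) : ∀ T ∈ res Ts w, T ∈ Ts := by
  intro T hT
  obtain ⟨j, hj, rfl⟩ := List.mem_map.mp hT
  have := List.all_eq_true.mp h j hj
  rw [Nat.blt_eq] at this
  rw [List.getD_eq_getElem _ _ this]
  exact List.getElem_mem _

theorem word_mem_cl (D : List Lvl) (w : List ℕ) (h : ∀ T ∈ w, T ∈ D.map Lvl.T) :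
    (w.map toPerm).prod ∈ cl (toL D) := by
  refine Subgroup.list_prod_mem _ fun x hx => ?_
  obtain ⟨T, hT, rfl⟩ := List.mem_map.mp hx
  refine Subgroup.subset_closure ?_
  rw [Set.mem_ofPred_eq, toL_fst]
  exact List.mem_map_of_mem (h T hT)

theorem conjB_spec (D : List Lvl) (hD : ∀ T ∈ D.map Lvl.T, bijB T = true) (T : ℕ)
    (hT : bijB T = true) : ∀ (bs : List ℕ) (ws : List (List ℕ)), (∀ b ∈ bs, bijB b = true) →
      conjB T (D.map Lvl.T) bs ws = true →
      ∀ b ∈ bs, (toPerm T)⁻¹ * toPerm b * toPerm T ∈ cl (toL D)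
  | [], _, _, _, b, hb => by simp at hb
  | _ :: _, [], _, h, _, _ => by simp [conjB] at h
  | b :: bs, w :: ws, hbs, h, b', hb' => by
    simp only [conjB, Bool.and_eq_true] at h
    obtain ⟨⟨h1, h2⟩, h3⟩ := h
    rcases List.mem_cons.mp hb' with rfl | hb'
    · have h4 := word_eq h2 (by
          intro T' hT'
          simp only [List.mem_cons, List.not_mem_nil, or_false] at hT'
          rcases hT' with rfl | rfl
          · exact hbs _ (by simp)
          · exact hT) (by
          intro T' hT'
          rcases List.mem_cons.mp hT' with rfl | hT'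
          · exact hT
          · exact hD _ (res_mem h1 _ hT'))
      simp only [List.map_cons, List.prod_cons, List.map_nil, List.prod_nil, mul_one] at h4
      rw [mul_assoc, h4, inv_mul_cancel_left]
      exact word_mem_cl D _ (res_mem h1)
    · exact conjB_spec D hD T hT bs ws (fun b h => hbs b (by simp [h])) h3 b' hb'

theorem chainB_spec : ∀ (D : List Lvl), chainB D = true →
    Chain (toL D) ∧ ∀ T ∈ D.map Lvl.T, bijB T = true
  | [], _ => ⟨trivial, by simp⟩
  | d :: D, h => by
    simp only [chainB, Bool.and_eq_true, Nat.blt_eq] at h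
    obtain ⟨⟨⟨⟨⟨h1, h2⟩, h3⟩, h4⟩, h5⟩, h6⟩ := h
    obtain ⟨ih1, ih2⟩ := chainB_spec D h1
    refine ⟨⟨h3, ?_, ?_, ih1⟩, ?_⟩
    · have h7 := word_eq h5 (by
        intro T hT; rw [List.eq_of_mem_replicate hT]; exact h2)
        (fun T hT => ih2 _ (res_mem h4 _ hT))
      rw [List.map_replicate, List.prod_replicate] at h7
      rw [h7]
      exact word_mem_cl D _ (res_mem h4)
    · intro b hb
      change b ∈ (toL D).map Prod.fst at hb
      rw [toL_fst] at hb
      obtain ⟨T, hT, rfl⟩ := List.mem_map.mp hb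
      exact conjB_spec D ih2 d.T h2 _ _ ih2 h6 T hT
    · intro T hT
      rcases List.mem_cons.mp hT with rfl | hT
      · exact h2
      · exact ih2 T hT

/-- Check a predicate on all normal forms. -/
def allNF : List Lvl → (Bool → (ℕ → ℕ) → Bool) → Bool
  | [], k => k true (fun i => i)
  | d :: D, k => allNF D (fun z f => k z f && (List.range (d.p - 1)).all
      (fun e => k false (fun i => wordF (List.replicate (e + 1) d.T) (f i))))

theorem allNF_spec : ∀ (D : List Lvl) (k : Bool → (ℕ → ℕ) → Bool),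
    (∀ T ∈ D.map Lvl.T, bijB T = true) → allNF D k = true →
    ∀ zx ∈ NF (toL D), k zx.1 (fun i => zx.2 i) = true
  | [], k, _, h, zx, hz => by
    simp only [toL, List.map_nil, NF, List.mem_singleton] at hz
    subst hz; exact h
  | d :: D, k, hb, h, zx, hz => by
    have ih := allNF_spec D _ (fun T hT => hb T (by simp only [List.map_cons, List.mem_cons]; exact Or.inr hT)) h
    change zx ∈ NF ((toPerm d.T, d.p) :: toL D) at hz
    simp only [NF, List.mem_append, List.mem_flatMap, List.mem_map] at hz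
    rcases hz with hz | ⟨e, he, zh, hz, rfl⟩
    · have := ih zx hz
      rw [Bool.and_eq_true] at this
      exact this.1
    · have := ih zh hz
      rw [Bool.and_eq_true] at this
      have h2 := List.all_eq_true.mp this.2 e he
      convert h2 using 2
      funext i
      rw [Perm.mul_apply, ← word_apply _ (by
        intro T hT; rw [List.eq_of_mem_replicate hT]; exact hb _ (by simp)),
        List.map_replicate, List.prod_replicate]

end Pool.Agent.H859Z.Spl
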