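import Mathlib

set_option autoImplicit false

namespace Pool.Agent.H859Z.Spl

open Matrix

/-- A rational matrix representation. -/
structure MRep (G : Type) [Group G] where
  n : ℕ
  ρ : G →* Matrix (Fin n) (Fin n) ℚ

variable {G : Type} [Group G]

def MRep.tr (A : MRep G) (g : G) : ℚ := Matrix.trace (A.ρ g)

/-- Tensor product of two matrix representations. -/
noncomputable def MRep.tens (A B : MRep G) : MRep G where
  n := A.n * B.n
  ρ :=
    { toFun := fun g => Matrix.reindex finProdFinEquiv finProdFinEquiv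
        (Matrix.kroneckerMap (· * ·) (A.ρ g) (B.ρ g))
      map_one' := by
        rw [map_one, map_one, Matrix.one_kronecker_one]
        simp
      map_mul' := fun g h => by
        rw [map_mul, map_mul, Matrix.mul_kronecker_mul]
        simp [Matrix.submatrix_mul_equiv] }

@[simp] theorem MRep.tens_n (A B : MRep G) : (A.tens B).n = A.n * B.n := rfl

@[simp] theorem MRep.tens_tr (A B : MRep G) (g : G) : (A.tens B).tr g = A.tr g * B.tr g := by
  unfold MRep.tr
  rw [← Matrix.trace_kronecker]
  show Matrix.trace (Matrix.reindex finProdFinEquiv finProdFinEquiv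
        (Matrix.kroneckerMap (· * ·) (A.ρ g) (B.ρ g))) = _
  simp only [Matrix.trace, Matrix.reindex_apply, Matrix.diag_apply, Matrix.submatrix_apply]
  exact Equiv.sum_comp finProdFinEquiv.symm
    (fun i => Matrix.kroneckerMap (· * ·) (A.ρ g) (B.ρ g) i i)

/-- The trivial representation. -/
def MRep.one (G : Type) [Group G] : MRep G := ⟨1, 1⟩

@[simp] theorem MRep.one_n : (MRep.one G).n = 1 := rfl

@[simp] theorem MRep.one_tr (g : G) : (MRep.one G).tr g = 1 := by
  show Matrix.trace (1 : Matrix (Fin 1) (Fin 1) ℚ) = 1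
  simp

def IsSplit (G : Type) [Group G] : Prop :=
  ∃ (ι : Type) (_ : Fintype ι) (n : ι → ℕ),
    Nonempty (MonoidAlgebra ℚ G ≃ₐ[ℚ] ((i : ι) → Matrix (Fin (n i)) (Fin (n i)) ℚ))

theorem split_of_family [Finite G] {ι : Type} [Fintype ι] (A : ι → MRep G)
    (hd : ∑ i, (A i).n ^ 2 = Nat.card G)
    (ht : ∀ g : G, g ≠ 1 → ∑ i, ((A i).n : ℚ) * (A i).tr g = 0) : IsSplit G := by
  classical
  have := Fintype.ofFinite G
  let φ : G →* ((i : ι) → Matrix (Fin (A i).n) (Fin (A i).n) ℚ) := MonoidHom.pi (fun i => (A i).ρ)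
  let Φ : MonoidAlgebra ℚ G →ₐ[ℚ] ((i : ι) → Matrix (Fin (A i).n) (Fin (A i).n) ℚ) :=
    MonoidAlgebra.lift ℚ _ G φ
  let T : ((i : ι) → Matrix (Fin (A i).n) (Fin (A i).n) ℚ) →ₗ[ℚ] ℚ :=
    ∑ i, ((A i).n : ℚ) • ((Matrix.traceLinearMap (Fin (A i).n) ℚ ℚ).comp (LinearMap.proj i))
  have hT : ∀ g : G, T (φ g) = if g = 1 then (Nat.card G : ℚ) else 0 := by
    intro g
    have h1 : T (φ g) = ∑ i, ((A i).n : ℚ) * (A i).tr g := by
      simp [T, φ, MRep.tr, LinearMap.sum_apply]
    rw [h1]
    split_ifs with h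
    · subst h
      rw [← hd]
      push_cast
      refine Finset.sum_congr rfl fun i _ => ?_
      simp [MRep.tr, sq]
    · exact ht g h
  have hc : ∀ x : MonoidAlgebra ℚ G, T (Φ x) = (Nat.card G : ℚ) * x.coeff 1 := by
    intro x
    induction x using MonoidAlgebra.induction_linear with
    | zero => simp
    | add x y hx hy => simp [hx, hy, mul_add]
    | single g c =>
      simp only [Φ, MonoidAlgebra.lift_single, map_smul, hT, smul_eq_mul]
      by_cases h : g = 1
      · subst h; simp [mul_comm]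
      · simp [h]
  have hinj : Function.Injective Φ := by
    rw [injective_iff_map_eq_zero]
    intro x hx
    ext g
    have h1 := hc (x * MonoidAlgebra.single g⁻¹ 1)
    rw [map_mul, hx, zero_mul, map_zero] at h1
    have h2 : (Nat.card G : ℚ) ≠ 0 := by exact_mod_cast Nat.card_pos.ne'
    have h3 := (mul_eq_zero.mp h1.symm).resolve_left h2
    simpa using h3
  have hfin : Module.finrank ℚ (MonoidAlgebra ℚ G) =
      Module.finrank ℚ ((i : ι) → Matrix (Fin (A i).n) (Fin (A i).n) ℚ) := by
    rw [Module.finrank_pi_fintype]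
    simp only [Module.finrank_matrix, Fintype.card_fin, Module.finrank_self, mul_one]
    rw [Module.finrank_eq_card_basis (MonoidAlgebra.basis G ℚ), ← Nat.card_eq_fintype_card, ← hd]
    simp [sq]
  have hsurj : Function.Surjective Φ :=
    (LinearMap.injective_iff_surjective_of_finrank_eq_finrank (f := Φ.toLinearMap) hfin).mp hinj
  exact ⟨ι, inferInstance, fun i => (A i).n, ⟨AlgEquiv.ofBijective Φ ⟨hinj, hsurj⟩⟩⟩

theorem split_of_list [Finite G] (L : List (MRep G))
    (hd : (L.map (fun A => A.n ^ 2)).sum = Nat.card G)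
    (ht : ∀ g : G, g ≠ 1 → (L.map (fun A => (A.n : ℚ) * A.tr g)).sum = 0) : IsSplit G := by
  refine split_of_family (ι := Fin L.length) (fun i => L.get i) ?_ ?_
  · rw [← hd, ← List.sum_ofFn]
    congr 1
    conv_rhs => rw [← List.ofFn_get L]
    rw [List.map_ofFn]; rfl
  · intro g hg
    rw [← ht g hg, ← List.sum_ofFn]
    congr 1
    conv_rhs => rw [← List.ofFn_get L]
    rw [List.map_ofFn]; rfl

theorem real_of_split [Finite G] (h : IsSplit G) (x : G) : ∃ y : G, x * y * x = y := by
  classical
  have := Fintype.ofFinite G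
  obtain ⟨ι, _, n, ⟨e⟩⟩ := h
  by_contra hne
  push Not at hne
  let s : G → MonoidAlgebra ℚ G := fun g => MonoidAlgebra.single g 1
  have hs : ∀ g h, s g * s h = s (g * h) := fun g h => by simp [s, MonoidAlgebra.single_mul_single]
  let z : MonoidAlgebra ℚ G := ∑ y : G, (s (y⁻¹ * x * y) - s (y⁻¹ * x⁻¹ * y))
  have hz0 : z ≠ 0 := by
    intro hz
    have h1 := congrArg (fun a : MonoidAlgebra ℚ G => a.coeff x) hz
    simp only [z, s, MonoidAlgebra.coeff_sum, MonoidAlgebra.coeff_sub, Finsupp.finsetSum_apply,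
      Finsupp.sub_apply, MonoidAlgebra.coeff_single, Finsupp.single_apply, MonoidAlgebra.coeff_zero,
      Finsupp.zero_apply] at h1
    have h2 : ∀ y : G, ¬ (y⁻¹ * x⁻¹ * y = x) := by
      intro y hy
      apply hne y
      have : y * x = x⁻¹ * y := by
        calc y * x = y * (y⁻¹ * x⁻¹ * y) := by rw [hy]
          _ = x⁻¹ * y := by group
      rw [mul_assoc, this]; simp
    simp only [h2, if_false, sub_zero] at h1
    have h3 := (Finset.sum_eq_zero_iff_of_nonneg (fun y _ => by split_ifs <;> norm_num)).mp h1 1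
      (Finset.mem_univ _)
    simp at h3
  have hzc : ∀ g : G, s g * z = z * s g := by
    intro g
    simp only [z, Finset.mul_sum, Finset.sum_mul, mul_sub, sub_mul, hs]
    rw [← Equiv.sum_comp (Equiv.mulRight g)]
    refine Finset.sum_congr rfl fun y _ => ?_
    simp [mul_assoc]
  have hzc' : ∀ a : MonoidAlgebra ℚ G, a * z = z * a := by
    intro a
    induction a using MonoidAlgebra.induction_linear with
    | zero => simp
    | add a b ha hb => rw [add_mul, mul_add, ha, hb]
    | single g c =>
      have : (MonoidAlgebra.single g c : MonoidAlgebra ℚ G) = c • s g := by simp [s]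
      rw [this, smul_mul_assoc, mul_smul_comm, hzc]
  have hez : e z ≠ 0 := fun h => hz0 (by simpa using h)
  obtain ⟨i, hi⟩ := Function.ne_iff.mp hez
  have hcomm : ∀ M : Matrix (Fin (n i)) (Fin (n i)) ℚ, Commute M (e z i) := by
    intro M
    have h1 := congrArg e (hzc' (e.symm (Pi.single i M)))
    rw [map_mul, map_mul, e.apply_symm_apply] at h1
    have h2 := congrFun h1 i
    simpa [Commute, SemiconjBy] using h2
  obtain ⟨c, hc⟩ := Matrix.mem_range_scalar_iff_commute_single'.mpr fun a b => hcomm _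
  have hc0 : c ≠ 0 := by
    rintro rfl
    apply hi
    rw [← hc]; simp
  let u : MonoidAlgebra ℚ G := e.symm (Pi.single i 1)
  have hu0 : u ≠ 0 := by
    intro hu
    have h1 : (Pi.single i 1 : (j : ι) → Matrix (Fin (n j)) (Fin (n j)) ℚ) = 0 := by
      simpa [u] using hu
    have h2 := congrFun h1 i
    simp only [Pi.single_eq_same, Pi.zero_apply] at h2
    apply hi
    rw [← mul_one (e z i), h2]; simp
  have hzu : z * u = c • u := by
    apply e.injective
    rw [map_mul, map_smul, e.apply_symm_apply]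
    funext j
    by_cases hj : j = i
    · subst hj
      simp only [Pi.mul_apply, Pi.smul_apply, Pi.single_eq_same, mul_one, ← hc]
      rw [Matrix.scalar_apply, Matrix.smul_one_eq_diagonal]
    · simp [hj]
  let B : MonoidAlgebra ℚ G →ₗ[ℚ] ℚ :=
    { toFun := fun a => ∑ g : G, a.coeff g * u.coeff g
      map_add' := fun a b => by simp [add_mul, Finset.sum_add_distrib]
      map_smul' := fun c a => by simp [Finset.mul_sum, mul_assoc] }
  have hB : ∀ g : G, B (s g * u) = B (s g⁻¹ * u) := by
    intro g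
    simp only [B, s, LinearMap.coe_mk, AddHom.coe_mk, MonoidAlgebra.coeff_single_mul_apply, one_mul,
      inv_inv]
    rw [← Equiv.sum_comp (Equiv.mulLeft g)]
    refine Finset.sum_congr rfl fun y _ => ?_
    simp [mul_comm]
  have h0 : B (z * u) = 0 := by
    simp only [z, Finset.sum_mul, sub_mul, map_sum, map_sub]
    refine Finset.sum_eq_zero fun y _ => ?_
    rw [hB]
    simp [mul_assoc]
  rw [hzu, map_smul, smul_eq_mul] at h0
  have h1 : ∑ g : G, u.coeff g * u.coeff g = 0 := (mul_eq_zero.mp h0).resolve_left hc0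
  apply hu0
  ext g
  have := (Finset.sum_eq_zero_iff_of_nonneg (fun y _ => mul_self_nonneg _)).mp h1 g
    (Finset.mem_univ _)
  simpa using this

end Pool.Agent.H859Z.Spl
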